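import Pool.Agent.Lib.KBlk.Defs

/-!
The tables of the Legendre functions of even degree and of their derivatives, computed by the kernel.
-/

namespace Pool.Agent.Lib.KBlk

open Pool.Agent.Lib.KLA

noncomputable section

/-- The central binomial coefficients. -/
def cbn (i : Nat) : Nat :=
  Nat.rec (motive := fun _ => Nat) 1
    (fun m ih => Nat.div (Nat.mul (Nat.mul 2 (Nat.add (Nat.mul 2 m) 1)) ih) (Nat.add m 1)) i

/-- `4 ^ (2 h)` times the coefficient of `cos (2 k x)` in `P_(2 h) (cos x)`. -/
def lgn (k h : Nat) : Nat :=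
  cnd (Nat.ble k h) (Nat.mul (cnd (Nat.beq k 0) 1 2)
    (Nat.mul (cbn (Nat.sub h k)) (cbn (Nat.add h k)))) 0

/-- The absolute values of the entries, for the degree `2 * hf b` in column `b`: scale `2 ^ p` for
the function, `2 ^ p / N b` for the derivative. -/
def ang (p : Nat) (N hf : Nat → Nat) (e : Bool) (k b : Nat) : Nat :=
  Nat.div (Nat.shiftLeft (Nat.mul (cnd e (Nat.mul 2 k) 1) (lgn k (hf b))) p)
    (Nat.shiftLeft (cnd e (N b) 1) (Nat.mul 4 (hf b)))

/-- The row with the entries `f 0, ..., f (q - 1)` or their opposites, with offset `K`. -/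
def rowF (W K : Nat) (e : Bool) (f : Nat → Nat) (q : Nat) : Nat :=
  Nat.rec (motive := fun _ => Nat) 0
    (fun b ih => Nat.add ih
      (Nat.shiftLeft (cnd e (Nat.sub K (f b)) (Nat.add K (f b))) (Nat.mul W b))) q

/-- `f 0 + ... + f (q - 1)`. -/
def sumF (f : Nat → Nat) (q : Nat) : Nat :=
  Nat.rec (motive := fun _ => Nat) 0 (fun k ih => Nat.add ih (f k)) q

/-- The table, with `16 * c` rows and `nb` columns. -/
def angT (W K p : Nat) (N hf : Nat → Nat) (e : Bool) (nb c : Nat) : Rows :=
  rgen (fun k => rowF W K e (ang p N hf e k) nb) c 0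

/-- The stored table `T` is the table, and its columns have norms at most `L`. -/
def angChk (W K L p : Nat) (N hf : Nat → Nat) (e : Bool) (nb n : Nat) (T : Rows) : Bool :=
  bnd (bnd (Nat.beq T.len n) (Nat.ble L K))
    (bnd (allR (fun k => Nat.beq (T.get k) (rowF W K e (ang p N hf e k) nb)) 0 n)
      (allR (fun b => bnd (Nat.ble 1 (N b)) (Nat.ble (sumF (fun k => ang p N hf e k b) n) L)) 0 nb))

end

end Pool.Agent.Lib.KBlk
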