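import Pool.Agent.Lib.KBlk.Term

/-!
Stored matrices whose rows have their own word lengths, and operations on terms.
-/

namespace Pool.Agent.Lib.KBlk

open Pool.Agent.Lib.KLA

/-- Cells of 16 rows. For `d = b + 128 * s`, a row consists of the bits `s, ..., s + b - 1` of the
slots of `z`. -/
inductive Chk : Type
  | nil : Chk
  | cons (d0 d1 d2 d3 d4 d5 d6 d7 d8 d9 d10 d11 d12 d13 d14 d15 : Nat)
      (z0 z1 z2 z3 z4 z5 z6 z7 z8 z9 z10 z11 z12 z13 z14 z15 : Nat) (t : Chk) : Chk

noncomputable section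

/-- One half of `2 ^ b`. -/
def hlf (b : Nat) : Nat := Nat.shiftRight (Nat.shiftLeft 1 b) 1

/-- The first bit. -/
def cfs (s d : Nat) : Nat := Nat.add s (Nat.shiftRight d 7)

/-- The mask. -/
def cmk (W p d : Nat) : Nat := strict (Nat.land d 127) fun b => msk W b p

/-- The vector that changes the offset to `K`. -/
def ofs (W K p d : Nat) : Nat := Nat.mul (Nat.sub K (hlf (Nat.land d 127))) (ones W p)

/-- All rows, without the first `s` bits, `p` columns, offset `K`. -/
def ldc (W K s p : Nat) (Z : Chk) : Rows :=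
  Chk.rec (motive := fun _ => Rows) Rows.nil
    (fun d0 d1 d2 d3 d4 d5 d6 d7 d8 d9 d10 d11 d12 d13 d14 d15
      z0 z1 z2 z3 z4 z5 z6 z7 z8 z9 z10 z11 z12 z13 z14 z15 _ ih => Rows.cons
      (Nat.add (Nat.land (Nat.shiftRight z0 (cfs s d0)) (cmk W p d0)) (ofs W K p d0)) (Nat.add
      (Nat.land (Nat.shiftRight z1 (cfs s d1)) (cmk W p d1)) (ofs W K p d1)) (Nat.add (Nat.land
      (Nat.shiftRight z2 (cfs s d2)) (cmk W p d2)) (ofs W K p d2)) (Nat.add (Nat.land
      (Nat.shiftRight z3 (cfs s d3)) (cmk W p d3)) (ofs W K p d3)) (Nat.add (Nat.land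
      (Nat.shiftRight z4 (cfs s d4)) (cmk W p d4)) (ofs W K p d4)) (Nat.add (Nat.land
      (Nat.shiftRight z5 (cfs s d5)) (cmk W p d5)) (ofs W K p d5)) (Nat.add (Nat.land
      (Nat.shiftRight z6 (cfs s d6)) (cmk W p d6)) (ofs W K p d6)) (Nat.add (Nat.land
      (Nat.shiftRight z7 (cfs s d7)) (cmk W p d7)) (ofs W K p d7)) (Nat.add (Nat.land
      (Nat.shiftRight z8 (cfs s d8)) (cmk W p d8)) (ofs W K p d8)) (Nat.add (Nat.land
      (Nat.shiftRight z9 (cfs s d9)) (cmk W p d9)) (ofs W K p d9)) (Nat.add (Nat.land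
      (Nat.shiftRight z10 (cfs s d10)) (cmk W p d10)) (ofs W K p d10)) (Nat.add (Nat.land
      (Nat.shiftRight z11 (cfs s d11)) (cmk W p d11)) (ofs W K p d11)) (Nat.add (Nat.land
      (Nat.shiftRight z12 (cfs s d12)) (cmk W p d12)) (ofs W K p d12)) (Nat.add (Nat.land
      (Nat.shiftRight z13 (cfs s d13)) (cmk W p d13)) (ofs W K p d13)) (Nat.add (Nat.land
      (Nat.shiftRight z14 (cfs s d14)) (cmk W p d14)) (ofs W K p d14)) (Nat.add (Nat.land
      (Nat.shiftRight z15 (cfs s d15)) (cmk W p d15)) (ofs W K p d15))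
      ih) Z

/-- The columns `d, ..., d + p - 1` and `16 * c` rows from row `16 * c0` on. -/
def ld (W K d p c0 c : Nat) (Z : Chk) : Rows :=
  rtake (rdrop (strict (Nat.mul W d) fun s => ldc W K s p Z) c0) c

/-- The number of rows. -/
def Chk.len (Z : Chk) : Nat :=
  Chk.rec (motive := fun _ => Nat) 0
    (fun _ _ _ _ _ _ _ _ _ _ _ _ _ _ _ _ _ _ _ _ _ _ _ _ _ _ _ _ _ _ _ _ _ ih =>
      Nat.add ih 16) Z

/-- The word length fits. -/
def cft (W K d : Nat) : Bool :=
  bnd (Nat.ble (Nat.land d 127) W) (Nat.ble (hlf (Nat.land d 127)) K)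

/-- The word lengths fit. -/
def Chk.fit (W K : Nat) (Z : Chk) : Bool :=
  Chk.rec (motive := fun _ => Bool) true
    (fun d0 d1 d2 d3 d4 d5 d6 d7 d8 d9 d10 d11 d12 d13 d14 d15
      _ _ _ _ _ _ _ _ _ _ _ _ _ _ _ _ _ ih => bnd
      (bnd (bnd (bnd (bnd (cft W K d0) (cft W K d1)) (bnd (cft W K d2) (cft W K d3))) (bnd (bnd
      (cft W K d4) (cft W K d5)) (bnd (cft W K d6) (cft W K d7)))) (bnd (bnd (bnd (cft W K d8)
      (cft W K d9)) (bnd (cft W K d10) (cft W K d11))) (bnd (bnd (cft W K d12) (cft W K d13)) (bnd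
      (cft W K d14) (cft W K d15)))))
      ih) Z

/-- The word lengths fit and there are at least `n` rows. -/
def Chk.ok (W K n : Nat) (Z : Chk) : Bool :=
  bnd (bnd (Z.fit W K) (Nat.ble 1 W)) (Nat.ble n Z.len)

/-- A term computed with slots of `W` bits, added to a vector with slots of `V` bits. -/
def tW (W V p : Nat) (T : Trm) : Trm := fun j x f =>
  T j 0 fun y => strict (Nat.add x (rsl W V (Nat.add (Nat.div p 16) 1) (slt j y))) f

/-- A term with `q` entries and offset `K`, placed at position `d`. -/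
def tE (W p d q K : Nat) (T : Trm) : Trm := fun j x f =>
  T j 0 fun y => strict (Nat.add x (cat W d (Nat.mul K (ones W d))
    (cat W q y (Nat.mul K (ones W (Nat.sub (Nat.sub p d) q)))))) f

/-- The rows from `d` on. -/
def tX (d : Nat) (T : Trm) : Trm := fun j x f => strict (Nat.add d j) fun i => T i x f

/-- `T` for the rows below `m`, then `U`. -/
def tB (m : Nat) (T U : Trm) : Trm := fun j => cnd (Nat.ble m j) (U j) (T j)

/-- The zero vector with offset `K`. -/
def tK (W p K : Nat) : Trm := fun _ x f => strict (Nat.add x (Nat.mul K (ones W p))) f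

/-- `p i` for all `i < n`. -/
def AllP (p : Nat → Prop) (n : Nat) : Prop := ∀ i, i < n → p i

theorem AllP.zero (p : Nat → Prop) : AllP p 0 := fun _ h => absurd h (Nat.not_lt_zero _)

theorem AllP.step {p : Nat → Prop} {n : Nat} (hp : p n) (h : AllP p n) : AllP p (n + 1) :=
  fun i hi => (Nat.lt_or_ge i n).elim (h i) fun h1 =>
    Nat.le_antisymm (Nat.le_of_lt_succ hi) h1 ▸ hp

end

end Pool.Agent.Lib.KBlk
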