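import Pool.Agent.Lib.KBlk.TermS
import Pool.Agent.Lib.KBlk.Chk

/-!
The meaning of stored matrices with rows of different word lengths.
-/

namespace Pool.Agent.Lib.KBlk

open Finset Pool.Agent.Lib.KLA

noncomputable section

/-- Entry `j` of a row. -/
def cent (W z d j : ℕ) : ℤ :=
  (bits z (Nat.shiftRight d 7 + W * j) (Nat.land d 127) : ℤ) - hlf (Nat.land d 127)

/-- Entry `(k, j)` of a stored matrix. -/
def Chk.ent (W : ℕ) : Chk → ℕ → ℕ → ℤ
  | .nil, _, _ => 0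
  | .cons d0 d1 d2 d3 d4 d5 d6 d7 d8 d9 d10 d11 d12 d13 d14 d15
      z0 z1 z2 z3 z4 z5 z6 z7 z8 z9 z10 z11 z12 z13 z14 z15 t, k, j => if k < 16 then
      cent W (lget [z0, z1, z2, z3, z4, z5, z6, z7, z8, z9, z10, z11, z12, z13, z14, z15] k)
        (lget [d0, d1, d2, d3, d4, d5, d6, d7, d8, d9, d10, d11, d12, d13, d14, d15] k) j
      else t.ent W (k - 16) j

variable {W V p q J K d : ℕ} {T U : Trm} {G : ℕ → ℕ → ℝ} {e : ℝ}

theorem vec_off {x L : ℕ} {v : ℕ → ℤ} (hW : 0 < W) (h : Vec W p L x v) (hL : L ≤ K) :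
    Vec W p K (Nat.add x (Nat.mul (Nat.sub K L) (ones W p))) v := by
  have t := h.add (vec_zero hW p (K - L))
  rw [Nat.add_sub_cancel' hL] at t
  exact t.congr fun j _ => add_zero _

theorem vec_hlf {b : ℕ} (hW : 0 < W) (hb : b ≤ W) (p z s : ℕ) :
    Vec W p (hlf b) (Nat.land (Nat.shiftRight z s) (msk W b p))
      fun j => (bits z (s + W * j) b : ℤ) - hlf b := by
  rcases Nat.eq_zero_or_pos b with rfl | h0
  · refine ⟨(land_shr_msk hW hb p z s).trans (pk_congr fun j _ => by ring), fun j _ => ?_⟩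
    simp [bits, Nat.mod_one, show hlf 0 = 0 from rfl]
  · have e : hlf b = 2 ^ (b - 1) := by
      obtain ⟨c, rfl⟩ : ∃ c, b = c + 1 := ⟨b - 1, by omega⟩
      rw [hlf, shl_eq, shr_eq, one_mul, pow_succ, pow_one, Nat.add_sub_cancel,
        Nat.mul_div_cancel _ two_pos]
    rw [e]
    exact_mod_cast vec_store h0 hb p z s

theorem vec_crow (z : ℕ) {x : ℕ} (hW : 0 < W) (h : cft W K x = true) (d p : ℕ) :
    Vec W p K (Nat.add (Nat.land (Nat.shiftRight z (cfs (W * d) x)) (cmk W p x)) (ofs W K p x))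
      fun j => cent W z x (d + j) :=
  (vec_off hW (vec_hlf hW (Nat.le_of_ble_eq_true ((bnd_iff _ _).1 h).1) p z _)
    (Nat.le_of_ble_eq_true ((bnd_iff _ _).1 h).2)).congr fun j _ => by
    rw [cent, cfs, Nat.add_eq, show W * d + Nat.shiftRight x 7 + W * j =
      Nat.shiftRight x 7 + W * (d + j) by ring]

theorem mat_ldc (hW : 0 < W) (d p : ℕ) : ∀ Z : Chk, Z.fit W K = true →
    Mat W p K Z.len (ldc W K (W * d) p Z) fun k j => Z.ent W k (d + j)
  | .nil, _ => ⟨rfl, fun _ h => absurd h (Nat.not_lt_zero _)⟩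
  | .cons d0 d1 d2 d3 d4 d5 d6 d7 d8 d9 d10 d11 d12 d13 d14 d15
      z0 z1 z2 z3 z4 z5 z6 z7 z8 z9 z10 z11 z12 z13 z14 z15 t, h => by
    obtain ⟨h1, h2⟩ := (bnd_iff _ _).1 h
    have ih := mat_ldc hW d p t h2
    simp only [bnd_iff] at h1
    obtain ⟨⟨⟨⟨f0, f1⟩, ⟨f2, f3⟩⟩, ⟨⟨f4, f5⟩, ⟨f6, f7⟩⟩⟩, ⟨⟨⟨f8, f9⟩, ⟨f10, f11⟩⟩, ⟨⟨f12, f13⟩,
      ⟨f14, f15⟩⟩⟩⟩ := h1
    refine ⟨congrArg (· + 16) ih.1, fun k hk => ?_⟩
    by_cases hg : k < 16
    · simp only [Chk.ent, if_pos hg]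
      interval_cases k
      exacts [vec_crow z0 hW f0 d p, vec_crow z1 hW f1 d p, vec_crow z2 hW f2 d p, vec_crow z3 hW
        f3 d p, vec_crow z4 hW f4 d p, vec_crow z5 hW f5 d p, vec_crow z6 hW f6 d p, vec_crow z7 hW
        f7 d p, vec_crow z8 hW f8 d p, vec_crow z9 hW f9 d p, vec_crow z10 hW f10 d p, vec_crow z11
        hW f11 d p, vec_crow z12 hW f12 d p, vec_crow z13 hW f13 d p, vec_crow z14 hW f14 d p,
        vec_crow z15 hW f15 d p]
    · obtain ⟨n, rfl⟩ := Nat.exists_eq_add_of_le (not_lt.1 hg)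
      simp only [Chk.ent, if_neg hg, Nat.add_sub_cancel_left]
      exact (get_cons_add _ _ _ _ _ _ _ _ _ _ _ _ _ _ _ _ _ n).symm ▸ ih.2 n (by
        change 16 + n < t.len + 16 at hk
        omega)

/-- A part of a stored matrix. -/
theorem mat_ld {n c0 c : ℕ} {Z : Chk} (h : Z.ok W K n = true) (d p : ℕ) (hc : 16 * (c0 + c) ≤ n) :
    Mat W p K (16 * c) (ld W K d p c0 c Z) fun k j => Z.ent W (16 * c0 + k) (d + j) := by
  obtain ⟨h1, h2⟩ := (bnd_iff _ _).1 h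
  obtain ⟨h1, h3⟩ := (bnd_iff _ _).1 h1
  have h2 := Nat.le_of_ble_eq_true h2
  exact mat_rtake (mat_rdrop (mat_ldc (Nat.le_of_ble_eq_true h3) d p Z h1) c0) (by omega)

theorem ent_le {n k : ℕ} {Z : Chk} (h : Z.ok W K n = true) (hk : k < n) (j : ℕ) :
    |Z.ent W k j| ≤ K := by
  obtain ⟨h1, h2⟩ := (bnd_iff _ _).1 h
  obtain ⟨h1, h3⟩ := (bnd_iff _ _).1 h1
  have h2 := Nat.le_of_ble_eq_true h2
  simpa using ((mat_ldc (Nat.le_of_ble_eq_true h3) j 1 Z h1).2 k (by omega)).2 0 one_pos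

theorem apx_nil (W p : ℕ) : Apx W p 0 0 (fun _ => 0) 0 :=
  ⟨fun _ => 0, ⟨by simp [pk], by simp⟩, by simp⟩

theorem tW_ok (h : TOk W p J T K G e) (hK : 2 * K < 2 ^ W) : TOk V p J (tW W V p T) K G e :=
  fun j hj x f K0 g0 e0 hx hf => by
    obtain ⟨y, y1, v, v1, v2⟩ := h j hj 0 _ 0 _ 0 (apx_nil W p) hf
    simp only [zero_add] at v1 v2
    exact ⟨_, y1, hx.add ⟨v, vec_rsl v1 hK (by
      change p ≤ 16 * (p / 16 + 1)
      omega), v2⟩⟩

theorem tE_ok (h : TOk W q J T K G e) (hW : 0 < W) (he : 0 ≤ e) (hd : d + q ≤ p) :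
    TOk W p J (tE W p d q K T) K (fun j n => if d ≤ n ∧ n < d + q then G j (n - d) else 0) e :=
  fun j hj x f K0 g0 e0 hx hf => by
    obtain ⟨y, y1, y2⟩ := h j hj 0 _ 0 _ 0 (apx_nil W q) hf
    simp only [zero_add] at y2
    have t := ((Vec.apx (vec_zero hW d K)).mono he).cat
      (y2.cat ((Vec.apx (vec_zero hW (p - d - q) K)).mono he))
    rw [show d + (q + (p - d - q)) = p by omega] at t
    refine ⟨_, y1, hx.add (t.congr fun m _ => ?_)⟩
    beta_reduce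
    by_cases h1 : m < d
    · rw [if_pos h1, if_neg (by omega), Int.cast_zero]
    · by_cases h2 : m - d < q
      · rw [if_neg h1, if_pos h2, if_pos (by omega)]
      · rw [if_neg h1, if_neg h2, if_neg (by omega), Int.cast_zero]

theorem tX_ok {I : ℕ} (h : TOk W p I T K G e) (hd : d + J ≤ I) :
    TOk W p J (tX d T) K (fun j => G (d + j)) e :=
  fun j _ x f K0 g0 e0 hx hf => h (d + j) (by omega) x f K0 g0 e0 hx hf

theorem tB_ok {m : ℕ} {G' : ℕ → ℕ → ℝ} (h : TOk W p m T K G e) (h' : TOk W p J U K G' e) :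
    TOk W p J (tB m T U) K (fun j => if j < m then G j else G' j) e :=
  fun j hj x f K0 g0 e0 hx hf => by
    rw [tB, cnd_eq] at hf
    by_cases hm : j < m
    · rw [if_neg (by rw [Nat.ble_eq]; omega)] at hf
      simpa only [if_pos hm] using h j hm x f K0 g0 e0 hx hf
    · rw [if_pos (by rw [Nat.ble_eq]; omega)] at hf
      simpa only [if_neg hm] using h' j hj x f K0 g0 e0 hx hf

theorem tK_ok (hW : 0 < W) : TOk W p J (tK W p K) K (fun _ _ => 0) 0 :=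
  fun _ _ x f K0 g0 e0 hx hf => by
    refine ⟨_, hf, ?_⟩
    simpa using hx.add (Vec.apx (vec_zero hW p K))

end

end Pool.Agent.Lib.KBlk
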