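import Pool.Agent.Lib.KLA.Defs

/-!
Rows of Galerkin matrices in separated variables: products of trigonometric sums against a table
of moments, evaluated by the kernel on packed natural numbers.
-/

namespace Pool.Agent.Lib.KBlk

open Pool.Agent.Lib.KLA

noncomputable section

/-- The first `n` cells. -/
def rtake (R : Rows) : Nat → Rows :=
  Rows.rec (motive := fun _ => Nat → Rows) (fun _ => Rows.nil)
    (fun a0 a1 a2 a3 a4 a5 a6 a7 a8 a9 a10 a11 a12 a13 a14 a15 _ ih n =>
      Nat.rec (motive := fun _ => Rows) Rows.nil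
        (fun m _ => Rows.cons a0 a1 a2 a3 a4 a5 a6 a7 a8 a9 a10 a11 a12 a13 a14 a15 (ih m)) n) R

/-- Without the first `n` cells. -/
def rdrop (R : Rows) : Nat → Rows :=
  Rows.rec (motive := fun _ => Nat → Rows) (fun _ => Rows.nil)
    (fun a0 a1 a2 a3 a4 a5 a6 a7 a8 a9 a10 a11 a12 a13 a14 a15 t ih n =>
      Nat.rec (motive := fun _ => Rows) (Rows.cons a0 a1 a2 a3 a4 a5 a6 a7 a8 a9 a10 a11 a12 a13 a14 a15 t)
        (fun m _ => ih m) n) R

/-- The rows `f i, f (i + 1), ...`, in `n` cells. -/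
def rgen (f : Nat → Nat) (n : Nat) : Nat → Rows :=
  Nat.rec (motive := fun _ => Nat → Rows) (fun _ => Rows.nil)
    (fun _ ih i => strict i fun i => Rows.cons
      (f (Nat.add i 0)) (f (Nat.add i 1)) (f (Nat.add i 2)) (f (Nat.add i 3)) (f (Nat.add i 4)) (f
      (Nat.add i 5)) (f (Nat.add i 6)) (f (Nat.add i 7)) (f (Nat.add i 8)) (f (Nat.add i 9)) (f
      (Nat.add i 10)) (f (Nat.add i 11)) (f (Nat.add i 12)) (f (Nat.add i 13)) (f (Nat.add i 14)) (f
      (Nat.add i 15))
      (ih (Nat.add i 16))) n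

/-- `colR` with the masks given. -/
def colRA (W s M W16 : Nat) (A : Rows) : Nat → Nat :=
  Rows.rec (motive := fun _ => Nat → Nat) (fun acc => acc)
    (fun a0 a1 a2 a3 a4 a5 a6 a7 a8 a9 a10 a11 a12 a13 a14 a15 _ ih acc => ih (Nat.add (Nat.shiftLeft acc W16)
      (Nat.add (Nat.shiftLeft (Nat.add (Nat.shiftLeft (Nat.add (Nat.shiftLeft (Nat.add
      (Nat.shiftLeft (Nat.add (Nat.shiftLeft (Nat.add (Nat.shiftLeft (Nat.add (Nat.shiftLeft
      (Nat.add (Nat.shiftLeft (Nat.add (Nat.shiftLeft (Nat.add (Nat.shiftLeft (Nat.add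
      (Nat.shiftLeft (Nat.add (Nat.shiftLeft (Nat.add (Nat.shiftLeft (Nat.add (Nat.shiftLeft
      (Nat.add (Nat.shiftLeft (Nat.land (Nat.shiftRight a0 s) M) W) (Nat.land (Nat.shiftRight a1 s)
      M)) W) (Nat.land (Nat.shiftRight a2 s) M)) W) (Nat.land (Nat.shiftRight a3 s) M)) W) (Nat.land
      (Nat.shiftRight a4 s) M)) W) (Nat.land (Nat.shiftRight a5 s) M)) W) (Nat.land (Nat.shiftRight
      a6 s) M)) W) (Nat.land (Nat.shiftRight a7 s) M)) W) (Nat.land (Nat.shiftRight a8 s) M)) W)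
      (Nat.land (Nat.shiftRight a9 s) M)) W) (Nat.land (Nat.shiftRight a10 s) M)) W) (Nat.land
      (Nat.shiftRight a11 s) M)) W) (Nat.land (Nat.shiftRight a12 s) M)) W) (Nat.land
      (Nat.shiftRight a13 s) M)) W) (Nat.land (Nat.shiftRight a14 s) M)) W) (Nat.land
      (Nat.shiftRight a15 s) M)))) A

/-- Column `d` of `A` as a vector, read backwards. -/
def colR (W d : Nat) (A : Rows) : Nat :=
  strict W fun W => strict (Nat.mul W d) fun s => strict (low W) fun M =>
    strict (Nat.mul W 16) fun W16 => colRA W s M W16 A 0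

/-- One cell of `rsl`. -/
def rcell (W V M x : Nat) : Nat :=
  (Nat.add (Nat.land x M) (Nat.shiftLeft (Nat.add (Nat.land (Nat.shiftRight x W) M) (Nat.shiftLeft
  (Nat.add (Nat.land (Nat.shiftRight (Nat.shiftRight x W) W) M) (Nat.shiftLeft (Nat.add (Nat.land
  (Nat.shiftRight (Nat.shiftRight (Nat.shiftRight x W) W) W) M) (Nat.shiftLeft (Nat.add (Nat.land
  (Nat.shiftRight (Nat.shiftRight (Nat.shiftRight (Nat.shiftRight x W) W) W) W) M) (Nat.shiftLeft
  (Nat.add (Nat.land (Nat.shiftRight (Nat.shiftRight (Nat.shiftRight (Nat.shiftRight (Nat.shiftRight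
  x W) W) W) W) W) M) (Nat.shiftLeft (Nat.add (Nat.land (Nat.shiftRight (Nat.shiftRight
  (Nat.shiftRight (Nat.shiftRight (Nat.shiftRight (Nat.shiftRight x W) W) W) W) W) W) M)
  (Nat.shiftLeft (Nat.add (Nat.land (Nat.shiftRight (Nat.shiftRight (Nat.shiftRight (Nat.shiftRight
  (Nat.shiftRight (Nat.shiftRight (Nat.shiftRight x W) W) W) W) W) W) W) M) (Nat.shiftLeft (Nat.add
  (Nat.land (Nat.shiftRight (Nat.shiftRight (Nat.shiftRight (Nat.shiftRight (Nat.shiftRight
  (Nat.shiftRight (Nat.shiftRight (Nat.shiftRight x W) W) W) W) W) W) W) W) M) (Nat.shiftLeft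
  (Nat.add (Nat.land (Nat.shiftRight (Nat.shiftRight (Nat.shiftRight (Nat.shiftRight (Nat.shiftRight
  (Nat.shiftRight (Nat.shiftRight (Nat.shiftRight (Nat.shiftRight x W) W) W) W) W) W) W) W) W) M)
  (Nat.shiftLeft (Nat.add (Nat.land (Nat.shiftRight (Nat.shiftRight (Nat.shiftRight (Nat.shiftRight
  (Nat.shiftRight (Nat.shiftRight (Nat.shiftRight (Nat.shiftRight (Nat.shiftRight (Nat.shiftRight x
  W) W) W) W) W) W) W) W) W) W) M) (Nat.shiftLeft (Nat.add (Nat.land (Nat.shiftRight (Nat.shiftRight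
  (Nat.shiftRight (Nat.shiftRight (Nat.shiftRight (Nat.shiftRight (Nat.shiftRight (Nat.shiftRight
  (Nat.shiftRight (Nat.shiftRight (Nat.shiftRight x W) W) W) W) W) W) W) W) W) W) W) M)
  (Nat.shiftLeft (Nat.add (Nat.land (Nat.shiftRight (Nat.shiftRight (Nat.shiftRight (Nat.shiftRight
  (Nat.shiftRight (Nat.shiftRight (Nat.shiftRight (Nat.shiftRight (Nat.shiftRight (Nat.shiftRight
  (Nat.shiftRight (Nat.shiftRight x W) W) W) W) W) W) W) W) W) W) W) W) M) (Nat.shiftLeft (Nat.add
  (Nat.land (Nat.shiftRight (Nat.shiftRight (Nat.shiftRight (Nat.shiftRight (Nat.shiftRight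
  (Nat.shiftRight (Nat.shiftRight (Nat.shiftRight (Nat.shiftRight (Nat.shiftRight (Nat.shiftRight
  (Nat.shiftRight (Nat.shiftRight x W) W) W) W) W) W) W) W) W) W) W) W) W) M) (Nat.shiftLeft
  (Nat.add (Nat.land (Nat.shiftRight (Nat.shiftRight (Nat.shiftRight (Nat.shiftRight (Nat.shiftRight
  (Nat.shiftRight (Nat.shiftRight (Nat.shiftRight (Nat.shiftRight (Nat.shiftRight (Nat.shiftRight
  (Nat.shiftRight (Nat.shiftRight (Nat.shiftRight x W) W) W) W) W) W) W) W) W) W) W) W) W) W) M)
  (Nat.shiftLeft (Nat.land (Nat.shiftRight (Nat.shiftRight (Nat.shiftRight (Nat.shiftRight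
  (Nat.shiftRight (Nat.shiftRight (Nat.shiftRight (Nat.shiftRight (Nat.shiftRight (Nat.shiftRight
  (Nat.shiftRight (Nat.shiftRight (Nat.shiftRight (Nat.shiftRight (Nat.shiftRight x W) W) W) W) W)
  W) W) W) W) W) W) W) W) W) W) M) V)) V)) V)) V)) V)) V)) V)) V)) V)) V)) V)) V)) V)) V)) V))

/-- `rsl` with the masks given. -/
def rslA (W V M W16 V16 M16 n : Nat) : Nat → Nat :=
  Nat.rec (motive := fun _ => Nat → Nat) (fun _ => 0)
    (fun _ ih x => Nat.add (rcell W V M (Nat.land x M16))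
      (Nat.shiftLeft (ih (Nat.shiftRight x W16)) V16)) n

/-- The first `16 * n` digits of `x` in base `2 ^ W`, written in base `2 ^ V`. -/
def rsl (W V n x : Nat) : Nat :=
  strict W fun W => strict V fun V => strict (low W) fun M => strict (Nat.mul W 16) fun W16 =>
    strict (Nat.mul V 16) fun V16 => strict (low W16) fun M16 => rslA W V M W16 V16 M16 n x

/-- Concatenation; `x` has `p` entries. -/
def cat (W p x y : Nat) : Nat := Nat.add x (Nat.shiftLeft y (Nat.mul W p))

/-- From offset `K` to signed digits with a leading digit one. -/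
def snt (W p K x : Nat) : Nat :=
  Nat.sub (Nat.add x (Nat.shiftLeft 1 (Nat.mul W p))) (Nat.mul K (ones W p))

/-- Column `d` of `A` (`m + 1` rows, offset `K`) continued evenly or oddly to the indices
`m, ..., -m`, with signed digits and a leading digit one. -/
def lau (W m K : Nat) (e : Bool) (d : Nat) (A : Rows) : Nat :=
  strict (Nat.mul W m) fun s => strict (Nat.mul K (ones W (Nat.add m 1))) fun o =>
  strict (Nat.add (colR W d A) (Nat.shiftLeft 1 (Nat.mul W (Nat.add (Nat.mul 2 m) 1)))) fun x =>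
    cnd e (Nat.sub (Nat.add x (Nat.shiftLeft o s)) (Nat.add o (Nat.shiftLeft (col W d A) s)))
      (Nat.sub (Nat.add x (Nat.shiftLeft (col W d A) s)) (Nat.add o (Nat.shiftLeft o s)))

/-- The convolution of signed vectors of lengths `r` and `p`, with offset `E`. -/
def cnv (W r p E x y : Nat) : Nat :=
  Nat.sub (Nat.add (Nat.mul x y) (Nat.add (Nat.shiftLeft 1 (Nat.mul W (Nat.add r p)))
      (Nat.mul E (ones W (Nat.add r p)))))
    (Nat.add (Nat.shiftLeft x (Nat.mul W p)) (Nat.shiftLeft y (Nat.mul W r)))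

/-- `x * w + a`. -/
def mad (x w a : Nat) : Nat := cnd (Nat.beq w 0) a (Nat.add (Nat.mul x w) a)

/-- The constant of `cnm`. -/
def kon (W r p E w0 w1 w2 : Nat) : Nat :=
  strict (Nat.add (Nat.add w0 w1) w2) fun u => Nat.land (Nat.sub (Nat.add (Nat.mul E (ones W p))
    (Nat.shiftLeft u (Nat.mul W p))) (Nat.shiftLeft u (Nat.mul W r))) (low (Nat.mul W p))

/-- The first digits are those of the sum of three convolutions. -/
def cnm (x0 x1 x2 w0 w1 w2 k : Nat) : Nat := mad x0 w0 (mad x1 w1 (mad x2 w2 k))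

/-- Vector (slots of `V` bits, offset `Kx`) times matrix (`n` rows with offset `K` and sum `S`),
with offset `E`. -/
def vml (V W p n Kx K E : Nat) (D : Rows) (S x : Nat) : Nat :=
  Nat.sub (Nat.add (dot V D x) (Nat.mul (Nat.add E (Nat.mul n (Nat.mul Kx K))) (ones W p)))
    (Nat.add (Nat.mul Kx S) (Nat.mul (Nat.mul K (dsum V x)) (ones W p)))

/-- Exchange neighbouring groups of `h` entries; there are `n` pairs. -/
def swp (W h n x : Nat) : Nat :=
  strict x fun x => strict (Nat.mul W h) fun s => strict (msk (Nat.mul W (Nat.mul 2 h)) s n) fun M =>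
    Nat.add (Nat.land (Nat.shiftRight x s) M) (Nat.shiftLeft (Nat.land x M) s)

/-- Reverse each of `n` groups of eight entries. -/
def rev8 (W n x : Nat) : Nat := swp W 4 n (swp W 2 (Nat.mul 2 n) (swp W 1 (Nat.mul 4 n) x))

/-- Reverse 256 entries. -/
def rev256 (W x : Nat) : Nat :=
  swp W 128 1 (swp W 64 2 (swp W 32 4 (swp W 16 8 (swp W 8 16 (rev8 W 32 x)))))

/-- The entries `m, ..., 1` of `z`, then `z`. -/
def evn (W m z : Nat) : Nat :=
  strict z fun z => cat W m (rnd W 0 (Nat.sub 255 m) m (rev256 W (rnd W 0 0 256 z))) z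

/-- The even continuation from the vector `f` and its reverse `r`. -/
def lav (W m K r f : Nat) : Nat :=
  strict (Nat.mul W m) fun s => strict (Nat.mul K (ones W (Nat.add m 1))) fun o =>
    Nat.sub (Nat.add (Nat.add r (Nat.shiftLeft 1 (Nat.mul W (Nat.add (Nat.mul 2 m) 1))))
      (Nat.shiftLeft f s)) (Nat.add o (Nat.shiftLeft o s))

/-- Vector (`8 * n` entries, offset `Kx`) times a matrix with `J` columns whose rows are stored in
`n` groups of eight (offset `K`, sum `S`), with offset `E`. -/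
def vmg (W J n Kx K E : Nat) (D : Rows) (S x : Nat) : Nat :=
  strict (Nat.mul W 8) fun V => strict (Nat.mul Kx (ones W 8)) fun o =>
  strict (Nat.mul K (ones W (Nat.mul 8 J))) fun u =>
    rsl V W (Nat.add (Nat.div J 16) 1) (Nat.land (Nat.shiftRight
      (Nat.sub (Nat.add (dot V D x) (Nat.add (Nat.mul E (ones W (Nat.add 8 (Nat.mul 8 J))))
          (Nat.mul n (Nat.mul o u))))
        (Nat.add (Nat.mul o S) (Nat.mul (dsum V x) u))) (Nat.mul W 7)) (msk V W J))

/-- The word lengths. Radial factors have `16 * cA = mA + 1` coefficients in row tables and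
`16 * cB` in column tables, the tables have `128 * dA` and `128 * dB` rows in groups of eight;
angular tables have `mK + 1` rows; rows of moments have `St - mA` entries. -/
structure Par where
  (W cA mA cB dA dB mK St Kr Kc Ka Km s1 s2 s3 E1 E2 b2 E3 E4 : Nat)

/-- The upper half of the product of two angular factors, `16 * c` entries, rounded. -/
def angc (P : Par) (c x y : Nat) : Nat :=
  rnd P.W P.s1 (Nat.mul 2 P.mK) (Nat.mul 16 c)
    (cnv P.W (Nat.add (Nat.mul 2 P.mK) 1) (Nat.add (Nat.mul 2 P.mK) 1)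
      (Nat.mul (Nat.shiftLeft 1 P.s1) P.E1) x y)

/-- Radial moments of the field times an angular product. -/
def wrow (P : Par) (c : Nat) (M : Rows) (x : Nat) : Nat :=
  strict (Nat.sub P.St P.mA) fun p => (fun M : Rows => evn P.W P.mA (rnd P.W P.s2 0 p
    (vml P.W P.W p (Nat.mul 16 c) P.E1 P.Km (Nat.mul (Nat.shiftLeft 1 P.s2) P.E2) M M.sum x)))
  (rtake M c)

/-- Three rows of radial moments in one signed vector. -/
def wblk (P : Par) (c : Nat) (M0 M1 M2 : Rows) (x y : Nat) (f : Nat → Bool) : Bool :=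
  tight P.W (Nat.mul 3 P.St) P.E2 P.b2
    (cat P.W P.St (wrow P c M0 x) (cat P.W P.St (wrow P c M1 y) (wrow P c M2 y))) fun z =>
    strict (snt P.W (Nat.mul 3 P.St) (Nat.shiftLeft 1 P.b2) z) f

/-- Is the table empty? -/
def isn (M : Rows) : Bool :=
  Rows.rec (motive := fun _ => Bool) true (fun _ _ _ _ _ _ _ _ _ _ _ _ _ _ _ _ _ _ => false) M

/-- One row of radial moments as a signed vector; zero for an empty table. -/
def wseg (P : Par) (c : Nat) (M : Rows) (x : Nat) (f : Nat → Bool) : Bool :=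
  cnd (isn M) (f 0) (tight P.W P.St P.E2 P.b2 (wrow P c M x) fun z =>
    strict (snt P.W P.St (Nat.shiftLeft 1 P.b2) z) f)

/-- The nine rows of radial moments of a class of columns: in three long vectors, or one by one. -/
inductive Wt : Type
  | den (w0 w1 w2 k : Nat) : Wt
  | spa (u0 u1 u2 k v0 v1 v2 l w0 w1 w2 m : Nat) : Wt

/-- The constant for vectors of `p` entries. -/
def konp (P : Par) (p w0 w1 w2 : Nat) : Nat :=
  kon P.W (Nat.add (Nat.mul 2 P.mA) 1) p (Nat.mul (Nat.shiftLeft 1 P.s3) P.E3) w0 w1 w2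

/-- Three rows of radial moments and their constant. -/
def wcol (P : Par) (c : Nat) (M0 M1 M2 : Rows) (x y : Nat) (f : Nat → Nat → Nat → Nat → Bool) :
    Bool :=
  wseg P c M0 x fun u0 => wseg P c M1 y fun u1 => wseg P c M2 y fun u2 =>
    strict (konp P P.St u0 u1 u2) (f u0 u1 u2)

/-- Is one of three tables empty? -/
def isn3 (M0 M1 M2 : Rows) : Bool := cnd (isn M0) true (cnd (isn M1) true (isn M2))

/-- The radial moments for the tables `M s i`, `M s j`, `M s l`. -/
def wcls (P : Par) (c : Nat) (M : Nat → Nat → Rows) (i j l a00 a01 a10 a11 : Nat) (f : Wt → Bool) :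
    Bool :=
  cnd (cnd (isn3 (M 0 i) (M 0 j) (M 0 l)) true
      (cnd (isn3 (M 1 i) (M 1 j) (M 1 l)) true (isn3 (M 2 i) (M 2 j) (M 2 l))))
    (wcol P c (M 0 i) (M 1 i) (M 2 i) a00 a10 fun u0 u1 u2 k =>
      wcol P c (M 0 j) (M 1 j) (M 2 j) a01 a11 fun v0 v1 v2 k' =>
      wcol P c (M 0 l) (M 1 l) (M 2 l) a01 a11 fun w0 w1 w2 k'' =>
        f (Wt.spa u0 u1 u2 k v0 v1 v2 k' w0 w1 w2 k''))
    (wblk P c (M 0 i) (M 0 j) (M 0 l) a00 a01 fun w0 =>
      wblk P c (M 1 i) (M 1 j) (M 1 l) a10 a11 fun w1 =>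
      wblk P c (M 2 i) (M 2 j) (M 2 l) a10 a11 fun w2 =>
        strict (konp P (Nat.mul 3 P.St) w0 w1 w2) fun k => f (Wt.den w0 w1 w2 k))

/-- The second argument. -/
def slt (_j x : Nat) : Nat := x

/-- The radial factors of a row times the moments, rounded. -/
def mid (P : Par) (x0 x1 x2 n d : Nat) (u : Wt) : Nat :=
  Wt.rec (motive := fun _ => Nat)
    (fun w0 w1 w2 k => strict (cnm x0 x1 x2 w0 w1 w2 k) fun y =>
      cat P.W n (rnd P.W P.s3 d n (slt x0 y))
        (cat P.W n (rnd P.W P.s3 (Nat.add d P.St) n (slt x0 y))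
          (rnd P.W P.s3 (Nat.add (Nat.add d P.St) P.St) n (slt x0 y))))
    (fun u0 u1 u2 k v0 v1 v2 l w0 w1 w2 m =>
      cat P.W n (rnd P.W P.s3 d n (cnm x0 x1 x2 u0 u1 u2 k))
        (cat P.W n (rnd P.W P.s3 d n (cnm x0 x1 x2 v0 v1 v2 l))
          (rnd P.W P.s3 d n (cnm x0 x1 x2 w0 w1 w2 m)))) u

/-- The part of a row that belongs to one block of `J` columns. -/
def piece (P : Par) (x0 x1 x2 : Nat) (u : Wt) (J : Nat) (D : Rows) (S : Nat) : Nat :=
  strict (Nat.mul 16 P.cB) fun n => strict (Nat.mul 2 P.mA) fun d =>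
  strict (cat P.W (Nat.mul 3 n) (mid P (slt S x0) x1 x2 n d u)
      (Nat.mul P.E3 (ones P.W (Nat.sub (Nat.mul 128 P.dB) (Nat.mul 3 n))))) fun z =>
    vmg P.W J (Nat.mul 16 P.dB) P.E3 P.Kc P.E4 D S (slt x0 (slt S z))

/-- What is shared by the rows of a tile: for each angular index of the columns, the radial
moments for the two classes of columns, the numbers of columns, their tables and sums. -/
inductive Tile : Type
  | nil : Tile
  | cons (u w : Wt) (I J : Nat) (C D : Rows) (S T : Nat) (t : Tile) : Tile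

/-- The shared part for the angular indices `b, ..., b + q - 1` of the columns. `x`, `y` are the
two angular factors of the rows, `dl` their degree, `M s β` the moments. -/
def tile (P : Par) (x y dl : Nat) (T0 T1 : Rows) (dg : Nat → Nat) (M : Nat → Nat → Rows)
    (J : Nat → Nat → Nat) (D : Nat → Nat → Rows) (q : Nat) : Nat → (Tile → Bool) → Bool :=
  Nat.rec (motive := fun _ => Nat → (Tile → Bool) → Bool) (fun _ f => f Tile.nil)
    (fun _ ih b f => strict b fun b =>
      strict (Nat.add (Nat.div (Nat.add dl (dg b)) 16) 1) fun c =>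
      strict (lau P.W P.mK P.Ka false b T0) fun x' => strict (lau P.W P.mK P.Ka true b T1) fun y' =>
      strict (angc P c x x') fun a00 => strict (angc P c x y') fun a01 =>
      strict (angc P c y x') fun a10 => strict (angc P c y y') fun a11 =>
      wcls P c M 0 1 2 a00 a01 a10 a11 fun u => wcls P c M 3 4 5 a00 a01 a10 a11 fun w =>
      strict (J b 0) fun I => strict (J b 1) fun J =>
      (fun C D : Rows => strict C.sum fun S => strict D.sum fun T =>
        ih (Nat.add b 1) fun t => f (Tile.cons u w I J C D S T t))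
      (D b 0) (D b 1)) q

/-- The pieces of a row, one after the other. -/
def rowC (P : Par) (x0 x1 x2 : Nat) (t : Tile) : Nat :=
  Tile.rec (motive := fun _ => Nat) 0
    (fun u w I J C D S T _ ih =>
      cat P.W I (piece P x0 x1 x2 u I C S) (cat P.W J (piece P x0 x1 x2 w J D T) ih)) t

/-- The three radial factors of member `j` of a block of rows with the table `R`. -/
def jets (P : Par) (R : Rows) (j : Nat) (f : Nat → Nat → Nat → Bool) : Bool :=
  strict (colR (Nat.mul P.W 8) j R) fun r =>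
  strict (rev8 P.W (Nat.mul 16 P.dA) (col (Nat.mul P.W 8) j R)) fun g =>
  strict (Nat.mul 16 P.cA) fun n => strict (Nat.mul 128 P.dA) fun t =>
  strict (lav P.W P.mA P.Kr (rnd P.W 0 (Nat.sub t n) n r) (rnd P.W 0 0 n g)) fun x0 =>
  strict (lav P.W P.mA P.Kr (rnd P.W 0 (Nat.sub t (Nat.mul 2 n)) n r) (rnd P.W 0 n n g)) fun x1 =>
  strict (lav P.W P.mA P.Kr (rnd P.W 0 (Nat.sub t (Nat.mul 3 n)) n r)
    (rnd P.W 0 (Nat.mul 2 n) n g)) fun x2 => f x0 x1 x2

end

end Pool.Agent.Lib.KBlk
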