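import Pool.Agent.Lib.KBlk.Lay

/-!
Chains of checks that cover all rows and columns of a pass.
-/

namespace Pool.Agent.Lib.KBlk

open Pool.Agent.Lib.KLA

/-- The rows below `n` of the block `(b0, y)` on one range of columns. -/
def CvR (f : Nat → Nat → Nat → Nat → Nat → Nat → Bool) (b0 y n b q : Nat) : Prop :=
  Cov (fun _ a r => f b0 y b q a r) n

/-- The rows below `n` of the block `(b0, y)` on the columns with angular index in `[lo, hi)`. -/
def CvB (f : Nat → Nat → Nat → Nat → Nat → Nat → Bool) (b0 y n lo hi : Nat) : Prop :=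
  CovP (CvR f b0 y n) lo hi

variable {f : Nat → Nat → Nat → Nat → Nat → Nat → Bool} {b0 y n b q a r lo hi i : Nat}

theorem CvR.zero : CvR f b0 y 0 b q := Cov.zero _

theorem CvR.step (hf : PLift (f b0 y b q a r = true)) (e : Nat.beq (a + r) n = true)
    (h : CvR f b0 y a b q) : CvR f b0 y n b q :=
  Cov.step (c := 0) hf.down (Nat.eq_of_beq_eq_true e) h

theorem CvR.one (hf : PLift (f b0 y b q 0 n = true)) : CvR f b0 y n b q :=
  Cov.step (c := 0) hf.down (Nat.zero_add n) (Cov.zero _)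

theorem CvB.zero : CvB f b0 y n lo lo := CovP.zero _ _

theorem CvB.step (hp : CvR f b0 y n b q) (e : Nat.beq (b + q) hi = true)
    (h : CvB f b0 y n lo b) : CvB f b0 y n lo hi :=
  CovP.step hp (Nat.eq_of_beq_eq_true e) h

theorem CvB.nil : CvB f b0 y 0 lo hi := fun i _ _ =>
  ⟨i, 1, Nat.le_refl i, Nat.lt_succ_self i, CvR.zero⟩

theorem CvB.app {m : Nat} (h' : CvB f b0 y n m hi) (h : CvB f b0 y n lo m) : CvB f b0 y n lo hi :=
  fun i h1 h2 => (Nat.lt_or_ge i m).elim (h i h1) fun h3 => h' i h3 h2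

/-- The numbers that describe the block number `i`. -/
noncomputable def jobN (A B : Lay) (L : Nat → Nat) (i b0 y n lo hi : Nat) : Bool :=
  bnd (bnd (Nat.beq (A.b0 + i / 2) b0) (Nat.beq (i % 2) y))
    (bnd (Nat.beq (A.J b0 y) n) (bnd (Nat.ble lo (L b0)) (Nat.beq (B.b0 + B.nq) hi)))

theorem bnd_l {a b : Bool} (h : bnd a b = true) : a = true := by
  cases a
  · exact h
  · rfl

theorem bnd_r {a b : Bool} (h : bnd a b = true) : b = true := by
  cases a
  · exact absurd h Bool.false_ne_true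
  · exact h

theorem CvB.job {A B : Lay} {L : Nat → Nat} (h : CvB f b0 y n lo hi)
    (e : jobN A B L i b0 y n lo hi = true) : JobB f A B L i := by
  have e1 := Nat.eq_of_beq_eq_true (bnd_l (bnd_l e))
  have e2 := Nat.eq_of_beq_eq_true (bnd_r (bnd_l e))
  have e3 := Nat.eq_of_beq_eq_true (bnd_l (bnd_r e))
  have e4 := Nat.le_of_ble_eq_true (bnd_l (bnd_r (bnd_r e)))
  have e5 := Nat.eq_of_beq_eq_true (bnd_r (bnd_r (bnd_r e)))
  subst e3 e5
  unfold JobB
  rw [e1, e2]
  exact fun k h1 h2 => h k (Nat.le_trans e4 h1) h2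

theorem AllP.job {A B : Lay} {L : Nat → Nat} (h : AllP (JobB f A B L) n)
    (e : Nat.beq (2 * A.nq) n = true) : Job f A B L := by
  have e1 := Nat.eq_of_beq_eq_true e
  subst e1
  exact h

end Pool.Agent.Lib.KBlk
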