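import Pool.Agent.Lib.KBlk.Term

/-!
Sums of squares of the rows of a term, and more terms.
-/

namespace Pool.Agent.Lib.KBlk

open Pool.Agent.Lib.KLA

noncomputable section

/-- The sum of the squares of the entries of a vector with offset `K` and `p ≤ 16 * n` entries. -/
def sq (W n p K x : Nat) : Nat :=
  Nat.sub (Nat.add (dsum W (had W n x x)) (Nat.mul p (Nat.mul K K)))
    (Nat.mul (Nat.mul 2 K) (dsum W x))

/-- The weighted sum of squares of the rows `a, ..., a + q - 1`, added to the last argument, is at
most `B`. -/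
def sqA (W n p K b : Nat) (T : Trm) (w : Nat → Nat) (a B q : Nat) : Nat → Bool :=
  Nat.rec (motive := fun _ => Nat → Bool) (fun acc => Nat.ble acc B)
    (fun m ih acc => strict (Nat.add a m) fun j => T j 0 fun x => tight W p K b x fun y =>
      strict y fun y => strict (Nat.add acc (Nat.mul (w j) (sq W n p (Nat.shiftLeft 1 b) y))) ih) q

/-- The same for the groups `a, ..., a + q - 1` of `G` rows, with the bounds `B`. -/
def sqC (W n p K b : Nat) (T : Trm) (w : Nat → Nat) (G : Nat) (B : List Nat) (a q : Nat) : Bool :=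
  allR (fun c => sqA W n p K b T w (Nat.mul G c) (lget B c) G 0) a q

/-- Row `d + j` of `A`. -/
def tO (W p d : Nat) (S : Scl) (A : Rows) : Trm := fun j x f =>
  scl W p S (A.get (Nat.add d j)) x f

/-- Plus `c` at position `d + j`. -/
def tJ (W p d c : Nat) : Trm := fun j x f =>
  strict (Nat.add x (Nat.add (Nat.mul c (ones W p)) (Nat.shiftLeft c (Nat.mul W (Nat.add d j))))) f

/-- Row `j` of `A` times `C`. -/
def tM (W p n Kx K e : Nat) (S : Scl) (A C : Rows) : Trm := fun j x f =>
  vm W p n Kx K e C C.sum (A.get j) fun y => scl W p S y x f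

/-- Row `j` of `A` times `C` times `D`. -/
def tMM (W p n m Kx K e K' e' : Nat) (S : Scl) (A C D : Rows) : Trm := fun j x f =>
  vm W m n Kx K e C C.sum (A.get j) fun y => strict y fun y =>
    vm W p m (Nat.shiftLeft 1 e) K' e' D D.sum y fun z => scl W p S z x f

/-- Two rows, then the row `o`. -/
def two (x y o : Nat) : Rows := Rows.cons x y o o o o o o o o o o o o o o Rows.nil

/-- The transposed matrix, `16 * n` rows. -/
def trp (W n : Nat) (A : Rows) : Rows := (rgen (fun a => col W a A) n 0).force

/-- The rows of a term, for the check of positivity. -/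
def psdT (W b e KM N g : Nat) (R : Rows) (T : Nat → Trm) : Nat → Nat → Nat → Bool :=
  psdTri W b e KM N g R fun c i f => T c (Nat.sub i (Nat.mul (Nat.mul 16 g) c)) 0 f

end

end Pool.Agent.Lib.KBlk
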