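import Pool.Agent.Lib.KBlk.Chk
import Pool.Agent.Lib.KBlk.Sq

/-!
Matrices stored in panels of columns, and the checks on tiles.
-/

namespace Pool.Agent.Lib.KBlk

open Pool.Agent.Lib.KLA

noncomputable section

/-- A family: the angular indices `b0, ..., b0 + nq - 1`, the sizes of the blocks, and the number
of angular indices in a stored panel. -/
structure Lay where
  (b0 nq : Nat)
  (J : Nat → Nat → Nat)
  (q : Nat)

/-- The number of members. -/
def Lay.N (A : Lay) : Nat := tot A.J A.nq A.b0

/-- The first position with angular index `b`. -/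
def Lay.st (A : Lay) (b : Nat) : Nat := tot A.J (b - A.b0) A.b0

/-- The position of a member. -/
def Lay.pos (A : Lay) (b c m : Nat) : Nat := enc A.J A.b0 b c m

/-- The member at a position. -/
def Lay.mem (A : Lay) (j : Nat) : Nat × Nat × Nat := dec A.J A.nq A.b0 j

/-- The panel of an angular index. -/
def Lay.pb (A : Lay) (b : Nat) : Nat := (b - A.b0) / A.q

/-- The panel of a position. -/
def Lay.pan (A : Lay) (j : Nat) : Nat := A.pb (A.mem j).1

/-- The first position of a panel. -/
def Lay.ps (A : Lay) (p : Nat) : Nat := tot A.J (A.q * p) A.b0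

/-- The angular indices `b, ..., b + q - 1` lie in one panel. -/
def Lay.fit (A : Lay) (b q : Nat) : Bool :=
  bnd (bnd (Nat.ble A.b0 b) (Nat.ble (Nat.add b q) (Nat.add A.b0 A.nq)))
    (bnd (Nat.ble (Nat.add b q) (Nat.add A.b0 (Nat.mul A.q (Nat.add (A.pb b) 1)))) (Nat.ble 1 q))

/-- The columns `d, ..., d + p - 1`, which lie in the panel of `b`. -/
def ldR (V K : Nat) (A : Lay) (Z : Nat → Chk) (b d p c0 c : Nat) : Rows :=
  strict (A.pb b) fun i => strict (Nat.sub d (A.ps i)) fun d => strict p fun p =>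
    strict c0 fun c0 => strict c fun c => ld V K d p c0 c (Z i)

/-- The columns with angular indices `b, ..., b + q - 1`. -/
def ldT (V K : Nat) (A : Lay) (Z : Nat → Chk) (b q c0 c : Nat) : Rows :=
  ldR V K A Z b (A.st b) (tot A.J q b) c0 c

/-- The columns of the block `(b, y)`. -/
def ldB (V K : Nat) (A : Lay) (Z : Nat → Chk) (b y c0 c : Nat) : Rows :=
  ldR V K A Z b (A.pos b y 0) (A.J b y) c0 c

/-- Row `h + j` on the columns of a tile, for `j < J`. -/
def tRow (V K : Nat) (S : Scl) (A : Lay) (Z : Nat → Chk) (b q h J : Nat) : Trm :=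
  strict (tot A.J q b) fun p => strict (Nat.mod h 16) fun d => tO V p d S
    (ldT V K A Z b q (Nat.div h 16) (Nat.div (Nat.add (Nat.add d J) 15) 16))

/-- Column `j` of the block `(b, y)`, on the rows `h, ..., h + p - 1`. -/
def tCol (V K : Nat) (S : Scl) (A : Lay) (Z : Nat → Chk) (b y h p : Nat) : Trm :=
  strict p fun p => strict (Nat.mod h 16) fun d => tL V p d S
    (ldB V K A Z b y (Nat.div h 16) (Nat.div (Nat.add (Nat.add d p) 15) 16))

/-- Column `j` of the block `(b0, y)` of `Z` times the columns of a tile of `Z'`, on `16 * c` rows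
from row `16 * c0` on. -/
def tPro (V K K' e : Nat) (S : Scl) (A : Lay) (Z : Nat → Chk) (A' : Lay) (Z' : Nat → Chk)
    (b0 y b q c0 c : Nat) : Trm :=
  strict (tot A'.J q b) fun p => strict (Nat.mul 16 c) fun n =>
    tP V p n K K' e S (ldB V K A Z b0 y c0 c) (ldT V K' A' Z' b q c0 c)

/-- A term with offset `K` on the columns of the block `(b0, y)`, if it lies in the tile. -/
def tBlk (V K : Nat) (A : Lay) (b0 y b q : Nat) (T : Trm) : Trm :=
  strict (tot A.J q b) fun p => cnd (bnd (Nat.ble b b0) (Nat.ble (Nat.add b0 1) (Nat.add b q)))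
    (strict (Nat.sub (A.pos b0 y 0) (A.st b)) fun d => strict (A.J b0 y) fun J => tE V p d J K T)
    (tK V p K)

/-- A multiple of a term. -/
def tN (c : Nat) (T : Trm) : Trm := fun j x f => T j 0 fun y => strict (Nat.add x (Nat.mul c y)) f

/-- The check of the rows `a, ..., a + r - 1` of the block `(b0, y)` on the columns with angular
indices `b, ..., b + q - 1`: the row of the tile plus the term `T`. -/
def tchk (P : Par) (V K c e : Nat) (S : Scl) (T0 T1 : Rows) (dg : Nat → Nat)
    (M : Nat → Nat → Nat → Rows) (R D : Nat → Nat → Rows) (A : Lay)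
    (T : Nat → Nat → Nat → Nat → Trm) (b0 y b q a r : Nat) : Bool :=
  strict b0 fun b0 => strict y fun y => bnd (A.fit b q)
    (tile0 P b0 T0 T1 dg (M y) A.J D q b fun t => strict (tot A.J q b) fun p =>
      fin V p K e (tN c (tS (tW P.W V p (tC P p S (R b0 y) t)) (T b0 y b q))) a r)

/-- The same without a tile. -/
def pchk (V K c e : Nat) (A : Lay) (T : Nat → Nat → Nat → Nat → Trm) (b0 y b q a r : Nat) : Bool :=
  strict b0 fun b0 => strict y fun y => bnd (A.fit b q)
    (strict (tot A.J q b) fun p => fin V p K e (tN c (T b0 y b q)) a r)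

/-- Every `i` with `lo ≤ i < hi` lies in a range with the property `p`. -/
def CovP (p : Nat → Nat → Prop) (lo hi : Nat) : Prop :=
  ∀ i, lo ≤ i → i < hi → ∃ b q, b ≤ i ∧ i < b + q ∧ p b q

theorem CovP.zero (p : Nat → Nat → Prop) (lo : Nat) : CovP p lo lo :=
  fun _ h h' => absurd h' (Nat.not_lt.2 h)

theorem CovP.step {p : Nat → Nat → Prop} {lo b q n : Nat} (hp : p b q) (e : b + q = n)
    (h : CovP p lo b) : CovP p lo n := fun i h1 h2 =>
  (Nat.lt_or_ge i b).elim (h i h1) fun h3 => ⟨b, q, h3, e ▸ h2, hp⟩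

/-- All rows of the block `(b0, y)` on one range of columns. -/
def JobR (f : Nat → Nat → Nat → Nat → Nat → Nat → Bool) (A : Lay) (b0 y b q : Nat) : Prop :=
  Cov (fun _ a r => f b0 y b q a r) (A.J b0 y)

/-- The block number `i` on all columns from the angular index `lo b0` on. -/
def JobB (f : Nat → Nat → Nat → Nat → Nat → Nat → Bool) (A B : Lay) (lo : Nat → Nat) (i : Nat) :
    Prop :=
  CovP (JobR f A (A.b0 + i / 2) (i % 2)) (lo (A.b0 + i / 2)) (B.b0 + B.nq)

/-- All blocks of rows. -/
def Job (f : Nat → Nat → Nat → Nat → Nat → Nat → Bool) (A B : Lay) (lo : Nat → Nat) : Prop :=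
  AllP (JobB f A B lo) (2 * A.nq)

end

end Pool.Agent.Lib.KBlk
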