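import Pool.Agent.Lib.KBlk.TermS
import Pool.Agent.Lib.KBlk.Sq

/-!
The meaning of the sums of squares.
-/

namespace Pool.Agent.Lib.KBlk

open Finset Pool.Agent.Lib.KLA

variable {W n p J K b x : ℕ} {v : ℕ → ℤ} {T : Trm} {G : ℕ → ℕ → ℝ} {e : ℝ} {S : Scl}

theorem bits_hi (h : Vec W p K x v) (hK : 2 * K < 2 ^ W) {j : ℕ} (hj : p ≤ j) :
    bits x (W * j) W = 0 := by
  have e : (x : ℤ) = pk W (j + 1) fun i => if i < p then v i + K else 0 := by
    obtain ⟨d, hd⟩ : ∃ d, j + 1 = p + d := ⟨j + 1 - p, by omega⟩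
    rw [hd, pk_split, h.1, pk_congr (p := d) (w := fun _ => 0) fun i _ => if_neg (by omega),
      pk_congr (p := p) (v := fun i => if i < p then v i + K else 0) fun i hi => if_pos hi]
    simp [pk]
  have := bits_pk le_rfl e (fun i _ => by
    split_ifs with hi
    · exact h.dig hK hi
    · exact ⟨le_rfl, by positivity⟩) j (by omega)
  rw [if_neg (by omega)] at this
  exact_mod_cast this

theorem sq_eq (h : Vec W p K x v) (hp : p ≤ 16 * n) (h1 : p * (2 * K) ^ 2 + 2 * p * K + 2 * K + 1 < 2 ^ W) :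
    (sq W n p K x : ℤ) = ∑ j ∈ range p, v j ^ 2 := by
  have hK : 2 * K < 2 ^ W := by omega
  have e1 : (had W n x x : ℤ) = pk W p fun j => (v j + K) ^ 2 := by
    obtain ⟨d, hd⟩ : ∃ d, 16 * n = p + d := ⟨16 * n - p, by omega⟩
    refine (hadA_eq W n x x).trans ?_
    rw [hd, pk_split, pk_congr (p := d) (w := fun _ => 0) fun i _ => by
      rw [bits_hi h hK (by omega), Nat.cast_zero, mul_zero]]
    simp only [pk, zero_mul, sum_const_zero, add_zero]
    exact sum_congr rfl fun j hj => by rw [h.ent hK (mem_range.1 hj), _root_.sq]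
  have b1 : ∀ j < p, 0 ≤ v j + K ∧ v j + K ≤ 2 * K := fun j hj => by
    have := abs_le.1 (h.2 j hj)
    constructor <;> linarith [this.1, this.2]
  have s1 := sum_le_card_nsmul (range p) (fun j => (v j + K) ^ 2) ((2 * K : ℤ) ^ 2) fun j hj =>
    pow_le_pow_left₀ (b1 j (mem_range.1 hj)).1 (b1 j (mem_range.1 hj)).2 2
  have h1' : (p : ℤ) * (2 * K) ^ 2 + 2 * p * K + 2 * K + 1 < 2 ^ W := by exact_mod_cast h1
  simp only [card_range, nsmul_eq_mul] at s1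
  have p0 : (0 : ℤ) ≤ 2 * p * K := by positivity
  have p1 : (0 : ℤ) ≤ 2 * K := by positivity
  have e2 := dsum_eq e1 (fun j _ => sq_nonneg _) (by linarith)
  have e3 := dsum_eq h.1 (fun j hj => (b1 j hj).1) (sum_off_lt h.2 (by omega))
  refine cast_sub_of ?_ (sum_nonneg fun j _ => sq_nonneg _)
  simp only [Nat.add_eq, Nat.mul_eq]
  push_cast
  rw [e2, e3]
  simp only [add_sq, sum_add_distrib, mul_sum, sum_const, card_range, nsmul_eq_mul, mul_add]
  rw [sum_congr rfl fun j _ => show 2 * v j * K = 2 * K * v j by ring]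
  ring

theorem apx_zero (W p : ℕ) : Apx W p 0 0 (fun _ => 0) 0 :=
  ⟨fun _ => 0, ⟨by simp [pk], by simp⟩, by simp⟩

theorem sq_young {σ : ℝ} (hσ : 0 < σ) {g z e : ℝ} (h : |z - g| ≤ e) :
    g ^ 2 ≤ (1 + σ) * z ^ 2 + (1 + 1 / σ) * e ^ 2 := by
  have h1 : (g - z) ^ 2 ≤ e ^ 2 := by
    rw [← neg_sub, neg_sq]
    exact sq_le_sq' (neg_le_of_abs_le h) (le_of_abs_le h)
  have h2 : (1 + σ) * z ^ 2 + (1 + 1 / σ) * (g - z) ^ 2 - g ^ 2 = (σ * z - (g - z)) ^ 2 / σ := by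
    field_simp
    ring
  have h3 : 0 ≤ (σ * z - (g - z)) ^ 2 / σ := by positivity
  have h4 := mul_le_mul_of_nonneg_left h1 (show 0 ≤ 1 + 1 / σ by positivity)
  linarith

theorem sqA_sound (h : TOk W p J T K G e) (hp : p ≤ 16 * n) (hb : b + 1 ≤ W)
    (hK : K + 2 ^ (b + 2) ≤ 2 ^ W)
    (h1 : p * (2 * 2 ^ b) ^ 2 + 2 * p * 2 ^ b + 2 * 2 ^ b + 1 < 2 ^ W) {σ : ℝ} (hσ : 0 < σ)
    {w : ℕ → ℕ} {a B : ℕ} : ∀ q acc, a + q ≤ J → sqA W n p K b T w a B q acc = true →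
      (1 + σ) * acc + ∑ j ∈ range q, w (a + j) * ∑ m ∈ range p, G (a + j) m ^ 2 ≤
        (1 + σ) * B + (1 + 1 / σ) * (p * e ^ 2) * ∑ j ∈ range q, (w (a + j) : ℝ)
  | 0, acc, _, hf => by
    have : (acc : ℝ) ≤ B := by exact_mod_cast Nat.le_of_ble_eq_true hf
    simpa using mul_le_mul_of_nonneg_left this (show 0 ≤ 1 + σ by positivity)
  | q + 1, acc, hq, hf => by
    obtain ⟨y, y1, v, v1, v2⟩ := h (a + q) (by omega) 0 _ 0 _ 0 (apx_zero W p) hf
    rw [zero_add] at v1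
    obtain ⟨z, z1, z2, -⟩ := tight_sound y1 v1 hb hK
    have t := sqA_sound h hp hb hK h1 hσ q _ (by omega) z1
    have t1 := sq_eq z2 hp h1
    rw [← one_mul (2 ^ b), ← shl_eq] at t1
    have t2 : (sq W n p (Nat.shiftLeft 1 b) z : ℝ) = ∑ j ∈ range p, (v j : ℝ) ^ 2 := by
      exact_mod_cast t1
    have t3 := sum_le_sum fun m (hm : m ∈ range p) => sq_young hσ (v2 m (mem_range.1 hm))
    simp only [zero_add, sum_add_distrib, ← mul_sum, sum_const, card_range, nsmul_eq_mul] at t3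
    have t4 := mul_le_mul_of_nonneg_left t3 (Nat.cast_nonneg (α := ℝ) (w (a + q)))
    simp only [Nat.add_eq, Nat.mul_eq, Nat.cast_add, Nat.cast_mul, t2] at t
    rw [sum_range_succ, sum_range_succ]
    linarith

/-- The weighted sum of squares of all rows. -/
theorem sqC_sound (h : TOk W p J T K G e) (hp : p ≤ 16 * n) (hb : b + 1 ≤ W)
    (hK : K + 2 ^ (b + 2) ≤ 2 ^ W)
    (h1 : p * (2 * 2 ^ b) ^ 2 + 2 * p * 2 ^ b + 2 * 2 ^ b + 1 < 2 ^ W) {σ : ℝ} (hσ : 0 < σ)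
    {w : ℕ → ℕ} {g : ℕ} {B : List ℕ} : ∀ m, g * m ≤ J →
      Cov (fun _ a q => sqC W n p K b T w g B a q) m →
      ∑ j ∈ range (g * m), w j * ∑ k ∈ range p, G j k ^ 2 ≤ (1 + σ) * ∑ c ∈ range m, (lget B c : ℝ)
        + (1 + 1 / σ) * (p * e ^ 2) * ∑ j ∈ range (g * m), (w j : ℝ)
  | 0, _, _ => by simp
  | m + 1, hm, hc => by
    have t := sqC_sound h hp hb hK h1 hσ m (by nlinarith) fun i hi => hc i (by omega)
    obtain ⟨_, a, q, h2, h3, h4⟩ := hc m (by omega)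
    have t1 := sqA_sound h hp hb hK h1 hσ g 0 (by rw [Nat.mul_eq]; linarith) (allR_spec h4 m h2 h3)
    rw [mul_add g, mul_one, sum_range_add, sum_range_add (n := g * m), sum_range_succ]
    simp only [Nat.mul_eq, Nat.cast_zero, mul_zero, zero_add] at t1
    linarith

theorem tO_ok {m d : ℕ} {A : Rows} {a : ℕ → ℕ → ℤ} (hS : S.Ok W K) (hA : Mat W p K m A a)
    (hJ : d + J ≤ m) : TOk W p J (tO W p d S A) (S.c * S.K) (fun j k => S.val * a (d + j) k) 1 :=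
  fun j hj x f K0 g0 e0 hx hf => by
    simpa using scl_sound hS (Vec.apx (hA.2 (d + j) (by omega))) hx hf

theorem tJ_ok {d c : ℕ} (hW : 0 < W) (hd : d + J ≤ p) :
    TOk W p J (tJ W p d c) c (fun j m => if m = d + j then (c : ℝ) else 0) 0 :=
  fun j hj x f K0 g0 e0 hx hf => by
    have t : Vec W p c (Nat.add (Nat.mul c (ones W p)) (Nat.shiftLeft c (Nat.mul W (Nat.add d j))))
        fun m => if m = d + j then (c : ℤ) else 0 := by
      refine ⟨?_, fun m _ => by beta_reduce; split_ifs <;> simp⟩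
      rw [Nat.add_eq, Nat.cast_add, Nat.mul_eq, Nat.cast_mul, ← pk_const hW, shl_eq, Nat.mul_eq,
        Nat.add_eq]
      have : ((c * 2 ^ (W * (d + j)) : ℕ) : ℤ) = pk W p fun m => if m = d + j then (c : ℤ) else 0 := by
        rw [pk, sum_eq_single (d + j) (fun m _ hm => by rw [if_neg hm, zero_mul])
          (fun h => absurd (mem_range.2 (by omega)) h), if_pos rfl]
        push_cast
        rfl
      rw [this, pk_add]
      exact pk_congr fun m _ => by ring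
    refine ⟨_, hf, (hx.add (Vec.apx t)).congr fun m _ => ?_⟩
    beta_reduce
    split_ifs <;> simp

theorem tM_ok {m Kx r : ℕ} {A C : Rows} {a c : ℕ → ℕ → ℤ} (hS : S.Ok W (2 ^ b))
    (hA : Mat W m Kx r A a) (hJ : J ≤ r) (hC : Mat W p K m C c) (hb : b + 1 ≤ W)
    (h1 : 2 * m * Kx + 1 < 2 ^ W) (h2 : m * (Kx * K) + 2 ^ (b + 2) ≤ 2 ^ W) :
    TOk W p J (tM W p m Kx K b S A C) (S.c * S.K)
      (fun j i => S.val * ∑ k ∈ range m, (a j k : ℝ) * c k i) 1 :=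
  fun j hj x f K0 g0 e0 hx hf => by
    obtain ⟨y, y1, y2, -⟩ := vm_sound hf (hA.2 j (by omega)) hC rfl hb h1 h2
    simpa using scl_sound hS (Vec.apx y2) hx y1

theorem tMM_ok {m m' Kx K' b' r : ℕ} {A C D : Rows} {a c d : ℕ → ℕ → ℤ} (hS : S.Ok W (2 ^ b'))
    (hA : Mat W m Kx r A a) (hJ : J ≤ r) (hC : Mat W m' K m C c) (hD : Mat W p K' m' D d)
    (hb : b + 1 ≤ W) (h1 : 2 * m * Kx + 1 < 2 ^ W) (h2 : m * (Kx * K) + 2 ^ (b + 2) ≤ 2 ^ W)
    (hb' : b' + 1 ≤ W) (h3 : 2 * m' * 2 ^ b + 1 < 2 ^ W)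
    (h4 : m' * (2 ^ b * K') + 2 ^ (b' + 2) ≤ 2 ^ W) :
    TOk W p J (tMM W p m m' Kx K b K' b' S A C D) (S.c * S.K)
      (fun j i => S.val * ∑ k' ∈ range m', (∑ k ∈ range m, (a j k : ℝ) * c k k') * d k' i) 1 :=
  fun j hj x f K0 g0 e0 hx hf => by
    obtain ⟨y, y1, y2, -⟩ := vm_sound hf (hA.2 j (by omega)) hC rfl hb h1 h2
    rw [strict_eq, shl_eq, one_mul] at y1
    obtain ⟨z, z1, z2, -⟩ := vm_sound y1 y2 hD rfl hb' h3 h4
    simpa using scl_sound hS (Vec.apx z2) hx z1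

theorem mat_two {y : ℕ} {u : ℕ → ℤ} (hW : 0 < W) (h : Vec W p K x v) (h' : Vec W p K y u) :
    Mat W p K 16 (two x y (Nat.mul K (ones W p)))
      fun k j => if k = 0 then v j else if k = 1 then u j else 0 := by
  refine ⟨rfl, fun k hk => ?_⟩
  have z := vec_zero hW p K
  interval_cases k
  · exact h
  · exact h'
  all_goals exact z

theorem mat_trp {m q : ℕ} {A : Rows} {a : ℕ → ℕ → ℤ} (hA : Mat W q K p A a) (hq : 16 * m ≤ q)
    (hK : 2 * K < 2 ^ W) : Mat W p K (16 * m) (trp W m A) fun k j => a j k :=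
  (mat_rgen fun k hk => hA.col (by omega) hK).force

/-- The check of positivity for the rows of a term. -/
theorem psdT_sound {s KM N g : ℕ} {R : Rows} {T : ℕ → Trm} {M : ℕ → ℕ → ℝ}
    (h : Cov (psdT W b s KM N g R T) N) (hg : 0 < g) (hb : 0 < b) (hbW : b ≤ W)
    (he : s + 1 ≤ W) (h1 : (N + 16 * g) * 2 ^ b < 2 ^ W)
    (h2 : KM + (N + 16 * g) * (2 ^ (b - 1) * 2 ^ (b - 1)) + 2 ^ (s + 2) ≤ 2 ^ W)
    (hs : ∀ i < N, ∀ j < N, M i j = M j i)
    (hT : ∀ c, 16 * g * c < N → TOk W (N - 16 * g * c) (N - 16 * g * c) (T c) KM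
      (fun i j => M (16 * g * c + i) (16 * g * c + j)) e) (z : ℕ → ℝ) :
    -(N * (2 ^ s + e)) * ∑ i ∈ range N, z i ^ 2 ≤
      ∑ i ∈ range N, ∑ j ∈ range N, M i j * (z i * z j) := by
  refine psd_tri h hg hb hbW he h1 h2 hs (fun c i f h0 _ hi hf => ?_) z
  obtain ⟨y, y1, v, v1, v2⟩ := hT c (by omega) (i - 16 * g * c) (by omega) 0 f 0 _ 0
    (apx_zero _ _) hf
  rw [zero_add] at v1
  refine ⟨y, v, y1, v1.1, v1.2, fun j hj hij => ?_⟩
  have := v2 (j - 16 * g * c) (by omega)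
  beta_reduce at this
  rw [zero_add, zero_add, Nat.add_sub_cancel' h0, Nat.add_sub_cancel' (h0.trans hij)] at this
  rwa [abs_sub_comm]

end Pool.Agent.Lib.KBlk
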