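import Pool.Agent.Lib.KBlk.ChkS
import Pool.Agent.Lib.KBlk.SqS
import Pool.Agent.Lib.KBlk.Lay

/-!
The meaning of matrices stored in panels.
-/

namespace Pool.Agent.Lib.KBlk

open Finset Pool.Agent.Lib.KLA

noncomputable section

/-- Entry `(k, j)` of a matrix stored in panels. -/
def pent (V : ℕ) (A : Lay) (Z : ℕ → Chk) (k j : ℕ) : ℤ :=
  (Z (A.pan j)).ent V k (j - A.ps (A.pan j))

/-- A block of the family. -/
def Lay.Has (A : Lay) (b y : ℕ) : Prop := A.b0 ≤ b ∧ b < A.b0 + A.nq ∧ y < 2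

variable {V K K' J b q y b0 h p c0 c e n n' : ℕ} {A A' : Lay} {Z Z' : ℕ → Chk} {S : Scl}

theorem Lay.fit_iff : A.fit b q = true ↔
    A.b0 ≤ b ∧ b + q ≤ A.b0 + A.nq ∧ b + q ≤ A.b0 + A.q * (A.pb b + 1) ∧ 1 ≤ q := by
  simp only [Lay.fit, bnd_iff, Nat.ble_eq, Nat.add_eq, Nat.mul_eq, and_assoc]

theorem Lay.fit_has (hf : A.fit b q = true) : A.b0 ≤ b ∧ b < A.b0 + A.nq := by
  have := Lay.fit_iff.1 hf
  omega

theorem Lay.mem_pos {m : ℕ} (hb : A.Has b y) (hm : m < A.J b y) :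
    A.pos b y m < A.N ∧ A.mem (A.pos b y m) = (b, y, m) := dec_enc A.J hb.1 hb.2.1 hb.2.2 hm

theorem Lay.pos_add (A : Lay) (b y m : ℕ) : A.pos b y 0 + m = A.pos b y m := by
  simp only [Lay.pos, enc, add_zero, add_assoc]

theorem Lay.mem_spec {j : ℕ} (hj : j < A.N) : A.Has (A.mem j).1 (A.mem j).2.1 ∧
    (A.mem j).2.2 < A.J (A.mem j).1 (A.mem j).2.1 ∧
    A.pos (A.mem j).1 (A.mem j).2.1 (A.mem j).2.2 = j :=
  let ⟨h1, h2, h3, h4⟩ := dec_spec A.J A.nq A.b0 j hj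
  ⟨⟨h1, h2, h3⟩, h4, enc_dec A.J A.nq A.b0 j hj⟩

theorem Lay.st_add (hb : A.b0 ≤ b) (q : ℕ) : A.st (b + q) = A.st b + tot A.J q b := by
  rw [Lay.st, Lay.st, show b + q - A.b0 = b - A.b0 + q by omega, tot_add,
    Nat.add_sub_cancel' hb]

theorem Lay.mem_st (h1 : A.b0 ≤ b) (h2 : b + q ≤ A.b0 + A.nq) (hn : n < tot A.J q b) :
    A.st b + n < A.N ∧ A.mem (A.st b + n) = dec A.J q b n := by
  obtain ⟨z, hz⟩ : ∃ z, A.nq = b - A.b0 + (q + z) := ⟨A.nq - (b - A.b0) - q, by omega⟩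
  rw [Lay.N, Lay.mem, Lay.st, hz, dec_right, tot_add, tot_add, Nat.add_sub_cancel' h1,
    dec_left _ _ _ _ _ hn]
  exact ⟨by omega, rfl⟩

/-- A position whose angular index lies in a range of columns. -/
theorem Lay.st_of {j : ℕ} (hj : j < A.N) (h0 : A.b0 ≤ b) (h1 : b ≤ (A.mem j).1)
    (h2 : (A.mem j).1 < b + q) : ∃ n < tot A.J q b, j = A.st b + n := by
  obtain ⟨a1, a2, a3⟩ := Lay.mem_spec hj
  refine ⟨enc A.J b (A.mem j).1 (A.mem j).2.1 (A.mem j).2.2,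
    (dec_enc A.J h1 h2 a1.2.2 a2).1, ?_⟩
  conv_lhs => rw [← a3]
  rw [Lay.pos, enc, enc, Lay.st, ← add_assoc (tot A.J (b - A.b0) A.b0),
    show (A.mem j).1 - A.b0 = b - A.b0 + ((A.mem j).1 - b) by omega, tot_add,
    Nat.add_sub_cancel' h0]

theorem Lay.pb_eq {b' : ℕ} (hf : A.fit b q = true) (h1 : b ≤ b') (h2 : b' < b + q) :
    A.pb b' = A.pb b := by
  obtain ⟨a1, -, a3⟩ := Lay.fit_iff.1 hf
  refine le_antisymm (Nat.le_of_lt_succ (Nat.div_lt_of_lt_mul ?_)) ?_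
  · rw [Nat.succ_eq_add_one]
    omega
  exact Nat.div_le_div_right (by omega)

theorem Lay.ps_le (A : Lay) (b : ℕ) : A.ps (A.pb b) ≤ A.st b := by
  obtain ⟨z, hz⟩ := Nat.exists_eq_add_of_le (Nat.mul_div_le (b - A.b0) A.q)
  rw [Lay.st, hz, tot_add]
  exact Nat.le_add_right _ _

theorem Lay.st_le (A : Lay) (b y m : ℕ) : A.st b ≤ A.pos b y m := Nat.le_add_right _ _

theorem mat_ldR {d : ℕ} (hZ : (Z (A.pb b)).ok V K n = true) (hc : 16 * (c0 + c) ≤ n)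
    (hd : A.ps (A.pb b) ≤ d) (hp : ∀ m < p, A.pan (d + m) = A.pb b) :
    Mat V p K (16 * c) (ldR V K A Z b d p c0 c) fun k j => pent V A Z (16 * c0 + k) (d + j) :=
  (mat_ld hZ _ p hc).congr fun k _ j hj => by
    rw [pent, hp j hj, Nat.sub_add_comm hd]
    rfl

theorem mat_ldT (hZ : (Z (A.pb b)).ok V K n = true) (hc : 16 * (c0 + c) ≤ n)
    (hf : A.fit b q = true) : Mat V (tot A.J q b) K (16 * c) (ldT V K A Z b q c0 c)
      fun k j => pent V A Z (16 * c0 + k) (A.st b + j) :=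
  mat_ldR hZ hc (A.ps_le b) fun m hm => by
    obtain ⟨a1, a2, -⟩ := Lay.fit_iff.1 hf
    obtain ⟨a3, a4, -⟩ := dec_spec A.J q b m hm
    rw [Lay.pan, (Lay.mem_st a1 a2 hm).2, Lay.pb_eq hf a3 a4]

theorem mat_ldB (hZ : (Z (A.pb b)).ok V K n = true) (hc : 16 * (c0 + c) ≤ n) (hb : A.Has b y) :
    Mat V (A.J b y) K (16 * c) (ldB V K A Z b y c0 c)
      fun k j => pent V A Z (16 * c0 + k) (A.pos b y j) :=
  (mat_ldR hZ hc ((A.ps_le b).trans (A.st_le b y 0)) fun m hm => by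
    rw [Lay.pos_add, Lay.pan, (Lay.mem_pos hb hm).2]).congr fun _ _ _ _ => by rw [Lay.pos_add]

theorem tRow_ok (hS : S.Ok V K) (hZ : (Z (A.pb b)).ok V K (16 * n) = true) (hn : h + J ≤ 16 * n)
    (hf : A.fit b q = true) : TOk V (tot A.J q b) J (tRow V K S A Z b q h J) (S.c * S.K)
      (fun j m => S.val * pent V A Z (h + j) (A.st b + m)) 1 :=
  (tO_ok (d := h % 16) hS (mat_ldT (c0 := h / 16) (c := (h % 16 + J + 15) / 16) hZ (by omega) hf)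
    (by omega)).congr (fun j _ m _ => by rw [← add_assoc, Nat.div_add_mod]) le_rfl

theorem tCol_ok (hS : S.Ok V K) (hK : 2 * K < 2 ^ V) (hZ : (Z (A.pb b)).ok V K (16 * n) = true)
    (hn : h + p ≤ 16 * n) (hb : A.Has b y) : TOk V p (A.J b y) (tCol V K S A Z b y h p) (S.c * S.K)
      (fun j m => S.val * pent V A Z (h + m) (A.pos b y j)) 1 :=
  (tL_ok (d := h % 16) hS (mat_ldB (c0 := h / 16) (c := (h % 16 + p + 15) / 16) hZ (by omega) hb)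
    le_rfl hK (by omega)).congr (fun j _ m _ => by rw [← add_assoc, Nat.div_add_mod]) le_rfl

theorem tPro_ok (hS : S.Ok V (2 ^ e)) (hZ : (Z (A.pb b0)).ok V K n = true)
    (hZ' : (Z' (A'.pb b)).ok V K' n' = true) (hn : 16 * (c0 + c) ≤ n) (hn' : 16 * (c0 + c) ≤ n')
    (hb : A.Has b0 y) (hf : A'.fit b q = true) (he : e + 1 ≤ V) (h1 : 2 * (16 * c) * K + 1 < 2 ^ V)
    (h2 : 16 * c * (K * K') + 2 ^ (e + 2) ≤ 2 ^ V) :
    TOk V (tot A'.J q b) (A.J b0 y) (tPro V K K' e S A Z A' Z' b0 y b q c0 c) (S.c * S.K)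
      (fun j m => S.val * ∑ k ∈ range (16 * c), (pent V A Z (16 * c0 + k) (A.pos b0 y j) : ℝ)
        * pent V A' Z' (16 * c0 + k) (A'.st b + m)) 1 :=
  tP_ok hS (mat_ldB hZ hn hb) le_rfl (mat_ldT hZ' hn' hf) he h1 h2

variable {T : Trm} {G : ℕ → ℕ → ℝ} {ε : ℝ}

theorem tBlk_ok (hT : TOk V (A.J b0 y) J T K G ε) (hV : 0 < V) (hε : 0 ≤ ε) (hb : A.Has b0 y)
    (hf : A.fit b q = true) : TOk V (tot A.J q b) J (tBlk V K A b0 y b q T) K
      (fun j m => if (A.mem (A.st b + m)).1 = b0 ∧ (A.mem (A.st b + m)).2.1 = y then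
        G j (A.mem (A.st b + m)).2.2 else 0) ε := by
  obtain ⟨a1, a2, -⟩ := Lay.fit_iff.1 hf
  refine TOk.cnd _ (fun hc => ?_) fun hc => ?_
  · simp only [bnd_iff, Nat.ble_eq, Nat.add_eq] at hc
    have e1 : ∀ m, A.pos b0 y m = A.st b + enc A.J b b0 y m := fun m => by
      rw [Lay.pos, enc, enc, Lay.st, ← add_assoc (tot A.J (b - A.b0) A.b0),
        show b0 - A.b0 = b - A.b0 + (b0 - b) by omega, tot_add, Nat.add_sub_cancel' a1]
    have e2 : enc A.J b b0 y 0 + A.J b0 y ≤ tot A.J q b := by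
      obtain ⟨z, hz⟩ : ∃ z, q = b0 - b + (z + 1) := ⟨q - (b0 - b) - 1, by omega⟩
      rw [hz, tot_add, Nat.add_sub_cancel' hc.1, tot, enc]
      have := hb.2.2
      interval_cases y <;> simp <;> omega
    have e3 : A.pos b0 y 0 - A.st b = enc A.J b b0 y 0 := by rw [e1, Nat.add_sub_cancel_left]
    refine (tE_ok (d := A.pos b0 y 0 - A.st b) hT hV hε (by omega)).congr (fun j _ m hm => ?_) le_rfl
    have t := Lay.mem_spec (Lay.mem_st a1 a2 hm).1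
    by_cases h1 : A.pos b0 y 0 - A.st b ≤ m ∧ m < A.pos b0 y 0 - A.st b + A.J b0 y
    · have e4 : A.st b + m = A.pos b0 y (m - (A.pos b0 y 0 - A.st b)) := by
        rw [← Lay.pos_add]
        have := A.st_le b0 y 0
        have := e1 0
        omega
      rw [if_pos h1, e4, (Lay.mem_pos hb (by omega)).2, if_pos ⟨rfl, rfl⟩]
    · rw [if_neg h1, if_neg]
      rintro ⟨h2, h3⟩
      rw [h2, h3, ← Lay.pos_add] at t
      have := e1 0
      omega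
  · refine (tK_ok hV).congr (fun j _ m hm => ?_) hε
    rw [(Lay.mem_st a1 a2 hm).2, if_neg]
    rintro ⟨h2, -⟩
    obtain ⟨a3, a4, -⟩ := dec_spec A.J q b m hm
    have : bnd (Nat.ble b b0) (Nat.ble (Nat.add b0 1) (Nat.add b q)) = true := by
      simp only [bnd_iff, Nat.ble_eq, Nat.add_eq]
      omega
    rw [hc] at this
    exact Bool.false_ne_true this

theorem tN_ok (hT : TOk V p J T K G ε) (c : ℕ) :
    TOk V p J (tN c T) (c * K) (fun j m => c * G j m) (c * ε) :=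
  fun j hj x f K0 g0 e0 hx hf => by
    obtain ⟨z, z1, v, v1, v2⟩ := hT j hj 0 _ 0 _ 0 (apx_nil V p) hf
    simp only [zero_add] at v1 v2
    refine ⟨_, z1, hx.add ⟨_, v1.smul c, fun m hm => ?_⟩⟩
    push_cast
    rw [← mul_sub, abs_mul, Nat.abs_cast]
    exact mul_le_mul_of_nonneg_left (v2 m hm) (Nat.cast_nonneg c)

/-- The final check of a multiple. -/
theorem finN_sound {K0 a r j : ℕ} (hT : TOk V p J T K G ε) (hK : K0 = c * K) (hc : 0 < c)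
    (hf : fin V p K0 e (tN c T) a r = true) (he : e + 1 ≤ V) (h0 : K0 + 2 ^ (e + 2) ≤ 2 ^ V)
    (h1 : a ≤ j) (h2 : j < a + r) (hj : j < J) : ∀ m < p, |G j m| ≤ 2 ^ e / c + ε := fun m hm => by
  subst hK
  have t := fin_sound (tN_ok hT c) hf he h0 h1 h2 hj m hm
  have hc' : (0 : ℝ) < c := by exact_mod_cast hc
  rw [abs_mul, Nat.abs_cast] at t
  rw [div_add' _ _ _ hc'.ne', le_div_iff₀ hc']
  linarith

/-- From the jobs to all pairs of positions. -/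
theorem Job.all {f : ℕ → ℕ → ℕ → ℕ → ℕ → ℕ → Bool} {B : Lay} {lo : ℕ → ℕ} (h : Job f A B lo)
    {E : ℕ → ℕ → Prop} (hf : ∀ b0 y b q a r, A.Has b0 y → lo b0 < b + q →
      f b0 y b q a r = true → B.b0 ≤ b ∧
      ∀ j < A.J b0 y, a ≤ j → j < a + r → ∀ m < tot B.J q b, E (A.pos b0 y j) (B.st b + m))
    {j k : ℕ} (hj : j < A.N) (hk : k < B.N) (hl : lo (A.mem j).1 ≤ (B.mem k).1) : E j k := by
  obtain ⟨a1, a2, a3⟩ := Lay.mem_spec hj
  have t := h (2 * ((A.mem j).1 - A.b0) + (A.mem j).2.1) (by obtain ⟨_, _, _⟩ := a1; omega)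
  rw [JobB, show A.b0 + (2 * ((A.mem j).1 - A.b0) + (A.mem j).2.1) / 2 = (A.mem j).1 by
    obtain ⟨_, _, _⟩ := a1; omega, show (2 * ((A.mem j).1 - A.b0) + (A.mem j).2.1) % 2 =
    (A.mem j).2.1 by obtain ⟨_, _, _⟩ := a1; omega] at t
  obtain ⟨b, q, b1, b2, t⟩ := t _ hl (Lay.mem_spec hk).1.2.1
  obtain ⟨_, a, r, c1, c2, t⟩ := t _ a2
  obtain ⟨d1, d2⟩ := hf _ _ _ _ _ _ a1 (hl.trans_lt b2) t
  obtain ⟨m, m1, m2⟩ := Lay.st_of hk d1 b1 b2
  rw [← a3, m2]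
  exact d2 _ a2 c1 c2 m m1

/-- A pass without tiles. -/
theorem pchk_all {B : Lay} {lo : ℕ → ℕ} {T : ℕ → ℕ → ℕ → ℕ → Trm} {K0 : ℕ}
    (h : Job (pchk V K0 c e B T) A B lo) (hK : K0 = c * K) (hc : 0 < c) (he : e + 1 ≤ V)
    (h0 : K0 + 2 ^ (e + 2) ≤ 2 ^ V) (hT : ∀ b0 y b q, A.Has b0 y → B.fit b q = true →
      lo b0 < b + q → TOk V (tot B.J q b) (A.J b0 y) (T b0 y b q) K (fun j m => G (A.pos b0 y j) (B.st b + m)) ε)
    {j k : ℕ} (hj : j < A.N) (hk : k < B.N) (hl : lo (A.mem j).1 ≤ (B.mem k).1) :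
    |G j k| ≤ 2 ^ e / c + ε :=
  h.all (E := fun j k => |G j k| ≤ 2 ^ e / c + ε) (fun b0 y b q _ _ hb hl hf =>
    let ⟨f1, f2⟩ := (bnd_iff _ _).1 hf
    ⟨(Lay.fit_iff.1 f1).1, fun _ hj h1 h2 => finN_sound (hT b0 y b q hb f1 hl) hK hc f2 he h0 h1 h2 hj⟩)
    hj hk hl

end

end Pool.Agent.Lib.KBlk
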