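import Pool.Agent.Lib.KBlk.Lay

/-!
Weighted sums of quadratic forms and of squares over the members of a family.
-/

namespace Pool.Agent.Lib.KBlk

open Pool.Agent.Lib.KLA

noncomputable section

/-- The scalar product of vectors with offsets `K` and `L`, plus `p * K * L`. -/
def dto (W n p K L x y : Nat) : Nat :=
  Nat.sub (Nat.add (dsum W (had W n x y)) (Nat.mul 2 (Nat.mul p (Nat.mul K L))))
    (Nat.add (Nat.mul L (dsum W x)) (Nat.mul K (dsum W y)))

/-- Digit one for the members that are not among the last `I b y` of their block. -/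
def keep (W : Nat) (J I : Nat → Nat → Nat) : Nat → Nat → Nat
  | 0, _ => 0
  | q + 1, b => cat W (J b 0) (ones W (Nat.sub (J b 0) (I b 0)))
      (cat W (J b 1) (ones W (Nat.sub (J b 1) (I b 1))) (keep W J I q (b + 1)))

/-- The sum of the squares of the entries of row `j` where `k` has the digit one. -/
def lsq (W p K b k : Nat) (T : Trm) (j : Nat) (f : Nat → Bool) : Bool :=
  T j 0 fun x => tight W p K b x fun y =>
    strict (Nat.add (Nat.land y (Nat.mul (low W) k))
      (Nat.mul (Nat.shiftLeft 1 b) (Nat.sub (ones W p) k))) fun z =>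
    strict (sq W (Nat.add (Nat.div p 16) 1) p (Nat.shiftLeft 1 b) z) f

/-- Add the values times the weights. -/
def wsum (v : Nat → (Nat → Bool) → Bool) (w : Nat → Nat) (J : Nat) : Nat → (Nat → Bool) → Bool :=
  Nat.rec (motive := fun _ => Nat → (Nat → Bool) → Bool) (fun acc f => f acc)
    (fun m ih acc f => strict m fun m => v m fun x =>
      strict (Nat.add acc (Nat.mul (w m) x)) fun acc => ih acc f) J

/-- The same for the blocks `a, ..., a + q - 1` of a family. -/
def wfam (A : Lay) (v : Nat → Nat → Nat → (Nat → Bool) → Bool) (w : Nat → Nat → Nat → Nat)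
    (a q : Nat) : Nat → (Nat → Bool) → Bool :=
  Nat.rec (motive := fun _ => Nat → (Nat → Bool) → Bool) (fun acc f => f acc)
    (fun i ih acc f => strict (Nat.add A.b0 (Nat.div (Nat.add a i) 2)) fun b =>
      strict (Nat.mod (Nat.add a i) 2) fun y =>
        wsum (v b y) (w b y) (A.J b y) acc fun acc => ih acc f) q

/-- `g * i`, but at most `n`. -/
def stp (g n i : Nat) : Nat := Nat.sub (Nat.mul g i) (Nat.sub (Nat.mul g i) n)

/-- Go on with the tile number `i`, for tiles of `g` angular indices. -/
def atT (A : Lay) (g i : Nat) (f : Nat → Nat → Nat → Bool) : Bool :=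
  strict (Nat.add A.b0 (stp g A.nq i)) fun b =>
    strict (Nat.sub (stp g A.nq (Nat.add i 1)) (stp g A.nq i)) fun q =>
      strict (tot A.J q b) fun p => bnd (A.fit b q) (f b q p)

/-- Add the scalar products of row `j` of the terms with the parts of `x`, on `n` panels. -/
def qrow (W K L b : Nat) (A : Lay) (T : Nat → Nat → Trm) (j x n : Nat) :
    Nat → (Nat → Bool) → Bool :=
  Nat.rec (motive := fun _ => Nat → (Nat → Bool) → Bool) (fun acc f => f acc)
    (fun i ih acc f => strict i fun i => atT A A.q i fun c q p => T c q j 0 fun y =>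
      tight W p L b y fun y => strict y fun y => strict (rnd W 0 (A.st c) p x) fun z =>
        strict (Nat.add acc (dto W (Nat.add (Nat.div p 16) 1) p K (Nat.shiftLeft 1 b) z y))
          fun acc => ih acc f) n

/-- The scalar product of row `j` of the terms with `x`, or zero if it is negative. -/
def qval (W K L b : Nat) (A : Lay) (T : Nat → Nat → Trm) (n j x : Nat) (f : Nat → Bool) : Bool :=
  strict x fun x => qrow W K L b A T j x n 0 fun acc =>
    strict (Nat.sub acc (Nat.mul A.N (Nat.mul K (Nat.shiftLeft 1 b)))) f

/-- `l 0 + ... + l (n - 1)`. -/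
def lsum (l : List Nat) (n : Nat) : Nat :=
  Nat.rec (motive := fun _ => Nat) 0 (fun k ih => Nat.add ih (lget l k)) n

end

end Pool.Agent.Lib.KBlk
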