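import Pool.Agent.Lib.KBlk.Qf
import Pool.Agent.Lib.KBlk.LayS
import Pool.Agent.Lib.KRad.FroS

/-!
The meaning of the weighted sums.
-/

namespace Pool.Agent.Lib.KBlk

open Finset Pool.Agent.Lib.KLA

variable {W p n K L x y b J : ℕ} {v u : ℕ → ℤ} {T : Trm} {G : ℕ → ℕ → ℝ} {e : ℝ} {A : Lay}

theorem dto_eq (h : Vec W p K x v) (h' : Vec W p L y u) (hp : p ≤ 16 * n)
    (h1 : p * (2 * K * (2 * L)) + 1 < 2 ^ W) (h2 : 2 * p * K + 2 * K + 1 < 2 ^ W)
    (h3 : 2 * p * L + 2 * L + 1 < 2 ^ W) :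
    (dto W n p K L x y : ℤ) = ∑ j ∈ range p, v j * u j + p * (K * L) := by
  have e1 : (had W n x y : ℤ) = pk W p fun j => (v j + K) * (u j + L) := by
    obtain ⟨d, hd⟩ : ∃ d, 16 * n = p + d := ⟨16 * n - p, by omega⟩
    refine (hadA_eq W n x y).trans ?_
    rw [hd, pk_split, pk_congr (p := d) (w := fun _ => 0) fun i _ => by
      rw [bits_hi h' (by omega) (by omega), Nat.cast_zero, mul_zero]]
    simp only [pk, zero_mul, sum_const_zero, add_zero]
    exact sum_congr rfl fun j hj => by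
      rw [h.ent (by omega) (mem_range.1 hj), h'.ent (by omega) (mem_range.1 hj)]
  have b1 : ∀ j < p, 0 ≤ v j + K ∧ v j + K ≤ 2 * K := fun j hj => by
    have := abs_le.1 (h.2 j hj)
    constructor <;> linarith [this.1, this.2]
  have b2 : ∀ j < p, 0 ≤ u j + L ∧ u j + L ≤ 2 * L := fun j hj => by
    have := abs_le.1 (h'.2 j hj)
    constructor <;> linarith [this.1, this.2]
  have s1 := sum_le_card_nsmul (range p) (fun j => (v j + K) * (u j + L)) (2 * K * (2 * L))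
    fun j hj => mul_le_mul (b1 j (mem_range.1 hj)).2 (b2 j (mem_range.1 hj)).2
      (b2 j (mem_range.1 hj)).1 (by positivity)
  have s2 := card_nsmul_le_sum (range p) (fun j => v j * u j) (-(K * L)) fun j hj =>
    neg_le_of_abs_le (by
      rw [abs_mul]
      exact mul_le_mul (h.2 j (mem_range.1 hj)) (h'.2 j (mem_range.1 hj)) (abs_nonneg _)
        (by positivity))
  have h1' : (p : ℤ) * (2 * K * (2 * L)) + 1 < 2 ^ W := by exact_mod_cast h1
  simp only [card_range, nsmul_eq_mul] at s1 s2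
  have e2 := dsum_eq e1 (fun j hj => mul_nonneg (b1 j hj).1 (b2 j hj).1) (by linarith)
  have e3 := dsum_eq h.1 (fun j hj => (b1 j hj).1) (sum_off_lt h.2 (by omega))
  have e4 := dsum_eq h'.1 (fun j hj => (b2 j hj).1) (sum_off_lt h'.2 (by omega))
  refine cast_sub_of ?_ (by linarith)
  simp only [Nat.add_eq, Nat.mul_eq]
  push_cast
  rw [e2, e3, e4]
  simp only [add_mul, mul_add, sum_add_distrib, ← sum_mul, ← mul_sum, sum_const, card_range,
    nsmul_eq_mul]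
  ring

/-- The member is not among the last `I` of its block. -/
def Kept (J I : ℕ → ℕ → ℕ) (d : ℕ × ℕ × ℕ) : Prop := d.2.2 + I d.1 d.2.1 < J d.1 d.2.1

instance (J I : ℕ → ℕ → ℕ) : DecidablePred (Kept J I) := fun _ => Nat.decLt _ _

theorem vec_ones (hW : 0 < W) (n s : ℕ) :
    Vec W n 1 (ones W (Nat.sub n s)) fun j => if j + s < n then 0 else -1 := by
  refine ⟨?_, fun j _ => by beta_reduce; split_ifs <;> simp⟩
  rw [ones_eq hW, Nat.sub_eq]
  unfold pk
  rw [← sum_subset (range_subset_range.2 (Nat.sub_le n s)) fun j _ hj => by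
    beta_reduce
    rw [if_neg (by have := mem_range.not.1 hj; omega)]
    simp]
  exact sum_congr rfl fun j hj => by
    beta_reduce
    rw [if_pos (by have := mem_range.1 hj; omega)]
    simp

theorem vec_keep (hW : 0 < W) (J I : ℕ → ℕ → ℕ) : ∀ q b, Vec W (tot J q b) 1 (keep W J I q b)
    fun m => if Kept J I (dec J q b m) then 0 else -1
  | 0, _ => ⟨rfl, fun _ h => absurd h (Nat.not_lt_zero _)⟩
  | q + 1, b => (vec_cat (vec_ones hW _ _) (vec_cat (vec_ones hW _ _)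
      (vec_keep hW J I q (b + 1)))).congr fun m _ => by
    rw [dec]
    by_cases h1 : m < J b 0
    · simp only [if_pos h1, Kept]
    · by_cases h2 : m - J b 0 < J b 1
      · simp only [if_neg h1, if_pos h2, Kept]
      · simp only [if_neg h1, if_neg h2]

theorem vec_mask {k : ℕ} {P : ℕ → Prop} [DecidablePred P] (h : Vec W p K x v) (hK : 2 * K < 2 ^ W)
    (hW : 0 < W) (hk : Vec W p 1 k fun m => if P m then 0 else -1) :
    Vec W p K (Nat.add (Nat.land x (Nat.mul (low W) k)) (Nat.mul K (Nat.sub (ones W p) k)))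
      fun m => if P m then v m else 0 := by
  refine ⟨?_, fun j hj => by
    beta_reduce
    split_ifs
    exacts [h.2 j hj, by simp]⟩
  have e1 := KRad.land_pk (W := W) (p := p) (x := x) (y := Nat.mul (low W) k)
    (a := fun j => (v j + K).toNat) (b := fun j => if P j then 2 ^ W - 1 else 0)
    (h.1.trans (pk_congr fun j hj => (Int.toNat_of_nonneg (h.dig hK hj).1).symm))
    (by
      rw [Nat.mul_eq, Nat.cast_mul, hk.1, pk_mul, low_eq]
      exact pk_congr fun j _ => by by_cases hj : P j <;> simp [hj])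
    (fun j hj => (Int.toNat_lt (h.dig hK hj).1).2 (by exact_mod_cast (h.dig hK hj).2))
    fun j _ => by
      split_ifs
      exacts [Nat.sub_one_lt (by positivity), by positivity]
  have e2 : (Nat.sub (ones W p) k : ℤ) = pk W p fun j => if P j then 0 else 1 :=
    cast_sub_of (by
      rw [ones_eq hW, hk.1, pk_sub]
      exact pk_congr fun j _ => by by_cases hj : P j <;> simp [hj])
      (pk_nonneg fun j _ => by split_ifs <;> simp)
  rw [Nat.add_eq, Nat.cast_add, e1, @Nat.mul_eq K, Nat.cast_mul, e2, pk_mul, pk_add]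
  refine pk_congr fun j hj => ?_
  beta_reduce
  split_ifs
  · rw [Nat.and_two_pow_sub_one_eq_mod, Nat.mod_eq_of_lt ((Int.toNat_lt (h.dig hK hj).1).2
      (by exact_mod_cast (h.dig hK hj).2)), Int.toNat_of_nonneg (h.dig hK hj).1]
    simp
  · simp

theorem lsq_sound {k j : ℕ} {P : ℕ → Prop} [DecidablePred P] {f : ℕ → Bool}
    (h : TOk W p J T K G e) (hj : j < J) (hb : b + 1 ≤ W) (hK : K + 2 ^ (b + 2) ≤ 2 ^ W)
    (h1 : p * (2 * 2 ^ b) ^ 2 + 2 * p * 2 ^ b + 2 * 2 ^ b + 1 < 2 ^ W)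
    (hk : Vec W p 1 k fun m => if P m then 0 else -1) {σ : ℝ} (hσ : 0 < σ)
    (hf : lsq W p K b k T j f = true) : ∃ z, f z = true ∧ (z : ℝ) ≤
      (1 + σ) * ∑ m ∈ range p, (if P m then G j m ^ 2 else 0) + (1 + 1 / σ) * (p * e ^ 2) := by
  obtain ⟨y, y1, v, v1, v2⟩ := h j hj 0 _ 0 _ 0 (apx_zero W p) hf
  rw [zero_add] at v1
  obtain ⟨z, z1, z2, -⟩ := tight_sound y1 v1 hb hK
  rw [strict_eq, strict_eq, shl_eq, one_mul] at z1
  refine ⟨_, z1, ?_⟩
  have t := sq_eq (n := p / 16 + 1) (vec_mask z2 (by omega) (by omega) hk) (by omega) h1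
  have t2 := congrArg (Int.cast (R := ℝ)) t
  push_cast at t2
  refine le_of_eq_of_le t2 ?_
  rw [mul_sum, mul_left_comm, ← nsmul_eq_mul, ← card_range p, ← sum_const, card_range,
    ← sum_add_distrib]
  refine sum_le_sum fun m hm => ?_
  split_ifs
  · refine sq_young hσ ?_
    simpa [abs_sub_comm] using v2 m (mem_range.1 hm)
  · simp only [ne_eq, OfNat.ofNat_ne_zero, not_false_eq_true, zero_pow, mul_zero, zero_add]
    positivity

theorem wsum_sound {v : ℕ → (ℕ → Bool) → Bool} {w : ℕ → ℕ} {g : ℕ → ℝ} {s : ℝ} {f : ℕ → Bool} :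
    ∀ J acc, (∀ m < J, ∀ f, v m f = true → ∃ x, f x = true ∧ s * g m ≤ s * x) →
      wsum v w J acc f = true → ∃ x, f x = true ∧ s * (acc + ∑ m ∈ range J, w m * g m) ≤ s * x
  | 0, acc, _, hf => ⟨acc, hf, by simp⟩
  | J + 1, acc, h, hf => by
    obtain ⟨x, x1, x2⟩ := h J (by omega) _ hf
    obtain ⟨y, y1, y2⟩ := wsum_sound J _ (fun m hm => h m (by omega)) x1
    refine ⟨y, y1, le_trans ?_ y2⟩
    rw [sum_range_succ, Nat.add_eq, Nat.mul_eq]
    push_cast
    nlinarith [mul_le_mul_of_nonneg_left x2 (Nat.cast_nonneg (w J))]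

/-- The sum over the block number `i`. -/
def bsum (A : Lay) (g : ℕ × ℕ × ℕ → ℝ) (i : ℕ) : ℝ :=
  ∑ m ∈ range (A.J (A.b0 + i / 2) (i % 2)), g (A.b0 + i / 2, i % 2, m)

theorem wfam_sound {v : ℕ → ℕ → ℕ → (ℕ → Bool) → Bool} {w : ℕ → ℕ → ℕ → ℕ} {g : ℕ × ℕ × ℕ → ℝ}
    {s : ℝ} {f : ℕ → Bool} {a : ℕ} (h : ∀ b y, A.Has b y → ∀ m < A.J b y, ∀ f, v b y m f = true →
      ∃ x, f x = true ∧ s * g (b, y, m) ≤ s * x) : ∀ q acc, a + q ≤ 2 * A.nq →
      wfam A v w a q acc f = true → ∃ x, f x = true ∧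
        s * (acc + ∑ i ∈ range q, bsum A (fun d => w d.1 d.2.1 d.2.2 * g d) (a + i)) ≤ s * x
  | 0, acc, _, hf => ⟨acc, hf, by simp⟩
  | q + 1, acc, hq, hf => by
    obtain ⟨x, x1, x2⟩ := wsum_sound (g := fun m => g (A.b0 + (a + q) / 2, (a + q) % 2, m))
      (w := w (A.b0 + (a + q) / 2) ((a + q) % 2)) _ _ (h _ _ ⟨Nat.le_add_right _ _, by omega, by omega⟩) hf
    obtain ⟨y, y1, y2⟩ := wfam_sound h q _ (by omega) x1
    refine ⟨y, y1, le_trans ?_ y2⟩
    rw [sum_range_succ, bsum]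
    dsimp only
    linarith

theorem sum_dec (J : ℕ → ℕ → ℕ) (g : ℕ × ℕ × ℕ → ℝ) : ∀ q b, ∑ j ∈ range (tot J q b), g (dec J q b j)
    = ∑ i ∈ range (2 * q), ∑ m ∈ range (J (b + i / 2) (i % 2)), g (b + i / 2, i % 2, m)
  | 0, _ => rfl
  | q + 1, b => by
    rw [tot, sum_range_add, sum_range_add, show 2 * (q + 1) = 2 + 2 * q by ring, sum_range_add,
      sum_range_succ, sum_range_one, add_assoc]
    congr 1
    · exact sum_congr rfl fun m hm => by rw [dec, if_pos (show m < J b 0 from mem_range.1 hm)]; rfl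
    congr 1
    · exact sum_congr rfl fun m hm => by
        rw [dec, if_neg (by omega), Nat.add_sub_cancel_left,
          if_pos (show m < J b 1 from mem_range.1 hm)]; rfl
    refine Eq.trans (sum_congr rfl fun m _ => ?_) ((sum_dec J g q (b + 1)).trans
      (sum_congr rfl fun i _ => ?_))
    · rw [dec, if_neg (by omega), if_neg (by omega), Nat.add_sub_cancel_left,
        Nat.add_sub_cancel_left]
    · rw [show b + (2 + i) / 2 = b + 1 + i / 2 by omega, show (2 + i) % 2 = i % 2 by omega]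

theorem sum_mem (A : Lay) (g : ℕ × ℕ × ℕ → ℝ) :
    ∑ j ∈ range A.N, g (A.mem j) = ∑ i ∈ range (2 * A.nq), bsum A g i := sum_dec A.J g A.nq A.b0

theorem stp_eq (g n i : ℕ) : stp g n i = min (g * i) n := by
  simp only [stp, Nat.mul_eq, Nat.sub_eq]
  omega

theorem stp_le (g n i : ℕ) : stp g n i ≤ stp g n (i + 1) := by
  rw [stp_eq, stp_eq, mul_add]
  omega

/-- A sum in steps. -/
theorem sum_stp (g n : ℕ) (f : ℕ → ℝ) : ∀ k, ∑ j ∈ range (stp g n k), f j =
    ∑ i ∈ range k, ∑ m ∈ range (stp g n (i + 1) - stp g n i), f (stp g n i + m)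
  | 0 => by simp [stp_eq]
  | k + 1 => by
    rw [sum_range_succ, ← sum_stp g n f k, ← sum_range_add, Nat.add_sub_cancel' (stp_le g n k)]

theorem st_succ (A : Lay) (g k : ℕ) : A.st (A.b0 + stp g A.nq (k + 1)) = A.st (A.b0 + stp g A.nq k)
    + tot A.J (stp g A.nq (k + 1) - stp g A.nq k) (A.b0 + stp g A.nq k) := by
  rw [← Lay.st_add (Nat.le_add_right _ _), add_assoc, Nat.add_sub_cancel' (stp_le g _ k)]

/-- A sum over tiles. -/
theorem sum_atT (A : Lay) (g : ℕ) (f : ℕ → ℝ) : ∀ k,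
    ∑ j ∈ range (A.st (A.b0 + stp g A.nq k)), f j = ∑ i ∈ range k,
      ∑ m ∈ range (tot A.J (stp g A.nq (i + 1) - stp g A.nq i) (A.b0 + stp g A.nq i)),
        f (A.st (A.b0 + stp g A.nq i) + m)
  | 0 => by simp [stp_eq, Lay.st, tot]
  | k + 1 => by
    rw [sum_range_succ, ← sum_atT A g f k, ← sum_range_add, st_succ]

theorem st_stp (A : Lay) (g k : ℕ) : A.st (A.b0 + stp g A.nq k) ≤ A.N := by
  obtain ⟨d, hd⟩ := Nat.exists_eq_add_of_le (show stp g A.nq k ≤ A.nq by rw [stp_eq]; omega)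
  rw [Lay.st, Nat.add_sub_cancel_left, Lay.N]
  conv_rhs => rw [hd, tot_add]
  omega

theorem st_end {g k : ℕ} (h : A.nq ≤ g * k) : A.st (A.b0 + stp g A.nq k) = A.N := by
  rw [stp_eq, min_eq_right h, Lay.st, Nat.add_sub_cancel_left, Lay.N]

theorem atT_iff {g i : ℕ} {f : ℕ → ℕ → ℕ → Bool} : atT A g i f = true ↔
    A.fit (A.b0 + stp g A.nq i) (stp g A.nq (i + 1) - stp g A.nq i) = true ∧
    f (A.b0 + stp g A.nq i) (stp g A.nq (i + 1) - stp g A.nq i)
      (tot A.J (stp g A.nq (i + 1) - stp g A.nq i) (A.b0 + stp g A.nq i)) = true := bnd_iff _ _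

theorem fit_le {c q : ℕ} (hf : A.fit c q = true) : A.st c + tot A.J q c ≤ A.N := by
  obtain ⟨a1, a2, -⟩ := Lay.fit_iff.1 hf
  obtain ⟨d, hd⟩ : ∃ d, A.nq = c - A.b0 + (q + d) := ⟨A.nq - (c - A.b0) - q, by omega⟩
  rw [Lay.N, hd, tot_add, tot_add, Nat.add_sub_cancel' a1, Lay.st]
  omega

theorem qrow_succ (T : ℕ → ℕ → Trm) (j acc : ℕ) (f : ℕ → Bool) :
    qrow W K L b A T j x (n + 1) acc f = atT A A.q n fun c q p => T c q j 0 fun y =>
      tight W p L b y fun y => strict y fun y => strict (rnd W 0 (A.st c) p x) fun z =>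
        strict (Nat.add acc (dto W (Nat.add (Nat.div p 16) 1) p K (Nat.shiftLeft 1 b) z y))
          fun acc => qrow W K L b A T j x n acc f := rfl

theorem qrow_sound {T : ℕ → ℕ → Trm} {j r : ℕ} {f : ℕ → Bool} {g : ℕ → ℝ} (hx : Vec W r K x v)
    (hr : A.N ≤ r) (hj : j < J) (hT : ∀ c q, A.fit c q = true →
      ∃ G, TOk W (tot A.J q c) J (T c q) L G e ∧ ∀ m < tot A.J q c, G j m = g (A.st c + m))
    (hb : b + 1 ≤ W) (hL : L + 2 ^ (b + 2) ≤ 2 ^ W)
    (h1 : A.N * (2 * K * (2 * 2 ^ b)) + 1 < 2 ^ W) (h2 : 2 * A.N * K + 2 * K + 1 < 2 ^ W)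
    (h3 : 2 * A.N * 2 ^ b + 2 * 2 ^ b + 1 < 2 ^ W) : ∀ n acc, qrow W K L b A T j x n acc f = true →
      ∃ z, f z = true ∧ acc + ∑ m ∈ range (A.st (A.b0 + stp A.q A.nq n)),
        (v m * g m - e * |(v m : ℝ)| + K * 2 ^ b) ≤ z
  | 0, acc, hf => ⟨acc, hf, by simp [stp_eq, Lay.st, tot]⟩
  | n + 1, acc, hf => by
    rw [qrow_succ, atT_iff] at hf
    obtain ⟨f1, f2⟩ := hf
    obtain ⟨G, g1, g2⟩ := hT _ _ f1
    have hp := fit_le f1
    rw [st_succ, sum_range_add]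
    generalize stp A.q A.nq (n + 1) - stp A.q A.nq n = q at *
    generalize hc : A.b0 + stp A.q A.nq n = c at *
    obtain ⟨y, y1, u, u1, u2⟩ := g1 j hj 0 _ 0 _ 0 (apx_zero W _) f2
    rw [zero_add] at u1
    obtain ⟨z, z1, z2, -⟩ := tight_sound y1 u1 hb hL
    simp only [strict_eq, shl_eq, one_mul] at z1
    obtain ⟨t, t1, t2⟩ := qrow_sound hx hr hj hT hb hL h1 h2 h3 n _ z1
    rw [hc] at t2
    refine ⟨t, t1, le_trans ?_ t2⟩
    have p1 : tot A.J q c ≤ A.N := by omega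
    have k := dto_eq (n := tot A.J q c / 16 + 1) (hx.cut (d := A.st c) (q := tot A.J q c) (by omega)
      (by omega) (by omega)) z2 (by omega) (lt_of_le_of_lt (by gcongr) h1)
      (lt_of_le_of_lt (by gcongr) h2) (lt_of_le_of_lt (by gcongr) h3)
    have k2 := congrArg (Int.cast (R := ℝ)) k
    push_cast at k2
    rw [add_comm (∑ m ∈ _, _), ← add_assoc, Nat.add_eq, Nat.cast_add]
    refine add_le_add_left (add_le_add_right (le_of_le_of_eq ?_ k2.symm) _) _
    rw [sum_add_distrib, sum_const, card_range, nsmul_eq_mul]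
    refine add_le_add_left (sum_le_sum fun m hm => ?_) _
    have a1 := u2 m (mem_range.1 hm)
    simp only [zero_add, g2 m (mem_range.1 hm)] at a1
    have a2 := mul_le_mul_of_nonneg_right a1 (abs_nonneg (v (A.st c + m) : ℝ))
    rw [← abs_mul] at a2
    linarith [neg_abs_le (((u m : ℝ) - g (A.st c + m)) * v (A.st c + m))]

theorem qval_sound {T : ℕ → ℕ → Trm} {j r : ℕ} {f : ℕ → Bool} {g : ℕ → ℝ} (hx : Vec W r K x v)
    (hr : A.N ≤ r) (hj : j < J) (hT : ∀ c q, A.fit c q = true →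
      ∃ G, TOk W (tot A.J q c) J (T c q) L G e ∧ ∀ m < tot A.J q c, G j m = g (A.st c + m))
    (hb : b + 1 ≤ W) (hL : L + 2 ^ (b + 2) ≤ 2 ^ W)
    (h1 : A.N * (2 * K * (2 * 2 ^ b)) + 1 < 2 ^ W) (h2 : 2 * A.N * K + 2 * K + 1 < 2 ^ W)
    (h3 : 2 * A.N * 2 ^ b + 2 * 2 ^ b + 1 < 2 ^ W) (hn : A.nq ≤ A.q * n)
    (hf : qval W K L b A T n j x f = true) : ∃ z, f z = true ∧
      ∑ m ∈ range A.N, v m * g m - e * ∑ m ∈ range A.N, |(v m : ℝ)| ≤ z := by
  obtain ⟨z, z1, z2⟩ := qrow_sound hx hr hj hT hb hL h1 h2 h3 n 0 hf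
  refine ⟨_, z1, ?_⟩
  rw [st_end hn, sum_add_distrib, sum_sub_distrib, ← mul_sum, sum_const, card_range,
    nsmul_eq_mul] at z2
  have k : (z : ℝ) ≤ (z - A.N * (K * 2 ^ b) : ℕ) + (A.N * (K * 2 ^ b) : ℕ) := by
    exact_mod_cast le_tsub_add
  rw [shl_eq, one_mul]
  change _ ≤ ((z - A.N * (K * 2 ^ b) : ℕ) : ℝ)
  push_cast at k z2
  linarith

theorem lsum_eq (l : List ℕ) : ∀ n, (lsum l n : ℝ) = ∑ k ∈ range n, (lget l k : ℝ)
  | 0 => by simp [lsum]
  | n + 1 => by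
    rw [sum_range_succ, ← lsum_eq l n]
    exact Nat.cast_add _ _

end Pool.Agent.Lib.KBlk
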