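import Pool.Agent.Lib.KBlk.Defs

/-!
Rows that are sums of terms: rows of a tile, products of stored matrices, stored columns and blocks.
-/

namespace Pool.Agent.Lib.KBlk

open Pool.Agent.Lib.KLA

noncomputable section

/-- The number of members with angular index in `b, ..., b + q - 1`. -/
def tot (J : Nat → Nat → Nat) : Nat → Nat → Nat
  | 0, _ => 0
  | q + 1, b => J b 0 + (J b 1 + tot J q (b + 1))

/-- Angular index, class and number of member `n`. -/
def dec (J : Nat → Nat → Nat) : Nat → Nat → Nat → Nat × Nat × Nat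
  | 0, b, n => (b, 0, n)
  | q + 1, b, n => if n < J b 0 then (b, 0, n) else if n - J b 0 < J b 1 then (b, 1, n - J b 0)
      else dec J q (b + 1) (n - J b 0 - J b 1)

/-- The position of a member. -/
def enc (J : Nat → Nat → Nat) (b0 b Y j : Nat) : Nat :=
  tot J (b - b0) b0 + ((if Y = 0 then 0 else J b 0) + j)

/-- A term adds a vector that depends on the row `j` to `x` and passes the sum on. -/
def Trm : Type := Nat → Nat → (Nat → Bool) → Bool

/-- How a vector with offset `2 ^ s * K` is scaled: times `c / 2 ^ s`, with a sign. -/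
structure Scl where
  (c s K : Nat)
  (neg : Bool)

/-- Add the scaled vector `y` to `x`. -/
def scl (W p : Nat) (S : Scl) (y x : Nat) (f : Nat → Bool) : Bool :=
  strict (rnd W S.s 0 p (Nat.mul S.c y)) fun z =>
    strict (Nat.add x (cnd S.neg (vneg W p (Nat.mul S.c S.K) z) z)) f

/-- No term. -/
def tZ : Trm := fun _ x f => f x

/-- Two terms. -/
def tS (T U : Trm) : Trm := fun j x f => T j x fun y => U j y f

/-- The terms `T 0, ..., T (n - 1)`. -/
def tA (T : Nat → Trm) (n : Nat) : Trm :=
  Nat.rec (motive := fun _ => Trm) tZ (fun m ih => tS ih (T m)) n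

/-- The row of a tile. -/
def tC (P : Par) (p : Nat) (S : Scl) (R : Rows) (t : Tile) : Trm := fun j x f =>
  jets P R j fun x0 x1 x2 => scl P.W p S (rowC P (slt j x0) x1 x2 t) x f

/-- Column `j` of `A` times `C`. -/
def tP (W p n Kx K e : Nat) (S : Scl) (A C : Rows) : Trm := fun j x f =>
  vmT W p n Kx K e A A.sum j C C.sum fun y => scl W p S y x f

/-- The entries `d, ..., d + p - 1` of column `j` of `A`. -/
def tL (W p d : Nat) (S : Scl) (A : Rows) : Trm := fun j x f =>
  scl W p S (rnd W 0 d p (col W j A)) x f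

/-- Row `j` of `A`. -/
def tR (W p : Nat) (S : Scl) (A : Rows) : Trm := fun j x f => scl W p S (A.get j) x f

/-- Row `j` of `A` (`J` entries, offset `K`) from position `d` on. -/
def tD (W p d J K : Nat) (S : Scl) (A : Rows) : Trm := fun j x f =>
  scl W p S (cat W d (Nat.mul K (ones W d))
    (cat W J (A.get j) (Nat.mul K (ones W (Nat.sub (Nat.sub p d) J))))) x f

/-- Minus `c` at position `d + j`. -/
def tI (W p d c : Nat) : Trm := fun j x f =>
  strict (Nat.add x (Nat.sub (Nat.mul c (ones W p)) (Nat.shiftLeft c (Nat.mul W (Nat.add d j))))) f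

/-- The rows `a, ..., a + q - 1` have entries in `[-2 ^ e, 2 ^ e)`. -/
def fin (W p K e : Nat) (T : Trm) (a q : Nat) : Bool :=
  allR (fun j => T j 0 fun x => tight W p K e x fun _ => true) a q

/-- The columns `d, ..., d + p - 1` and the first `16 * g * m` rows of a stored matrix. -/
def cut (W g b d p m : Nat) (Z : Rows) : Rows :=
  (unp g b (Nat.mul W d) (msk W b p) (rtake Z m)).force

/-- The same with the rows from `16 * g * m0` on. -/
def seg (W g b d p m0 m : Nat) (Z : Rows) : Rows := cut W g b d p m (rdrop Z m0)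

/-- A tile whose rows have the angular index `b0`. -/
def tile0 (P : Par) (b0 : Nat) (T0 T1 : Rows) (dg : Nat → Nat) (M : Nat → Nat → Rows)
    (J : Nat → Nat → Nat) (D : Nat → Nat → Rows) (q b : Nat) (f : Tile → Bool) : Bool :=
  strict (lau P.W P.mK P.Ka false b0 T0) fun x => strict (lau P.W P.mK P.Ka true b0 T1) fun y =>
    strict (dg b0) fun d => tile P x y d T0 T1 dg M J D q b f

/-- `f i` for all `i < n`. -/
def All (f : Nat → Bool) (n : Nat) : Prop := ∀ i, i < n → f i = true

theorem All.zero (f : Nat → Bool) : All f 0 := fun _ h => absurd h (Nat.not_lt_zero _)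

theorem All.step {f : Nat → Bool} {n : Nat} (hf : f n = true) (h : All f n) : All f (n + 1) :=
  fun i hi => (Nat.lt_or_ge i n).elim (h i) fun h1 =>
    Nat.le_antisymm (Nat.le_of_lt_succ hi) h1 ▸ hf

end

end Pool.Agent.Lib.KBlk
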