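import Pool.Agent.Lib.KBlk.Sem
import Pool.Agent.Lib.KBlk.Term

/-!
The rows computed from a tile approximate integrals of a matrix field against separated jets.
-/

namespace Pool.Agent.Lib.KBlk

open Finset MeasureTheory Pool.Agent.Lib.KLA

noncomputable section

theorem dec_spec (J : ℕ → ℕ → ℕ) : ∀ q b n, n < tot J q b → b ≤ (dec J q b n).1 ∧
    (dec J q b n).1 < b + q ∧ (dec J q b n).2.1 < 2 ∧
    (dec J q b n).2.2 < J (dec J q b n).1 (dec J q b n).2.1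
  | 0, _, _, h => absurd h (Nat.not_lt_zero _)
  | q + 1, b, n, h => by
    rw [dec]
    split_ifs with h1 h2
    · exact ⟨le_rfl, by omega, by norm_num, h1⟩
    · exact ⟨le_rfl, by omega, by norm_num, h2⟩
    · obtain ⟨a1, a2, a3, a4⟩ := dec_spec J q (b + 1) (n - J b 0 - J b 1) (by rw [tot] at h; omega)
      exact ⟨by omega, by omega, a3, a4⟩

theorem tot_add (J : ℕ → ℕ → ℕ) : ∀ q q' b, tot J (q + q') b = tot J q b + tot J q' (b + q)
  | 0, q', b => by simp [tot]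
  | q + 1, q', b => by
    rw [show q + 1 + q' = q + q' + 1 by ring, tot, tot, tot_add J q q' (b + 1),
      show b + 1 + q = b + (q + 1) by ring]
    ring

theorem dec_left (J : ℕ → ℕ → ℕ) (q' : ℕ) : ∀ q b n, n < tot J q b →
    dec J (q + q') b n = dec J q b n
  | 0, _, _, h => absurd h (Nat.not_lt_zero _)
  | q + 1, b, n, h => by
    rw [show q + 1 + q' = q + q' + 1 by ring, dec, dec]
    split_ifs with h1 h2
    · rfl
    · rfl
    · exact dec_left J q' q _ _ (by rw [tot] at h; omega)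

theorem dec_right (J : ℕ → ℕ → ℕ) (q' : ℕ) : ∀ q b n,
    dec J (q + q') b (tot J q b + n) = dec J q' (b + q) n
  | 0, _, _ => by simp [tot]
  | q + 1, b, n => by
    rw [show q + 1 + q' = q + q' + 1 by ring, dec, tot, if_neg (by omega), if_neg (by omega),
      show J b 0 + (J b 1 + tot J q (b + 1)) + n - J b 0 - J b 1 = tot J q (b + 1) + n by omega,
      dec_right J q' q, show b + 1 + q = b + (q + 1) by ring]

theorem dec_enc (J : ℕ → ℕ → ℕ) {q b0 b Y j : ℕ} (h0 : b0 ≤ b) (hb : b < b0 + q) (hY : Y < 2)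
    (hj : j < J b Y) : enc J b0 b Y j < tot J q b0 ∧ dec J q b0 (enc J b0 b Y j) = (b, Y, j) := by
  obtain ⟨d, rfl⟩ := Nat.exists_eq_add_of_le h0
  obtain ⟨e, rfl⟩ : ∃ e, q = d + (e + 1) := ⟨q - d - 1, by omega⟩
  rw [enc, Nat.add_sub_cancel_left, tot_add, dec_right, tot, dec]
  interval_cases Y
  · rw [if_pos rfl, zero_add, if_pos hj]
    exact ⟨by omega, rfl⟩
  · rw [if_neg one_ne_zero, if_neg (by omega), Nat.add_sub_cancel_left, if_pos hj]
    exact ⟨by omega, rfl⟩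

theorem enc_dec (J : ℕ → ℕ → ℕ) : ∀ q b n, n < tot J q b →
    enc J b (dec J q b n).1 (dec J q b n).2.1 (dec J q b n).2.2 = n
  | 0, _, _, h => absurd h (Nat.not_lt_zero _)
  | q + 1, b, n, h => by
    rw [dec]
    split_ifs with h1 h2
    · simp [enc, tot]
    · simp only [enc, Nat.sub_self, tot, one_ne_zero, if_false]
      omega
    · have hn : n - J b 0 - J b 1 < tot J q (b + 1) := by rw [tot] at h; omega
      have h3 := enc_dec J q (b + 1) _ hn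
      have h4 := (dec_spec J q (b + 1) _ hn).1
      rw [enc] at h3 ⊢
      rw [show (dec J q (b + 1) (n - J b 0 - J b 1)).1 - b =
        (dec J q (b + 1) (n - J b 0 - J b 1)).1 - (b + 1) + 1 by omega, tot]
      omega

variable {P : Par} {Q : Err}

/-- What a tile holds. -/
def TileOk (P : Par) (Q : Err) (ω : ℕ → ℕ → ℕ → ℕ → ℕ → ℝ) (J : ℕ → ℕ → ℕ) (D : ℕ → ℕ → Rows) :
    ℕ → ℕ → Tile → Prop
  | 0, _, t => t = Tile.nil
  | q + 1, b, t => ∃ u w t', t = Tile.cons u w (J b 0) (J b 1) (D b 0) (D b 1) (D b 0).sum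
      (D b 1).sum t' ∧ Wk P Q u (ω b 0) ∧ Wk P Q w (ω b 1) ∧ TileOk P Q ω J D q (b + 1) t'

/-- The number of angular frequencies. -/
def nang (dl d : ℕ) : ℕ := 16 * ((dl + d) / 16 + 1)

/-- The radial moments: `a` are the angular factors of the row, `an` those of the columns. -/
def omg (P : Par) (dl : ℕ) (dg : ℕ → ℕ) (a : Bool → ℕ → ℝ) (an : Bool → ℕ → ℕ → ℝ)
    (m : ℕ → ℕ → ℕ → ℕ → ℝ) (b Y s s' t : ℕ) : ℝ :=
  (∑ k ∈ range (nang dl (dg b)), cv (2 * P.mK + 1) (2 * P.mK + 1)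
    (lv P.mK (s != 0) (a (s != 0))) (lv P.mK (s' != 0) fun k => an (s' != 0) k b) (2 * P.mK + k) /
      2 ^ P.s1 * m s (3 * Y + s') k t) / 2 ^ P.s2

theorem tile_sound (h : Ok P Q) {x y dl nb : ℕ} {T0 T1 : Rows} {dg : ℕ → ℕ} {M : ℕ → ℕ → Rows}
    {J : ℕ → ℕ → ℕ} {D : ℕ → ℕ → Rows} {a : Bool → ℕ → ℝ} {an : Bool → ℕ → ℕ → ℝ}
    {m : ℕ → ℕ → ℕ → ℕ → ℝ} (hx : Lau 1 P.W P.mK Q.La x false (a false))
    (hy : Lau 1 P.W P.mK Q.La y true (a true))
    (h0 : Tb P.W nb P.Ka (P.mK + 1) Q.La T0 (an false))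
    (h1 : Tb P.W nb P.Ka (P.mK + 1) Q.La T1 (an true))
    (hM : ∀ s < 3, ∀ β < 6, Mz P.W (P.St - P.mA) P.Km Q.nK Q.dm (M s β) (m s β))
    (hd : ∀ b < nb, nang dl (dg b) ≤ Q.nK) : ∀ (q b : ℕ) (f : Tile → Bool), b + q ≤ nb →
      tile P x y dl T0 T1 dg M J D q b f = true →
      ∃ t, f t = true ∧ TileOk P Q (omg P dl dg a an fun s β => ev P.mA (m s β)) J D q b t
  | 0, _, _, _, hf => ⟨_, hf, rfl⟩
  | q + 1, b, f, hb, hf => by
    have hW : 0 < P.W := by have := h.s1; omega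
    have hc := hd b (by omega)
    have lx := h0.lau (d := b) (by omega) hW h.k2 false
    have ly := h1.lau (d := b) (by omega) hW h.k2 true
    set c := (dl + dg b) / 16 + 1
    set z := fun e e' : Bool => angc P c (if e then y else x)
      (lau P.W P.mK P.Ka e' b (if e' then T1 else T0))
    have ha : ∀ e e' : Bool, Ang P c (z e e') fun k =>
        cv (2 * P.mK + 1) (2 * P.mK + 1) (lv P.mK e (a e)) (lv P.mK e' fun k => an e' k b)
          (2 * P.mK + k) / 2 ^ P.s1 := fun e e' => by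
      cases e <;> cases e'
      exacts [angc_sound h hx lx (hc.trans h.a7), angc_sound h hx ly (hc.trans h.a7),
        angc_sound h hy lx (hc.trans h.a7), angc_sound h hy ly (hc.trans h.a7)]
    replace hf : (wcls P c M 0 1 2 (z false false) (z false true) (z true false) (z true true)
      fun u => wcls P c M 3 4 5 (z false false) (z false true) (z true false) (z true true)
        fun w => tile P x y dl T0 T1 dg M J D q (b + 1) fun t => f (Tile.cons u w (J b 0) (J b 1)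
          (D b 0) (D b 1) (D b 0).sum (D b 1).sum t)) = true := hf
    obtain ⟨u, hf, p⟩ := wcls_sound h (m := fun s s' => m s (3 * 0 + s')) hf ha
      (fun s hs => hM s hs _ (by norm_num)) (fun s hs => hM s hs _ (by norm_num))
      (fun s hs => hM s hs _ (by norm_num)) hc
    obtain ⟨w, hf, p'⟩ := wcls_sound h (m := fun s s' => m s (3 * 1 + s')) hf ha
      (fun s hs => hM s hs _ (by norm_num)) (fun s hs => hM s hs _ (by norm_num))
      (fun s hs => hM s hs _ (by norm_num)) hc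
    obtain ⟨t, hf, ht⟩ := tile_sound h hx hy h0 h1 hM hd q (b + 1) _ (by omega) hf
    exact ⟨_, hf, u, w, t, rfl, p, p', ht⟩

/-- The value of a piece. -/
def pv (P : Par) (r : ℕ → ℕ → ℝ) (ω : ℕ → ℕ → ℕ → ℝ) (c : ℕ → ℝ) : ℝ :=
  ∑ s' ∈ range 3, ∑ b ∈ range (16 * P.cB), (∑ s ∈ range 3, ∑ i ∈ range (2 * P.mA + 1),
    lv P.mA false (r s) i * ω s s' (2 * P.mA + b - i)) / 2 ^ P.s3 * c (s' * (16 * P.cB) + b)

theorem rowC_pv (h : Ok P Q) {x0 x1 x2 : ℕ} {r : ℕ → ℕ → ℝ} {ω : ℕ → ℕ → ℕ → ℕ → ℕ → ℝ}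
    {J : ℕ → ℕ → ℕ} {D : ℕ → ℕ → Rows} {rc : ℕ → ℕ → ℕ → ℕ → ℝ}
    (h0 : Lau 0 P.W P.mA Q.Lr x0 false (r 0)) (h1 : Lau 0 P.W P.mA Q.Lr x1 false (r 1))
    (h2 : Lau 0 P.W P.mA Q.Lr x2 false (r 2)) : ∀ (q b : ℕ) (t : Tile), TileOk P Q ω J D q b t →
      (∀ b', b ≤ b' → b' < b + q → ∀ Y < 2,
      Tg P.W (J b' Y) P.Kc (16 * P.dB) (3 * (16 * P.cB)) Q.Lc (D b' Y) (rc b' Y)) →
      Apx P.W (tot J q b) P.E4 (rowC P x0 x1 x2 t) (fun n => pv P r
        (ω (dec J q b n).1 (dec J q b n).2.1)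
        fun k => rc (dec J q b n).1 (dec J q b n).2.1 k (dec J q b n).2.2) Q.e4
  | 0, _, _, ht, _ => by
    rw [show _ = Tile.nil from ht]
    exact ⟨fun _ => 0, ⟨by simp [tot, pk, rowC], fun _ hj => absurd hj (Nat.not_lt_zero _)⟩,
      fun _ hn => absurd hn (Nat.not_lt_zero _)⟩
  | q + 1, b, _, ⟨u, w, t, e, p, p', ht⟩, hD => by
    have a0 := piece_sound h h0 h1 h2 p (hD b le_rfl (by omega) 0 (by norm_num)) rfl
    have a1 := piece_sound h h0 h1 h2 p' (hD b le_rfl (by omega) 1 (by norm_num)) rfl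
    have a2 := rowC_pv h h0 h1 h2 q (b + 1) t ht fun b' hb hb' => hD b' (by omega) (by omega)
    rw [e]
    refine (a0.cat (a1.cat a2)).congr fun n _ => ?_
    rw [dec]
    split_ifs <;> rfl

theorem jets_sound (h : Ok P Q) {R : Rows} {J j : ℕ} {r : ℕ → ℕ → ℝ} {f : ℕ → ℕ → ℕ → Bool}
    (hR : Tg P.W J P.Kr (16 * P.dA) (3 * (16 * P.cA)) Q.Lr R r) (hj : j < J) (hf : jets P R j f = true) :
    ∃ x0 x1 x2, f x0 x1 x2 = true ∧
      Lau 0 P.W P.mA Q.Lr x0 false (fun a => r (0 * (16 * P.cA) + a) j) ∧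
      Lau 0 P.W P.mA Q.Lr x1 false (fun a => r (1 * (16 * P.cA) + a) j) ∧
      Lau 0 P.W P.mA Q.Lr x2 false fun a => r (2 * (16 * P.cA) + a) j := by
  have hW : 0 < P.W := by have := h.s1; omega
  obtain ⟨c, c1, c2, c3⟩ := hR
  have a1 := h.a1
  have a3 := h.a3
  have hr := vec_grpR hW c1 h.k1 hj
  have hg := vec_grp hW c1 h.k1 hj
  have key : ∀ s < 3, ∀ d e, d = 128 * P.dA - (s + 1) * (16 * P.cA) → e = s * (16 * P.cA) →
      Lau 0 P.W P.mA Q.Lr (lav P.W P.mA P.Kr (rnd P.W 0 d (16 * P.cA) (colR (P.W * 8) j R))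
        (rnd P.W 0 e (16 * P.cA) (rev8 P.W (16 * P.dA) (col (P.W * 8) j R)))) false
        fun a => r (s * (16 * P.cA) + a) j := fun s hs d e hd he => by
    have t : (s + 1) * (16 * P.cA) ≤ 3 * (16 * P.cA) := Nat.mul_le_mul_right _ hs
    rw [add_mul, one_mul, ← he] at hd t
    have t1 := hr.cut hW h.k1 (d := d) (q := 16 * P.cA) (by omega)
    have t2 := hg.cut hW h.k1 (d := e) (q := 16 * P.cA) (by omega)
    rw [← he]
    rw [a1] at t1 t2 ⊢
    refine ⟨fun a => c (e + a) j, lav_sound hW h.k1 (t1.congr fun u hu => ?_) t2,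
      le_trans ?_ (c2 j hj), fun a ha => by rw [c3 _ (by omega) j hj, sub_self, abs_zero]⟩
    · congr 1
      omega
    · obtain ⟨z, hz⟩ : ∃ z, 3 * (16 * P.cA) = e + (P.mA + 1) + z := ⟨_, (Nat.add_sub_cancel' (by omega)).symm⟩
      rw [hz, sum_range_add _ (e + (P.mA + 1)), sum_range_add _ e]
      have p1 : 0 ≤ ∑ a ∈ range e, |c a j| := sum_nonneg fun _ _ => abs_nonneg _
      have p2 : 0 ≤ ∑ a ∈ range z, |c (e + (P.mA + 1) + a) j| := sum_nonneg fun _ _ => abs_nonneg _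
      linarith
  exact ⟨_, _, _, hf, key 0 (by norm_num) _ _ (by simp) (by simp),
    key 1 (by norm_num) _ _ rfl (by simp), key 2 (by norm_num) _ _ rfl rfl⟩

variable {X : Type} [MeasurableSpace X] {μ : Measure X}

/-- The form of the matrix field `F` on two separated jets with radial coefficients `r`, `r'` and
angular coefficients `a`, `a'`. -/
def frm (μ : Measure X) (χ θ : X → ℝ) (F : ℕ → ℕ → X → ℝ) (n n' m : ℕ) (r r' : ℕ → ℕ → ℝ)
    (a a' : Bool → ℕ → ℝ) : ℝ :=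
  ∑ s ∈ range 3, ∑ s' ∈ range 3, ∫ y, F s s' y *
    (ts false n (r s) (χ y) * ts false n' (r' s') (χ y) *
      (ts (s != 0) m (a (s != 0)) (θ y) * ts (s' != 0) m (a' (s' != 0)) (θ y))) ∂μ

theorem pv_omg {χ θ : X → ℝ} {F : ℕ → ℕ → X → ℝ} (hχ : Measurable χ) (hθ : Measurable θ)
    (hF : ∀ s < 3, ∀ β < 6, Integrable (F s β) μ) {dl b Y : ℕ} {dg : ℕ → ℕ} {a : Bool → ℕ → ℝ}
    {an : Bool → ℕ → ℕ → ℝ} (hY : Y < 2) (ha : ∀ e k, dl < k → a e k = 0)
    (hn : ∀ e k, dg b < k → an e k b = 0) (hd : nang dl (dg b) ≤ 2 * P.mK + 2) (r : ℕ → ℕ → ℝ)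
    (c : ℕ → ℝ) : pv P r (omg P dl dg a an
      (fun s β => mo μ (F s β) χ θ P.mA false false (s != 0) (β % 3 != 0)) b Y) c =
      8 / 2 ^ (P.s1 + P.s2 + P.s3) * frm μ χ θ (fun s s' => F s (3 * Y + s')) (P.mA + 1)
        (16 * P.cB) (P.mK + 1) r (fun s' k => c (s' * (16 * P.cB) + k)) a fun e k => an e k b := by
  rw [frm, sum_comm, mul_sum, pv]
  refine sum_congr rfl fun s' hs' => ?_
  have hs' := mem_range.1 hs'
  simp only [sum_div, sum_mul]
  rw [sum_comm, mul_sum]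
  refine sum_congr rfl fun s hs => ?_
  have := int_four (hF s (mem_range.1 hs) (3 * Y + s') (by omega)) hχ hθ (m := P.mA) (m' := P.mK)
    (16 * P.cB) false false (s != 0) (s' != 0) (r s) (fun k => c (s' * (16 * P.cB) + k))
    (ha (s != 0)) (hn (s' != 0)) (n := nang dl (dg b)) (by rw [nang]; omega) hd
  rw [div_mul_eq_mul_div, ← this, sum_div]
  refine sum_congr rfl fun k _ => ?_
  rw [sum_mul, sum_div]
  refine sum_congr rfl fun i _ => ?_
  rw [omg, show (3 * Y + s') % 3 = s' by omega]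
  simp only [div_mul_eq_mul_div, ← sum_div, pow_add]
  field_simp

theorem ev_mo (F χ θ : X → ℝ) (m : ℕ) (f f' : Bool) :
    ev m (mo μ F χ θ 0 false false f f') = mo μ F χ θ m false false f f' := by
  funext k t
  rw [ev, mo, mo]
  congr 2
  funext y
  congr 2
  split_ifs with h
  · rw [Nat.cast_sub h.le, Nat.cast_zero, sub_zero, ← neg_sub, neg_mul, cs_neg]
    simp
  · rw [Nat.cast_sub (not_lt.1 h), Nat.cast_zero, sub_zero]

/-- The conditions on the tables of a tile. -/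
structure Src (P : Par) (Q : Err) (μ : Measure X) (χ θ : X → ℝ) (F : ℕ → ℕ → X → ℝ) (nb : ℕ)
    (T0 T1 : Rows) (dg : ℕ → ℕ) (M : ℕ → ℕ → Rows) (an : Bool → ℕ → ℕ → ℝ) : Prop where
  ok : Ok P Q
  mχ : Measurable χ
  mθ : Measurable θ
  int : ∀ s < 3, ∀ β < 6, Integrable (F s β) μ
  t0 : Tb P.W nb P.Ka (P.mK + 1) Q.La T0 (an false)
  t1 : Tb P.W nb P.Ka (P.mK + 1) Q.La T1 (an true)
  deg : ∀ b < nb, ∀ e k, dg b < k → an e k b = 0
  dd : ∀ b < nb, ∀ b' < nb, nang (dg b) (dg b') ≤ Q.nK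
  mom : ∀ s < 3, ∀ β < 6, Mz P.W (P.St - P.mA) P.Km Q.nK Q.dm (M s β)
    (mo μ (F s β) χ θ 0 false false (s != 0) (β % 3 != 0))

/-- The entry for the member `j` of the row table `r` (angular index `b0`) and the column `d`. -/
def ent (P : Par) (μ : Measure X) (χ θ : X → ℝ) (F : ℕ → ℕ → X → ℝ) (an : Bool → ℕ → ℕ → ℝ)
    (r : ℕ → ℕ → ℝ) (rc : ℕ → ℕ → ℕ → ℕ → ℝ) (b0 j : ℕ) (d : ℕ × ℕ × ℕ) : ℝ :=
  8 / 2 ^ (P.s1 + P.s2 + P.s3) * frm μ χ θ (fun s s' => F s (3 * d.2.1 + s')) (P.mA + 1)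
    (16 * P.cB) (P.mK + 1) (fun s k => r (s * (16 * P.cA) + k) j)
    (fun s k => rc d.1 d.2.1 (s * (16 * P.cB) + k) d.2.2) (fun e k => an e k b0) fun e k => an e k d.1

/-- The rows of a tile. -/
theorem rows_sound {χ θ : X → ℝ} {F : ℕ → ℕ → X → ℝ} {nb : ℕ} {T0 T1 : Rows} {dg : ℕ → ℕ}
    {M : ℕ → ℕ → Rows} {J : ℕ → ℕ → ℕ} {D : ℕ → ℕ → Rows} {an : Bool → ℕ → ℕ → ℝ}
    {rc : ℕ → ℕ → ℕ → ℕ → ℝ} (h : Src P Q μ χ θ F nb T0 T1 dg M an) {b0 q b : ℕ}
    (h0 : b0 < nb) (hb : b + q ≤ nb)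
    (hD : ∀ b', b ≤ b' → b' < b + q → ∀ Y < 2,
      Tg P.W (J b' Y) P.Kc (16 * P.dB) (3 * (16 * P.cB)) Q.Lc (D b' Y) (rc b' Y))
    {f : Tile → Bool} (hf : tile P (lau P.W P.mK P.Ka false b0 T0) (lau P.W P.mK P.Ka true b0 T1)
      (dg b0) T0 T1 dg M J D q b f = true) : ∃ t, f t = true ∧
      ∀ (x0 x1 x2 j : ℕ) (r : ℕ → ℕ → ℝ),
        Lau 0 P.W P.mA Q.Lr x0 false (fun a => r (0 * (16 * P.cA) + a) j) →
        Lau 0 P.W P.mA Q.Lr x1 false (fun a => r (1 * (16 * P.cA) + a) j) →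
        Lau 0 P.W P.mA Q.Lr x2 false (fun a => r (2 * (16 * P.cA) + a) j) →
        Apx P.W (tot J q b) P.E4 (rowC P x0 x1 x2 t)
          (fun n => ent P μ χ θ F an r rc b0 j (dec J q b n)) Q.e4 := by
  have hW : 0 < P.W := by have := h.ok.s1; omega
  obtain ⟨t, ht, hT⟩ := tile_sound h.ok (a := fun e k => an e k b0) (h.t0.lau h0 hW h.ok.k2 false)
    (h.t1.lau h0 hW h.ok.k2 true) h.t0 h.t1 h.mom (h.dd b0 h0) q b f hb hf
  simp only [ev_mo] at hT
  refine ⟨t, ht, fun x0 x1 x2 j r p0 p1 p2 => (rowC_pv h.ok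
    (r := fun s k => r (s * (16 * P.cA) + k) j) p0 p1 p2 q b t hT hD).congr fun n hn => ?_⟩
  obtain ⟨-, a2, a3, -⟩ := dec_spec J q b n hn
  exact pv_omg h.mχ h.mθ h.int a3 (h.deg b0 h0) (h.deg _ (by omega))
    ((h.dd b0 h0 _ (by omega)).trans h.ok.a7) _ _

end

end Pool.Agent.Lib.KBlk
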