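import Pool.Agent.Lib.KBlk.Trig

/-!
Propagation of the rounding errors through the stages of a block.
-/

namespace Pool.Agent.Lib.KBlk

open Finset Pool.Agent.Lib.KLA

noncomputable section

section Ord

variable {α : Type} [CommRing α] [LinearOrder α] [IsStrictOrderedRing α]

theorem l1_lv (m : ℕ) (e : Bool) (a : ℕ → α) :
    ∑ u ∈ range (2 * m + 1), |lv m e a u| ≤ 2 * ∑ k ∈ range (m + 1), |a k| := by
  have h1 : ∑ u ∈ range (2 * m + 1), |if u ≤ m then a (m - u) else 0| =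
      ∑ k ∈ range (m + 1), |a k| := by
    rw [show 2 * m + 1 = (m + 1) + m by ring, sum_range_add, ← sum_range_reflect _ (m + 1)]
    rw [sum_eq_zero (s := range m) fun j _ => by rw [if_neg (by omega), abs_zero], add_zero]
    refine sum_congr rfl fun k hk => ?_
    have hk := mem_range.1 hk
    rw [if_pos (by omega), show m - (m + 1 - 1 - k) = k by omega]
  have h2 : ∑ u ∈ range (2 * m + 1),
      |if m ≤ u then (if e then -a (u - m) else a (u - m)) else 0| =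
      ∑ k ∈ range (m + 1), |a k| := by
    rw [show 2 * m + 1 = m + (m + 1) by ring, sum_range_add]
    rw [sum_eq_zero (s := range m) fun j hj => by
      rw [if_neg (by have := mem_range.1 hj; omega), abs_zero], zero_add]
    refine sum_congr rfl fun k _ => ?_
    rw [if_pos (by omega), Nat.add_sub_cancel_left]
    cases e <;> simp
  refine le_trans (sum_le_sum fun u _ => abs_add_le _ _) (le_of_eq ?_)
  rw [sum_add_distrib, h1, h2, ← two_mul]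

theorem cv_abs_le {r p : ℕ} (u : ℕ → α) {v : ℕ → α} {B : α} (hB : 0 ≤ B)
    (h : ∀ j < p, |v j| ≤ B) (n : ℕ) : |cv r p u v n| ≤ (∑ i ∈ range r, |u i|) * B := by
  rw [sum_mul]
  refine (abs_sum_le_sum_abs _ _).trans (sum_le_sum fun i _ => ?_)
  split_ifs with h1
  · rw [abs_mul]
    exact mul_le_mul_of_nonneg_left (h _ h1.2) (abs_nonneg _)
  · rw [abs_zero]
    positivity

theorem cv_l1 (r p : ℕ) (u v : ℕ → α) : ∑ n ∈ range (r + p), |cv r p u v n| ≤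
    (∑ i ∈ range r, |u i|) * ∑ j ∈ range p, |v j| := by
  have := sum_cv r p (fun i => |u i|) (fun j => |v j|) fun _ => 1
  simp only [mul_one] at this
  rw [sum_mul_sum, ← this]
  refine sum_le_sum fun n _ => (abs_sum_le_sum_abs _ _).trans (sum_le_sum fun i _ => ?_)
  split_ifs
  · rw [abs_mul]
  · rw [abs_zero]

end Ord

theorem cv_eq {α : Type} [CommRing α] (r p : ℕ) (u v : ℕ → α) (n : ℕ) : cv r p u v n =
    ∑ i ∈ range r, ∑ j ∈ range p, if i + j = n then u i * v j else 0 := by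
  refine sum_congr rfl fun i _ => ?_
  split_ifs with h
  · rw [sum_eq_single (n - i) (fun j _ hj => if_neg (by omega))
      (fun hj => absurd (mem_range.2 h.2) hj), if_pos (by omega)]
  · exact (sum_eq_zero fun j hj => if_neg (by have := mem_range.1 hj; omega)).symm

theorem cv_comm {α : Type} [CommRing α] (r p : ℕ) (u v : ℕ → α) (n : ℕ) :
    cv r p u v n = cv p r v u n := by
  rw [cv_eq, cv_eq, sum_comm]
  exact sum_congr rfl fun j _ => sum_congr rfl fun i _ => by rw [add_comm, mul_comm]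

theorem cv_cast (r p : ℕ) (u v : ℕ → ℤ) (n : ℕ) :
    ((cv r p u v n : ℤ) : ℝ) = cv r p (fun i => (u i : ℝ)) (fun j => (v j : ℝ)) n := by
  simp [cv]

theorem lv_cast (m : ℕ) (e : Bool) (a : ℕ → ℤ) (u : ℕ) :
    ((lv m e a u : ℤ) : ℝ) = lv m e (fun k => (a k : ℝ)) u := by
  cases e <;> simp [lv]

theorem cv_sub (r p : ℕ) (u v u' v' : ℕ → ℝ) (n : ℕ) : cv r p u v n - cv r p u' v' n =
    cv r p u (fun j => v j - v' j) n + cv r p (fun i => u i - u' i) v' n := by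
  simp only [cv, ← sum_sub_distrib, ← sum_add_distrib]
  refine sum_congr rfl fun i _ => ?_
  split_ifs <;> ring

theorem lv_err {m : ℕ} (e : Bool) {a b : ℕ → ℝ} {ε : ℝ} (h : ∀ k < m + 1, |a k - b k| ≤ ε)
    {u : ℕ} (hu : u < 2 * m + 1) : |lv m e a u - lv m e b u| ≤ ε + ε := by
  have h0 : 0 ≤ ε := (abs_nonneg _).trans (h 0 (by omega))
  have t1 : |(if u ≤ m then a (m - u) else 0) - if u ≤ m then b (m - u) else 0| ≤ ε := by
    split_ifs
    · exact h _ (by omega)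
    · simpa using h0
  have t2 : |(if m ≤ u then (if e then -a (u - m) else a (u - m)) else 0) -
      if m ≤ u then (if e then -b (u - m) else b (u - m)) else 0| ≤ ε := by
    split_ifs
    · rw [neg_sub_neg, abs_sub_comm]; exact h _ (by omega)
    · exact h _ (by omega)
    · simpa using h0
  rw [lv, lv, add_sub_add_comm]
  exact (abs_add_le _ _).trans (by linarith)

theorem sum_const_le {n : ℕ} {f : ℕ → ℝ} {c : ℝ} (h : ∀ k < n, f k ≤ c) :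
    ∑ k ∈ range n, f k ≤ n * c := by
  simpa using sum_le_card_nsmul (range n) f c fun k hk => h k (mem_range.1 hk)

theorem rnd_err {a : ℤ} {x δ e : ℝ} {s : ℕ} (h : |(a : ℝ) - x| ≤ δ) (he : δ + 2 ^ s ≤ e * 2 ^ s) :
    |((a / 2 ^ s : ℤ) : ℝ) - x / 2 ^ s| ≤ e := by
  have hp : (0 : ℝ) < 2 ^ s := by positivity
  have h1 : |(a : ℝ) / 2 ^ s - x / 2 ^ s| ≤ δ / 2 ^ s := by
    rw [← sub_div, abs_div, abs_of_pos hp]
    exact div_le_div_of_nonneg_right h hp.le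
  have h2 : δ / 2 ^ s ≤ e - 1 := by
    rw [div_le_iff₀ hp]
    linarith
  have h3 := abs_sub_le ((a / 2 ^ s : ℤ) : ℝ) (a / 2 ^ s) (x / 2 ^ s)
  linarith [ediv_err a s]

theorem dot_err {n : ℕ} {v c a m : ℕ → ℝ} {L δ e B : ℝ} (hδ : 0 ≤ δ)
    (hL : ∑ k ∈ range n, |v k| ≤ L) (hc : ∀ k < n, |c k - m k| ≤ δ) (hv : ∀ k < n, |v k - a k| ≤ e)
    (hm : ∀ k < n, |c k| ≤ B) :
    |∑ k ∈ range n, v k * c k - ∑ k ∈ range n, a k * m k| ≤ L * δ + n * (e * (B + δ)) := by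
  rw [← sum_sub_distrib]
  refine (abs_sum_le_sum_abs _ _).trans ((sum_le_sum (g := fun k => |v k| * δ + e * (B + δ))
    fun k hk => ?_).trans ?_)
  · have hk := mem_range.1 hk
    rw [show v k * c k - a k * m k = v k * (c k - m k) + (v k - a k) * m k by ring]
    refine (abs_add_le _ _).trans (add_le_add ?_ ?_)
    · rw [abs_mul]
      exact mul_le_mul_of_nonneg_left (hc k hk) (abs_nonneg _)
    · rw [abs_mul]
      refine mul_le_mul (hv k hk) ?_ (abs_nonneg _) ((abs_nonneg _).trans (hv k hk))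
      have := abs_sub_abs_le_abs_sub (m k) (c k)
      rw [abs_sub_comm] at this
      linarith [hc k hk, hm k hk]
  · rw [sum_add_distrib, ← sum_mul, sum_const, card_range, nsmul_eq_mul]
    exact add_le_add (mul_le_mul_of_nonneg_right hL hδ) le_rfl

theorem dot_abs_le {n : ℕ} {v c : ℕ → ℤ} {B : ℤ} (hc : ∀ k < n, |c k| ≤ B) :
    |∑ k ∈ range n, v k * c k| ≤ (∑ k ∈ range n, |v k|) * B := by
  rw [sum_mul]
  refine (abs_sum_le_sum_abs _ _).trans (sum_le_sum fun k hk => ?_)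
  rw [abs_mul]
  exact mul_le_mul_of_nonneg_left (hc k (mem_range.1 hk)) (abs_nonneg _)

/-- `D` holds the real matrix `r` up to one unit; the columns have `l1` norm at most `L`. -/
def Tb (W J K n L : ℕ) (D : Rows) (r : ℕ → ℕ → ℝ) : Prop :=
  ∃ c, Mat W J K n D c ∧ (∀ j < J, ∑ a ∈ range n, |c a j| ≤ L) ∧
    ∀ a < n, ∀ j < J, |(c a j : ℝ) - r a j| ≤ 1

/-- The first `m` rows of a matrix stored in `n` groups of eight rows are the rows of `r`. -/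
def Tg (W J K n m L : ℕ) (D : Rows) (r : ℕ → ℕ → ℝ) : Prop :=
  ∃ c, Mat W (8 * J) K n D (grp c) ∧ (∀ j < J, ∑ a ∈ range m, |c a j| ≤ L) ∧
    ∀ a < m, ∀ j < J, (c a j : ℝ) = r a j

/-- `M` holds the real matrix `m` up to `δ`. -/
def Mo (W p K n δ : ℕ) (M : Rows) (m : ℕ → ℕ → ℝ) : Prop :=
  ∃ c, Mat W p K n M c ∧ ∀ k < n, ∀ t < p, |(c k t : ℝ) - m k t| ≤ δ

/-- The same, or both are empty. -/
def Mz (W p K n δ : ℕ) (M : Rows) (m : ℕ → ℕ → ℝ) : Prop :=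
  Mo W p K n δ M m ∨ M = Rows.nil ∧ ∀ k t, m k t = 0

/-- `x` holds the continuation of `r`. -/
def Lau (ε : ℝ) (W m L x : ℕ) (e : Bool) (r : ℕ → ℝ) : Prop :=
  ∃ c : ℕ → ℤ, Snt W (2 * m + 1) x (lv m e c) ∧ ∑ a ∈ range (m + 1), |c a| ≤ L ∧
    ∀ a < m + 1, |(c a : ℝ) - r a| ≤ ε

theorem Tb.lau {W J K m L d : ℕ} {D : Rows} {r : ℕ → ℕ → ℝ} (h : Tb W J K (m + 1) L D r)
    (hd : d < J) (hW : 0 < W) (hK : 2 * K < 2 ^ W) (e : Bool) :
    Lau 1 W m L (lau W m K e d D) e fun a => r a d :=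
  let ⟨c, h1, h2, h3⟩ := h
  ⟨fun a => c a d, lau_sound h1 hd hW hK e, h2 d hd, fun a ha => h3 a ha d hd⟩

theorem Tb.rtake {W J K n L m : ℕ} {D : Rows} {r : ℕ → ℕ → ℝ} (h : Tb W J K n L D r)
    (hm : 16 * m ≤ n) : Tb W J K (16 * m) L (rtake D m) r :=
  let ⟨c, h1, h2, h3⟩ := h
  ⟨c, mat_rtake h1 hm, fun j hj => (sum_le_sum_of_subset_of_nonneg (range_subset_range.2 hm)
    fun _ _ _ => abs_nonneg _).trans (h2 j hj), fun a ha => h3 a (by omega)⟩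

theorem Tb.rdrop {W J K n L m : ℕ} {D : Rows} {r : ℕ → ℕ → ℝ} (h : Tb W J K n L D r)
    (hm : 16 * m ≤ n) : Tb W J K (n - 16 * m) L (rdrop D m) fun a => r (16 * m + a) := by
  obtain ⟨c, h1, h2, h3⟩ := h
  refine ⟨_, mat_rdrop h1 m, fun j hj => le_trans ?_ (h2 j hj), fun a ha => h3 _ (by omega)⟩
  conv_rhs => rw [show n = 16 * m + (n - 16 * m) by omega, sum_range_add]
  exact le_add_of_nonneg_left (sum_nonneg fun _ _ => abs_nonneg _)

/-- The bounds for the norms of the tables and for the errors. -/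
structure Err where
  (La Lr Lc dm e2 e3 e4 nK : ℕ)

/-- The conditions on the word lengths. -/
structure Ok (P : Par) (Q : Err) : Prop where
  a1 : 16 * P.cA = P.mA + 1
  a2 : P.St = 2 * P.mA + 16 * P.cB
  a3 : 3 * (16 * P.cA) ≤ 128 * P.dA
  a4 : 3 * (16 * P.cB) ≤ 128 * P.dB
  a5 : P.mA ≤ 255
  a6 : 256 + P.mA ≤ P.St
  a7 : Q.nK ≤ 2 * P.mK + 2
  k1 : 2 * P.Kr < 2 ^ P.W
  k2 : 2 * P.Ka < 2 ^ P.W
  s1 : P.s1 < P.W
  s2 : P.s2 < P.W
  s3 : P.s3 < P.W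
  b1 : 4 * Q.La ^ 2 ≤ 2 ^ P.s1 * P.E1
  b2 : 2 * (2 ^ P.s1 * P.E1) < 2 ^ P.W
  b3 : 8 * Q.La + 4 * (2 * P.mK + 1) ≤ 2 ^ P.s1
  c1 : (P.E1 + (2 * P.mK + 2)) * P.Km ≤ 2 ^ P.s2 * P.E2
  c2 : 2 * (2 ^ P.s2 * P.E2) < 2 ^ P.W
  c3 : 2 * (2 * P.mK + 2) * P.E1 + 1 < 2 ^ P.W
  c4 : (P.E1 + (2 * P.mK + 2)) * Q.dm + (2 * P.mK + 2) * (2 * (P.Km + Q.dm)) + 2 ^ P.s2 ≤
    Q.e2 * 2 ^ P.s2
  c5 : P.E2 + 2 ^ (P.b2 + 2) ≤ 2 ^ P.W
  d1 : 6 * Q.Lr * 2 ^ P.b2 ≤ 2 ^ P.s3 * P.E3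
  d2 : 2 * (2 ^ P.s3 * P.E3) < 2 ^ P.W
  d3 : 6 * Q.Lr * Q.e2 + 2 ^ P.s3 ≤ Q.e3 * 2 ^ P.s3
  d4 : 2 * (16 * P.dB + 1) * P.E3 + 1 < 2 ^ P.W
  d5 : 8 * (16 * P.dB) * (P.E3 * P.Kc) ≤ P.E4
  d7 : 2 * P.E4 < 2 ^ P.W
  d6 : Q.Lc * Q.e3 ≤ Q.e4

variable {P : Par} {Q : Err}

/-- An angular product. -/
def Ang (P : Par) (c x : ℕ) (a : ℕ → ℝ) : Prop :=
  ∃ v, Vec P.W (16 * c) P.E1 x v ∧ ∑ k ∈ range (16 * c), |v k| ≤ P.E1 + (2 * P.mK + 2) ∧
    ∀ k < 16 * c, |(v k : ℝ) - a k| ≤ 2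

theorem angc_sound (h : Ok P Q) {c x y : ℕ} {e e' : Bool} {a a' : ℕ → ℝ}
    (hx : Lau 1 P.W P.mK Q.La x e a) (hy : Lau 1 P.W P.mK Q.La y e' a') (hc : 16 * c ≤ 2 * P.mK + 2) :
    Ang P c (angc P c x y) fun k => cv (2 * P.mK + 1) (2 * P.mK + 1) (lv P.mK e a) (lv P.mK e' a')
      (2 * P.mK + k) / 2 ^ P.s1 := by
  obtain ⟨u, u1, u2, u3⟩ := hx
  obtain ⟨v, v1, v2, v3⟩ := hy
  have hW : 0 < P.W := by have := h.s1; omega
  set m := P.mK
  have lu : ∑ i ∈ range (2 * m + 1), |lv m e u i| ≤ 2 * Q.La := by linarith [l1_lv m e u]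
  have lw : ∑ i ∈ range (2 * m + 1), |lv m e' v i| ≤ 2 * Q.La := by linarith [l1_lv m e' v]
  have l1 : ∑ n ∈ range (2 * m + 1 + (2 * m + 1)),
      |cv (2 * m + 1) (2 * m + 1) (lv m e u) (lv m e' v) n| ≤ (2 ^ P.s1 * P.E1 : ℕ) := by
    refine (cv_l1 _ _ _ _).trans ((mul_le_mul lu lw (sum_nonneg fun _ _ => abs_nonneg _)
      (by positivity)).trans ?_)
    have : 4 * (Q.La : ℤ) ^ 2 ≤ (2 ^ P.s1 * P.E1 : ℕ) := by exact_mod_cast h.b1
    linarith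
  have hv := (cnv_sound hW u1 v1 fun j hj =>
    (single_le_sum (f := fun n => |cv (2 * m + 1) (2 * m + 1) (lv m e u) (lv m e' v) n|)
      (fun _ _ => abs_nonneg _) (mem_range.2 hj)).trans l1).rnd (d := 2 * m) (q := 16 * c)
    h.s1 h.b2 (by omega)
  refine ⟨_, by simpa only [angc, Nat.mul_eq, Nat.add_eq, shl_eq, one_mul] using hv, ?_,
    fun k hk => ?_⟩
  · have hp : (0 : ℝ) < 2 ^ P.s1 := by positivity
    have l2 : ∑ k ∈ range (16 * c),
        |cv (2 * m + 1) (2 * m + 1) (lv m e u) (lv m e' v) (2 * m + k)| ≤ (2 ^ P.s1 * P.E1 : ℕ) := by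
      refine le_trans ?_ l1
      rw [show 2 * m + 1 + (2 * m + 1) = 2 * m + (2 * m + 2) by ring,
        sum_range_add _ (2 * m) (2 * m + 2)]
      exact (sum_le_sum_of_subset_of_nonneg (range_subset_range.2 hc) fun _ _ _ =>
        abs_nonneg _).trans (le_add_of_nonneg_left (sum_nonneg fun _ _ => abs_nonneg _))
    generalize cv (2 * m + 1) (2 * m + 1) (lv m e u) (lv m e' v) = z at l2
    have l3 : ∑ k ∈ range (16 * c), |(z (2 * m + k) : ℝ)| ≤ 2 ^ P.s1 * P.E1 := by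
      exact_mod_cast l2
    have l4 : ∑ k ∈ range (16 * c), |((z (2 * m + k) / 2 ^ P.s1 : ℤ) : ℝ)| ≤
        ∑ k ∈ range (16 * c), (|(z (2 * m + k) : ℝ)| / 2 ^ P.s1 + 1) := sum_le_sum fun k _ => by
      have t1 := ediv_err (z (2 * m + k)) P.s1
      have t2 := abs_sub_abs_le_abs_sub ((z (2 * m + k) / 2 ^ P.s1 : ℤ) : ℝ)
        (z (2 * m + k) / 2 ^ P.s1)
      rw [abs_div _ (2 ^ P.s1), abs_of_pos hp] at t2
      linarith
    rw [sum_add_distrib, ← sum_div, sum_const, card_range, nsmul_eq_mul, mul_one] at l4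
    have l5 : (∑ k ∈ range (16 * c), |(z (2 * m + k) : ℝ)|) / 2 ^ P.s1 ≤ P.E1 := by
      rw [div_le_iff₀ hp]
      linarith
    have l6 : ((16 * c : ℕ) : ℝ) ≤ (2 * m + 2 : ℕ) := by exact_mod_cast hc
    have l7 : ∑ k ∈ range (16 * c), |((z (2 * m + k) / 2 ^ P.s1 : ℤ) : ℝ)| ≤
        P.E1 + (2 * m + 2 : ℕ) := by linarith
    exact_mod_cast l7
  · refine rnd_err (δ := 8 * Q.La + 4 * (2 * m + 1)) ?_ ?_
    · rw [cv_cast, cv_sub, cv_comm _ _ _ (lv m e' a')]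
      simp only [lv_cast]
      have t1 : ∑ i ∈ range (2 * m + 1), |lv m e (fun k => (u k : ℝ)) i| ≤ 2 * Q.La := by
        simp only [← lv_cast]
        exact_mod_cast lu
      have t2 : ∑ i ∈ range (2 * m + 1), |lv m e' a' i| ≤ 2 * Q.La + (2 * m + 1 : ℕ) * 2 := by
        have t3 : ∑ i ∈ range (2 * m + 1), |lv m e' (fun k => (v k : ℝ)) i| ≤ 2 * Q.La := by
          simp only [← lv_cast]
          exact_mod_cast lw
        have t4 := sum_const_le (n := 2 * m + 1)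
          (f := fun i => |lv m e' a' i| - |lv m e' (fun k => (v k : ℝ)) i|) (c := 2) fun i hi =>
            (abs_sub_abs_le_abs_sub _ _).trans (by
              rw [abs_sub_comm]; exact (lv_err e' v3 hi).trans_eq one_add_one_eq_two)
        rw [sum_sub_distrib] at t4
        linarith
      have t5 := cv_abs_le (r := 2 * m + 1) (lv m e fun k => (u k : ℝ)) (B := 2) (by norm_num)
        (fun j hj => (lv_err e' v3 hj).trans_eq one_add_one_eq_two) (2 * m + k)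
      have t6 := cv_abs_le (r := 2 * m + 1) (lv m e' a') (B := 2) (by norm_num)
        (fun j hj => (lv_err e u3 hj).trans_eq one_add_one_eq_two) (2 * m + k)
      refine (abs_add_le _ _).trans ?_
      push_cast at t2
      linarith
    · have : 8 * (Q.La : ℝ) + 4 * (2 * m + 1) ≤ 2 ^ P.s1 := by exact_mod_cast h.b3
      linarith

/-- The even continuation of the rows. -/
def ev (m : ℕ) (f : ℕ → ℕ → ℝ) (k t : ℕ) : ℝ := f k (if t < m then m - t else t - m)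

theorem wrow_sound (h : Ok P Q) {c x : ℕ} {M : Rows} {a : ℕ → ℝ} {m : ℕ → ℕ → ℝ}
    (hx : Ang P c x a) (hM : Mo P.W (P.St - P.mA) P.Km Q.nK Q.dm M m)
    (hn : 16 * c ≤ Q.nK) : ∃ w, Vec P.W P.St P.E2 (wrow P c M x) w ∧ ∀ t < P.St,
      |(w t : ℝ) - (∑ k ∈ range (16 * c), a k * ev P.mA m k t) / 2 ^ P.s2| ≤ Q.e2 := by
  obtain ⟨v, v1, v2, v3⟩ := hx
  obtain ⟨z, z1, z2⟩ := hM
  have hW : 0 < P.W := by have := h.s1; omega
  have a5 := h.a5
  have a6 := h.a6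
  have hc := hn.trans h.a7
  have z3 := mat_rtake z1 hn
  have hv := (vml_sound (E := 2 ^ P.s2 * P.E2) hW v1 z3 rfl
    (lt_of_le_of_lt (by gcongr) h.c3) fun j hj => by
      refine (dot_abs_le fun k hk => (z3.2 k hk).2 j hj).trans
        ((mul_le_mul_of_nonneg_right v2 (by positivity)).trans ?_)
      exact_mod_cast h.c1).rnd (d := 0) (q := P.St - P.mA) h.s2 h.c2 (by omega)
  have hw := vec_evn hW (lt_of_le_of_lt (Nat.mul_le_mul_left 2
    (Nat.le_mul_of_pos_left _ (by positivity))) h.c2) hv a5 (by omega)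
  rw [Nat.add_sub_cancel' (by omega)] at hw
  refine ⟨_, by simpa only [wrow, strict_eq, Nat.mul_eq, Nat.add_eq, Nat.sub_eq, shl_eq, one_mul]
    using hw, fun t ht => ?_⟩
  have ht : (if t < P.mA then P.mA - t else t - P.mA) < P.St - P.mA := by split_ifs <;> omega
  simp only [ev]
  generalize (if t < P.mA then P.mA - t else t - P.mA) = t at ht
  refine rnd_err (δ := (P.E1 + (2 * P.mK + 2)) * Q.dm + (2 * P.mK + 2) * (2 * (P.Km + Q.dm)))
    ?_ (by exact_mod_cast h.c4)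
  rw [zero_add]
  push_cast
  refine (dot_err (L := P.E1 + (2 * P.mK + 2)) (δ := Q.dm) (e := 2) (B := P.Km) (by positivity)
    (by exact_mod_cast v2) (fun k hk => z2 k (by omega) t ht) v3
    fun k hk => by exact_mod_cast (z3.2 k hk).2 t ht).trans ?_
  have : ((16 * c : ℕ) : ℝ) ≤ 2 * P.mK + 2 := by exact_mod_cast hc
  gcongr

theorem Snt.md {W p x : ℕ} {v : ℕ → ℤ} (h : Snt W p x v) : Md W p x v := ⟨1, by rw [h, one_mul]⟩

/-- `n` rows of radial moments. -/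
def Wb (P : Par) (Q : Err) (n z : ℕ) (ω : ℕ → ℕ → ℝ) : Prop :=
  ∃ w, Md P.W (n * P.St) z w ∧ (∀ t < n * P.St, |w t| ≤ 2 ^ P.b2) ∧
    ∀ s < n, ∀ t < P.St, |(w (s * P.St + t) : ℝ) - ω s t| ≤ Q.e2

theorem cat3_at {α : Type} (n : ℕ) (u : ℕ → ℕ → α) {s t : ℕ} (hs : s < 3) (ht : t < n) :
    (fun j => if j < n then u 0 j else if j - n < n then u 1 (j - n) else u 2 (j - n - n))
      (s * n + t) = u s t := by
  beta_reduce
  interval_cases s
  · rw [if_pos (by omega), zero_mul, zero_add]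
  · rw [if_neg (by omega), if_pos (by omega), one_mul, Nat.add_sub_cancel_left]
  · rw [if_neg (by omega), if_neg (by omega), show 2 * n + t - n - n = t by omega]

theorem wblk_sound (h : Ok P Q) {c x y : ℕ} {M0 M1 M2 : Rows} {a a' : ℕ → ℝ}
    {m : ℕ → ℕ → ℕ → ℝ} {f : ℕ → Bool} (hf : wblk P c M0 M1 M2 x y f = true)
    (hx : Ang P c x a) (hy : Ang P c y a')
    (h0 : Mo P.W (P.St - P.mA) P.Km Q.nK Q.dm M0 (m 0))
    (h1 : Mo P.W (P.St - P.mA) P.Km Q.nK Q.dm M1 (m 1))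
    (h2 : Mo P.W (P.St - P.mA) P.Km Q.nK Q.dm M2 (m 2))
    (hc : 16 * c ≤ Q.nK) : ∃ z, f z = true ∧ Wb P Q 3 z fun s t =>
      (∑ k ∈ range (16 * c), (if s = 0 then a else a') k * ev P.mA (m s) k t) / 2 ^ P.s2 := by
  obtain ⟨w0, p0, q0⟩ := wrow_sound h hx h0 hc
  obtain ⟨w1, p1, q1⟩ := wrow_sound h hy h1 hc
  obtain ⟨w2, p2, q2⟩ := wrow_sound h hy h2 hc
  have hW : 0 < P.W := by have := h.s1; omega
  have hb : P.b2 + 2 ≤ P.W := (Nat.pow_le_pow_iff_right (by norm_num : 1 < 2)).1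
    ((Nat.le_add_left _ _).trans h.c5)
  have hv := vec_cat p0 (vec_cat p1 p2)
  rw [show P.St + (P.St + P.St) = 3 * P.St by ring] at hv
  obtain ⟨z, z1, z2, -⟩ := tight_sound hf hv (by omega) h.c5
  simp only [strict_eq, shl_eq, one_mul] at z1
  refine ⟨_, z1, _, (snt_sound hW z2 (Nat.pow_lt_pow_right (by norm_num) (by omega))).md,
    fun t ht => by exact_mod_cast z2.2 t ht, fun s hs t ht => ?_⟩
  have := cat3_at P.St (fun s => if s = 0 then w0 else if s = 1 then w1 else w2) hs ht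
  simp only [if_true, one_ne_zero, if_false, OfNat.ofNat_ne_zero, OfNat.ofNat_ne_one] at this
  rw [this]
  interval_cases s
  · exact q0 t ht
  · exact q1 t ht
  · exact q2 t ht

theorem wseg_sound (h : Ok P Q) {c x : ℕ} {M : Rows} {a : ℕ → ℝ} {m : ℕ → ℕ → ℝ} {f : ℕ → Bool}
    (hf : wseg P c M x f = true) (hx : Ang P c x a)
    (hM : Mz P.W (P.St - P.mA) P.Km Q.nK Q.dm M m) (hc : 16 * c ≤ Q.nK) :
    ∃ z, f z = true ∧ Wb P Q 1 z fun _ t =>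
      (∑ k ∈ range (16 * c), a k * ev P.mA m k t) / 2 ^ P.s2 := by
  cases M with
  | nil =>
    refine ⟨0, hf, fun _ => 0, ⟨0, by simp [pk]⟩, fun _ _ => by simp, fun _ _ t _ => ?_⟩
    have : ∑ k ∈ range (16 * c), a k * ev P.mA m k t = 0 := sum_eq_zero fun k hk => by
      rcases hM with ⟨z, ⟨e, -⟩, -⟩ | ⟨-, e⟩
      · change 0 = _ at e
        have := mem_range.1 hk
        omega
      · rw [ev, e, mul_zero]
    simp [this]
  | cons =>
    obtain hM | ⟨e, -⟩ := hM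
    · obtain ⟨w, p, q⟩ := wrow_sound h hx hM hc
      have hW : 0 < P.W := by have := h.s1; omega
      have hb : P.b2 + 2 ≤ P.W := (Nat.pow_le_pow_iff_right (by norm_num : 1 < 2)).1
        ((Nat.le_add_left _ _).trans h.c5)
      obtain ⟨z, z1, z2, -⟩ := tight_sound (e := P.b2) (f := fun z => strict
        (snt P.W P.St (Nat.shiftLeft 1 P.b2) z) f) hf p (by omega) h.c5
      simp only [strict_eq, shl_eq, one_mul] at z1
      refine ⟨_, z1, w, ?_⟩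
      rw [one_mul]
      exact ⟨(snt_sound hW z2 (Nat.pow_lt_pow_right (by norm_num) (by omega))).md,
        fun t ht => by exact_mod_cast z2.2 t ht, fun s hs t ht => by
          rw [show s = 0 by omega, zero_mul, zero_add]; exact q t ht⟩
    · cases e

theorem cv_win {m n l s b : ℕ} (u w : ℕ → ℝ) (hs : s < l) (hb : b < n) :
    cv (2 * m + 1) (l * (2 * m + n)) u w (2 * m + s * (2 * m + n) + b) =
      ∑ i ∈ range (2 * m + 1), u i * w (s * (2 * m + n) + (2 * m + b - i)) := by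
  refine sum_congr rfl fun i hi => ?_
  have hi := mem_range.1 hi
  have : (s + 1) * (2 * m + n) ≤ l * (2 * m + n) := Nat.mul_le_mul_right _ hs
  rw [add_mul] at this
  rw [if_pos (by omega)]
  congr 2
  omega

theorem cv_rad (h : Ok P Q) {l x z : ℕ} {e : Bool} {r : ℕ → ℝ} {ω : ℕ → ℕ → ℝ}
    (hx : Lau 0 P.W P.mA Q.Lr x e r) (hz : Wb P Q l z ω) : ∃ u w, Snt P.W (2 * P.mA + 1) x u ∧
      Md P.W (l * P.St) z w ∧
      (∀ j, |cv (2 * P.mA + 1) (l * P.St) u w j| ≤ 2 * Q.Lr * 2 ^ P.b2) ∧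
      ∀ s < l, ∀ b < 16 * P.cB,
        |((cv (2 * P.mA + 1) (l * P.St) u w (2 * P.mA + s * P.St + b) : ℤ) : ℝ) -
          ∑ i ∈ range (2 * P.mA + 1), lv P.mA e r i * ω s (2 * P.mA + b - i)| ≤
          2 * Q.Lr * Q.e2 := by
  obtain ⟨u, u1, u2, u3⟩ := hx
  obtain ⟨w, w1, w2, w3⟩ := hz
  have lu : ∑ i ∈ range (2 * P.mA + 1), |lv P.mA e u i| ≤ 2 * Q.Lr := by
    linarith [l1_lv P.mA e u]
  refine ⟨_, w, u1, w1, fun j => (cv_abs_le _ (by positivity) w2 j).trans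
    (mul_le_mul_of_nonneg_right lu (by positivity)), fun s hs b hb => ?_⟩
  rw [h.a2] at w2 w3 ⊢
  rw [cv_cast, cv_win _ _ hs hb]
  have : (s + 1) * (2 * P.mA + 16 * P.cB) ≤ l * (2 * P.mA + 16 * P.cB) :=
    Nat.mul_le_mul_right _ hs
  rw [add_mul] at this
  refine (dot_err (L := 2 * Q.Lr) (δ := Q.e2) (e := 0) (B := 2 ^ P.b2) (by positivity)
    (by exact_mod_cast lu) (fun k hk => w3 s hs _ (by omega))
    (fun k hk => by rw [lv_cast]; exact (lv_err e u3 hk).trans_eq (add_zero _))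
    fun k hk => by exact_mod_cast w2 _ (by omega)).trans (le_of_eq ?_)
  ring

/-- `x` holds the real vector `g` up to `e`. -/
def Apx (W p K x : ℕ) (g : ℕ → ℝ) (e : ℝ) : Prop :=
  ∃ v, Vec W p K x v ∧ ∀ n < p, |(v n : ℝ) - g n| ≤ e

theorem Apx.cat {W p q K x y : ℕ} {g g' : ℕ → ℝ} {e : ℝ} (h : Apx W p K x g e)
    (h' : Apx W q K y g' e) :
    Apx W (p + q) K (cat W p x y) (fun n => if n < p then g n else g' (n - p)) e := by
  obtain ⟨v, v1, v2⟩ := h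
  obtain ⟨w, w1, w2⟩ := h'
  refine ⟨_, vec_cat v1 w1, fun n hn => ?_⟩
  beta_reduce
  split_ifs with h1
  · exact v2 n h1
  · exact w2 _ (by omega)

theorem Apx.congr {W p K x : ℕ} {g g' : ℕ → ℝ} {e : ℝ} (h : Apx W p K x g e)
    (hg : ∀ n < p, g n = g' n) : Apx W p K x g' e :=
  let ⟨v, v1, v2⟩ := h
  ⟨v, v1, fun n hn => hg n hn ▸ v2 n hn⟩

/-- The radial factors `r` of a row times the moments. -/
def ym (P : Par) (r : ℕ → ℕ → ℝ) (ω : ℕ → ℕ → ℕ → ℝ) (s' b : ℕ) : ℝ :=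
  (∑ s ∈ range 3, ∑ i ∈ range (2 * P.mA + 1),
    lv P.mA false (r s) i * ω s s' (2 * P.mA + b - i)) / 2 ^ P.s3

theorem cnm_rad (h : Ok P Q) {l x0 x1 x2 w0 w1 w2 s : ℕ} {r : ℕ → ℕ → ℝ} {ω : ℕ → ℕ → ℕ → ℝ}
    (hx0 : Lau 0 P.W P.mA Q.Lr x0 false (r 0)) (hx1 : Lau 0 P.W P.mA Q.Lr x1 false (r 1))
    (hx2 : Lau 0 P.W P.mA Q.Lr x2 false (r 2)) (hw0 : Wb P Q l w0 (ω 0))
    (hw1 : Wb P Q l w1 (ω 1)) (hw2 : Wb P Q l w2 (ω 2)) (hs : s < l) :
    Apx P.W (16 * P.cB) P.E3 (rnd P.W P.s3 (2 * P.mA + s * P.St) (16 * P.cB)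
      (cnm x0 x1 x2 w0 w1 w2 (konp P (l * P.St) w0 w1 w2))) (ym P r ω s) Q.e3 := by
  obtain ⟨u0, z0, a0, b0, c0, d0⟩ := cv_rad h hx0 hw0
  obtain ⟨u1, z1, a1, b1, c1, d1⟩ := cv_rad h hx1 hw1
  obtain ⟨u2, z2, a2, b2, c2, d2⟩ := cv_rad h hx2 hw2
  have hW : 0 < P.W := by have := h.s1; omega
  have t : (s + 1) * P.St ≤ l * P.St := Nat.mul_le_mul_right _ hs
  have e2 := h.a2
  have e5 := h.a5
  have e6 := h.a6
  rw [add_mul] at t
  have hy := (cnm_sound (E := 2 ^ P.s3 * P.E3) hW (by omega) a0 a1 a2 b0 b1 b2).rnd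
    (d := 2 * P.mA + s * P.St) (q := 16 * P.cB) (fun j _ => by
      have t1 : 6 * (Q.Lr : ℤ) * 2 ^ P.b2 ≤ (2 ^ P.s3 * P.E3 : ℕ) := by exact_mod_cast h.d1
      linarith [abs_add_three (cv (2 * P.mA + 1) (l * P.St) u0 z0 j)
        (cv (2 * P.mA + 1) (l * P.St) u1 z1 j) (cv (2 * P.mA + 1) (l * P.St) u2 z2 j),
        c0 j, c1 j, c2 j]) h.s3 h.d2 (by omega)
  refine ⟨_, by simpa only [konp, Nat.mul_eq, Nat.add_eq, shl_eq, one_mul] using hy,
    fun b hb => rnd_err (δ := 6 * Q.Lr * Q.e2) ?_ (by exact_mod_cast h.d3)⟩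
  have f0 := abs_le.1 (d0 _ hs _ hb)
  have f1 := abs_le.1 (d1 _ hs _ hb)
  have f2 := abs_le.1 (d2 _ hs _ hb)
  simp only [Int.cast_add, sum_range_succ (n := 2), sum_range_succ (n := 1), sum_range_one]
  rw [abs_le]
  constructor <;> linarith [f0.1, f0.2, f1.1, f1.2, f2.1, f2.2]

/-- The nine rows of radial moments. -/
def Wk (P : Par) (Q : Err) (u : Wt) (ω : ℕ → ℕ → ℕ → ℝ) : Prop :=
  ∀ (x0 x1 x2 : ℕ) (r : ℕ → ℕ → ℝ), Lau 0 P.W P.mA Q.Lr x0 false (r 0) →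
    Lau 0 P.W P.mA Q.Lr x1 false (r 1) → Lau 0 P.W P.mA Q.Lr x2 false (r 2) →
    ∃ y0 y1 y2, mid P x0 x1 x2 (16 * P.cB) (2 * P.mA) u =
      cat P.W (16 * P.cB) y0 (cat P.W (16 * P.cB) y1 y2) ∧
      Apx P.W (16 * P.cB) P.E3 y0 (ym P r ω 0) Q.e3 ∧
      Apx P.W (16 * P.cB) P.E3 y1 (ym P r ω 1) Q.e3 ∧ Apx P.W (16 * P.cB) P.E3 y2 (ym P r ω 2) Q.e3

theorem Mz.mo {W p K n δ : ℕ} {M : Rows} {m : ℕ → ℕ → ℝ} (h : Mz W p K n δ M m)
    (e : isn M = false) : Mo W p K n δ M m :=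
  h.resolve_right fun g => by rw [g.1] at e; cases e

theorem isn3_false {A B C : Rows} (h : isn3 A B C = false) :
    isn A = false ∧ isn B = false ∧ isn C = false := by
  revert h
  rw [isn3]
  cases isn A <;> cases isn B <;> cases isn C <;> simp [cnd]

theorem wcol_sound (h : Ok P Q) {c x y : ℕ} {M0 M1 M2 : Rows} {a : Bool → ℕ → ℝ}
    {m : ℕ → ℕ → ℕ → ℝ} {f : ℕ → ℕ → ℕ → ℕ → Bool} (hf : wcol P c M0 M1 M2 x y f = true)
    (hx : Ang P c x (a false)) (hy : Ang P c y (a true))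
    (h0 : Mz P.W (P.St - P.mA) P.Km Q.nK Q.dm M0 (m 0))
    (h1 : Mz P.W (P.St - P.mA) P.Km Q.nK Q.dm M1 (m 1))
    (h2 : Mz P.W (P.St - P.mA) P.Km Q.nK Q.dm M2 (m 2)) (hc : 16 * c ≤ Q.nK) :
    ∃ u0 u1 u2 k, f u0 u1 u2 k = true ∧ ∀ (x0 x1 x2 : ℕ) (r : ℕ → ℕ → ℝ),
      Lau 0 P.W P.mA Q.Lr x0 false (r 0) → Lau 0 P.W P.mA Q.Lr x1 false (r 1) →
      Lau 0 P.W P.mA Q.Lr x2 false (r 2) → Apx P.W (16 * P.cB) P.E3
        (rnd P.W P.s3 (2 * P.mA) (16 * P.cB) (cnm x0 x1 x2 u0 u1 u2 k)) (ym P r (fun s _ t =>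
          (∑ k ∈ range (16 * c), a (s != 0) k * ev P.mA (m s) k t) / 2 ^ P.s2) 0) Q.e3 := by
  rw [wcol] at hf
  obtain ⟨u0, hf, p0⟩ := wseg_sound h hf hx h0 hc
  obtain ⟨u1, hf, p1⟩ := wseg_sound h hf hy h1 hc
  obtain ⟨u2, hf, p2⟩ := wseg_sound h hf hy h2 hc
  rw [strict_eq] at hf
  refine ⟨_, _, _, _, hf, fun x0 x1 x2 r g0 g1 g2 => ?_⟩
  have t := cnm_rad h g0 g1 g2 (ω := fun s _ t =>
    (∑ k ∈ range (16 * c), a (s != 0) k * ev P.mA (m s) k t) / 2 ^ P.s2) p0 p1 p2 one_pos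
  rwa [zero_mul, add_zero, one_mul] at t

theorem wcls_sound (h : Ok P Q) {c i j l : ℕ} {M : ℕ → ℕ → Rows} {x : Bool → Bool → ℕ}
    {a : Bool → Bool → ℕ → ℝ} {m : ℕ → ℕ → ℕ → ℕ → ℝ} {f : Wt → Bool}
    (hf : wcls P c M i j l (x false false) (x false true) (x true false) (x true true) f = true)
    (hx : ∀ e e', Ang P c (x e e') (a e e'))
    (h0 : ∀ s < 3, Mz P.W (P.St - P.mA) P.Km Q.nK Q.dm (M s i) (m s 0))
    (h1 : ∀ s < 3, Mz P.W (P.St - P.mA) P.Km Q.nK Q.dm (M s j) (m s 1))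
    (h2 : ∀ s < 3, Mz P.W (P.St - P.mA) P.Km Q.nK Q.dm (M s l) (m s 2))
    (hc : 16 * c ≤ Q.nK) : ∃ u, f u = true ∧ Wk P Q u fun s s' t =>
      (∑ k ∈ range (16 * c), a (s != 0) (s' != 0) k * ev P.mA (m s s') k t) / 2 ^ P.s2 := by
  have n0 : 0 < 3 := by norm_num
  have n1 : 1 < 3 := by norm_num
  have n2 : 2 < 3 := by norm_num
  rw [wcls] at hf
  generalize e : cnd (isn3 (M 0 i) (M 0 j) (M 0 l)) true _ = g at hf
  cases g
  · have e' : isn3 (M 0 i) (M 0 j) (M 0 l) = false ∧ isn3 (M 1 i) (M 1 j) (M 1 l) = false ∧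
        isn3 (M 2 i) (M 2 j) (M 2 l) = false := by
      revert e
      cases isn3 (M 0 i) (M 0 j) (M 0 l) <;> cases isn3 (M 1 i) (M 1 j) (M 1 l) <;>
        cases isn3 (M 2 i) (M 2 j) (M 2 l) <;> simp [cnd]
    obtain ⟨a0, a1, a2⟩ := isn3_false e'.1
    obtain ⟨b0, b1, b2⟩ := isn3_false e'.2.1
    obtain ⟨c0, c1, c2⟩ := isn3_false e'.2.2
    change wblk P c _ _ _ _ _ _ = true at hf
    obtain ⟨w0, hf, p0⟩ := wblk_sound h hf (hx _ _) (hx _ _) ((h0 0 n0).mo a0) ((h1 0 n0).mo a1)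
      ((h2 0 n0).mo a2) hc
    obtain ⟨w1, hf, p1⟩ := wblk_sound h hf (hx _ _) (hx _ _) ((h0 1 n1).mo b0) ((h1 1 n1).mo b1)
      ((h2 1 n1).mo b2) hc
    obtain ⟨w2, hf, p2⟩ := wblk_sound h hf (hx _ _) (hx _ _) ((h0 2 n2).mo c0) ((h1 2 n2).mo c1)
      ((h2 2 n2).mo c2) hc
    rw [strict_eq] at hf
    refine ⟨_, hf, fun x0 x1 x2 r g0 g1 g2 => ?_⟩
    have t := fun s hs => cnm_rad h (s := s) g0 g1 g2 (ω := fun s s' t =>
      (∑ k ∈ range (16 * c), (if s' = 0 then a (s != 0) false else a (s != 0) true) k *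
        ev P.mA (m s s') k t) / 2 ^ P.s2) p0 p1 p2 hs
    have t0 := t 0 n0
    have t1 := t 1 n1
    have t2 := t 2 n2
    rw [zero_mul, add_zero] at t0
    rw [one_mul] at t1
    rw [two_mul P.St, ← add_assoc] at t2
    exact ⟨_, _, _, rfl, t0, t1, t2⟩
  · change wcol P c _ _ _ _ _ _ = true at hf
    obtain ⟨u0, u1, u2, k0, hf, p0⟩ := wcol_sound h (a := fun e => a e false)
      (m := fun s => m s 0) hf (hx _ _) (hx _ _) (h0 0 n0) (h0 1 n1) (h0 2 n2) hc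
    obtain ⟨v0, v1, v2, k1, hf, p1⟩ := wcol_sound h (a := fun e => a e true)
      (m := fun s => m s 1) hf (hx _ _) (hx _ _) (h1 0 n0) (h1 1 n1) (h1 2 n2) hc
    obtain ⟨w0, w1, w2, k2, hf, p2⟩ := wcol_sound h (a := fun e => a e true)
      (m := fun s => m s 2) hf (hx _ _) (hx _ _) (h2 0 n0) (h2 1 n1) (h2 2 n2) hc
    exact ⟨_, hf, fun x0 x1 x2 r g0 g1 g2 =>
      ⟨_, _, _, rfl, p0 _ _ _ r g0 g1 g2, p1 _ _ _ r g0 g1 g2, p2 _ _ _ r g0 g1 g2⟩⟩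

theorem sum_three (n : ℕ) (f : ℕ → ℝ) :
    ∑ k ∈ range (3 * n), f k = ∑ s ∈ range 3, ∑ b ∈ range n, f (s * n + b) := by
  rw [show 3 * n = n + n + n by ring, sum_range_add, sum_range_add]
  simp only [sum_range_succ, range_zero, sum_empty, zero_mul, zero_add, one_mul, two_mul]

theorem piece_sound (h : Ok P Q) {x0 x1 x2 J S : ℕ} {u : Wt} {D : Rows} {r c : ℕ → ℕ → ℝ}
    {ω : ℕ → ℕ → ℕ → ℝ} (hx0 : Lau 0 P.W P.mA Q.Lr x0 false (r 0))
    (hx1 : Lau 0 P.W P.mA Q.Lr x1 false (r 1)) (hx2 : Lau 0 P.W P.mA Q.Lr x2 false (r 2))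
    (hu : Wk P Q u ω) (hD : Tg P.W J P.Kc (16 * P.dB) (3 * (16 * P.cB)) Q.Lc D c) (hS : S = D.sum) :
    Apx P.W J P.E4 (piece P x0 x1 x2 u J D S) (fun j => ∑ s ∈ range 3, ∑ b ∈ range (16 * P.cB),
      ym P r ω s b * c (s * (16 * P.cB) + b) j) Q.e4 := by
  obtain ⟨y0, y1, y2, e, p0, p1, p2⟩ := hu x0 x1 x2 r hx0 hx1 hx2
  obtain ⟨z, hz, hz1⟩ := p0.cat (p1.cat p2)
  obtain ⟨d, e1, e2, e3⟩ := hD
  have hW : 0 < P.W := by have := h.s1; omega
  rw [← e] at hz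
  set n := 16 * P.cB with hn
  rw [show n + (n + n) = 3 * n by ring] at hz hz1
  have a4 := h.a4
  have hz' := vec_cat hz (vec_zero hW (128 * P.dB - 3 * n) P.E3)
  rw [show 3 * n + (128 * P.dB - 3 * n) = 8 * (16 * P.dB) by omega] at hz'
  have hv := (vmg_sound (E := P.E4) hW hz' e1 hS h.d4 h.d5 h.d7).congr fun j _ =>
    (sum_subset (range_subset_range.2 (show 3 * n ≤ 8 * (16 * P.dB) by omega)) fun k _ hk => by
      rw [if_neg (mt mem_range.2 hk), zero_mul]).symm.trans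
      (sum_congr rfl fun k hk => by rw [if_pos (mem_range.1 hk)])
  refine ⟨_, by simpa only [piece, slt, strict_eq, Nat.mul_eq, Nat.add_eq, Nat.sub_eq, shl_eq, one_mul]
    using hv, fun j hj => ?_⟩
  have hn0 : ∀ k < 3 * n, 0 < n := fun k hk => by omega
  have t1 : ∑ s ∈ range 3, ∑ b ∈ range n, ym P r ω s b * c (s * n + b) j =
      ∑ k ∈ range (3 * n), c k j * ym P r ω (k / n) (k % n) := by
    rw [sum_three]
    refine sum_congr rfl fun s _ => sum_congr rfl fun b hb => ?_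
    have hb := mem_range.1 hb
    rw [mul_comm s, Nat.mul_add_div (by omega), Nat.div_eq_of_lt hb, add_zero, Nat.mul_add_mod,
      Nat.mod_eq_of_lt hb, mul_comm]
  beta_reduce
  rw [t1, Int.cast_sum, sum_congr rfl fun k _ => (Int.cast_mul _ _).trans (mul_comm _ _)]
  refine (dot_err (L := Q.Lc) (δ := Q.e3) (e := 0) (B := P.E3) (by positivity)
    (by exact_mod_cast e2 j hj) (fun k hk => ?_)
    (fun k hk => by rw [e3 k hk j hj, sub_self, abs_zero])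
    fun k hk => by exact_mod_cast hz.2 k hk).trans ?_
  · have t2 := cat3_at n (ym P r ω) ((Nat.div_lt_iff_lt_mul (hn0 k hk)).2 hk)
      (Nat.mod_lt k (hn0 k hk))
    rw [Nat.div_add_mod'] at t2
    exact t2 ▸ hz1 k hk
  · rw [zero_mul, mul_zero, add_zero]
    exact_mod_cast h.d6

end

end Pool.Agent.Lib.KBlk
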