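/-!
Numbers written in pieces of 63 bits.
-/

namespace Pool.Agent.Lib.KBlk

/-- The number with 2 pieces. -/
noncomputable def s2 (x0 x1 : Nat) : Nat :=
  Nat.add x0 (Nat.shiftLeft x1 (nat_lit 63))

/-- The number with 3 pieces. -/
noncomputable def s3 (x0 x1 x2 : Nat) : Nat :=
  Nat.add (Nat.add x0 (Nat.shiftLeft x1 (nat_lit 63))) (Nat.shiftLeft x2 (nat_lit 126))

/-- The number with 5 pieces. -/
noncomputable def s5 (x0 x1 x2 x3 x4 : Nat) : Nat :=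
  Nat.add (Nat.add (Nat.add x0 (Nat.shiftLeft x1 (nat_lit 63))) (Nat.shiftLeft x2 (nat_lit
  126))) (Nat.shiftLeft (Nat.add x3 (Nat.shiftLeft x4 (nat_lit 63))) (nat_lit 189))

/-- The number with 9 pieces. -/
noncomputable def s9 (x0 x1 x2 x3 x4 x5 x6 x7 x8 : Nat) : Nat :=
  Nat.add (Nat.add (Nat.add (Nat.add x0 (Nat.shiftLeft x1 (nat_lit 63))) (Nat.shiftLeft x2
  (nat_lit 126))) (Nat.shiftLeft (Nat.add x3 (Nat.shiftLeft x4 (nat_lit 63))) (nat_lit 189)))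
  (Nat.shiftLeft (Nat.add (Nat.add x5 (Nat.shiftLeft x6 (nat_lit 63))) (Nat.shiftLeft (Nat.add
  x7 (Nat.shiftLeft x8 (nat_lit 63))) (nat_lit 126))) (nat_lit 315))

/-- The number with 13 pieces. -/
noncomputable def s13 (x0 x1 x2 x3 x4 x5 x6 x7 x8 x9 x10 x11 x12 : Nat) : Nat :=
  Nat.add (Nat.add (Nat.add (Nat.add x0 (Nat.shiftLeft x1 (nat_lit 63))) (Nat.shiftLeft (Nat.add
  x2 (Nat.shiftLeft x3 (nat_lit 63))) (nat_lit 126))) (Nat.shiftLeft (Nat.add (Nat.add x4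
  (Nat.shiftLeft x5 (nat_lit 63))) (Nat.shiftLeft x6 (nat_lit 126))) (nat_lit 252)))
  (Nat.shiftLeft (Nat.add (Nat.add (Nat.add x7 (Nat.shiftLeft x8 (nat_lit 63))) (Nat.shiftLeft
  x9 (nat_lit 126))) (Nat.shiftLeft (Nat.add (Nat.add x10 (Nat.shiftLeft x11 (nat_lit 63)))
  (Nat.shiftLeft x12 (nat_lit 126))) (nat_lit 189))) (nat_lit 441))

/-- The number with 17 pieces. -/
noncomputable def s17 (x0 x1 x2 x3 x4 x5 x6 x7 x8 x9 x10 x11 x12 x13 x14 x15 x16 : Nat) : Nat :=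
  Nat.add (Nat.add (Nat.add (Nat.add (Nat.add x0 (Nat.shiftLeft x1 (nat_lit 63))) (Nat.shiftLeft
  x2 (nat_lit 126))) (Nat.shiftLeft (Nat.add x3 (Nat.shiftLeft x4 (nat_lit 63))) (nat_lit 189)))
  (Nat.shiftLeft (Nat.add (Nat.add x5 (Nat.shiftLeft x6 (nat_lit 63))) (Nat.shiftLeft (Nat.add
  x7 (Nat.shiftLeft x8 (nat_lit 63))) (nat_lit 126))) (nat_lit 315))) (Nat.shiftLeft (Nat.add
  (Nat.add (Nat.add x9 (Nat.shiftLeft x10 (nat_lit 63))) (Nat.shiftLeft (Nat.add x11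
  (Nat.shiftLeft x12 (nat_lit 63))) (nat_lit 126))) (Nat.shiftLeft (Nat.add (Nat.add x13
  (Nat.shiftLeft x14 (nat_lit 63))) (Nat.shiftLeft (Nat.add x15 (Nat.shiftLeft x16 (nat_lit
  63))) (nat_lit 126))) (nat_lit 252))) (nat_lit 567))

end Pool.Agent.Lib.KBlk
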