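import Pool.Agent.Lib.KLA.Vec
import Pool.Agent.Lib.KBlk.Defs

/-!
The meaning of the elementary operations.
-/

namespace Pool.Agent.Lib.KBlk

open Finset Pool.Agent.Lib.KLA

variable {W p K n x y : ℕ} {v w : ℕ → ℤ}

theorem rtake_len (R : Rows) : ∀ m, 16 * m ≤ R.len → (rtake R m).len = 16 * m := by
  induction R with
  | nil => intro m h; have : m = 0 := by (change 16 * m ≤ 0 at h; omega)
           subst this; rfl
  | cons a0 a1 a2 a3 a4 a5 a6 a7 a8 a9 a10 a11 a12 a13 a14 a15 u ih =>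
    intro m h
    cases m with
    | zero => rfl
    | succ m =>
      rw [len_cons] at h
      change (Rows.cons a0 a1 a2 a3 a4 a5 a6 a7 a8 a9 a10 a11 a12 a13 a14 a15 (rtake u m)).len = _
      rw [len_cons, ih m (by omega)]
      ring

theorem rtake_get (R : Rows) : ∀ m k, k < 16 * m → (rtake R m).get k = R.get k := by
  induction R with
  | nil => intro m k _; rfl
  | cons a0 a1 a2 a3 a4 a5 a6 a7 a8 a9 a10 a11 a12 a13 a14 a15 u ih =>
    intro m k h
    cases m with
    | zero => omega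
    | succ m =>
      change (Rows.cons a0 a1 a2 a3 a4 a5 a6 a7 a8 a9 a10 a11 a12 a13 a14 a15 (rtake u m)).get k = _
      rw [get_cons, get_cons]
      split_ifs with h1
      · exact ih m _ (by omega)
      · rfl

theorem rdrop_len (R : Rows) : ∀ m, (rdrop R m).len = R.len - 16 * m := by
  induction R with
  | nil => intro m; change 0 = 0 - _; omega
  | cons a0 a1 a2 a3 a4 a5 a6 a7 a8 a9 a10 a11 a12 a13 a14 a15 u ih =>
    intro m
    cases m with
    | zero => rfl
    | succ m =>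
      change (rdrop u m).len = _
      rw [len_cons, ih m]
      omega

theorem rdrop_get (R : Rows) : ∀ m k, (rdrop R m).get k = R.get (16 * m + k) := by
  induction R with
  | nil => intro m k; rfl
  | cons a0 a1 a2 a3 a4 a5 a6 a7 a8 a9 a10 a11 a12 a13 a14 a15 u ih =>
    intro m k
    cases m with
    | zero => rw [mul_zero, zero_add]; rfl
    | succ m =>
      change (rdrop u m).get k = _
      rw [ih m, show 16 * (m + 1) + k = 16 + (16 * m + k) by ring, get_cons_add]

theorem rgen_len (f : ℕ → ℕ) : ∀ n i, (rgen f n i).len = 16 * n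
  | 0, _ => rfl
  | n + 1, i => by
    change (Rows.cons _ _ _ _ _ _ _ _ _ _ _ _ _ _ _ _ (rgen f n (i + 16))).len = _
    rw [len_cons, rgen_len f n]
    ring

theorem rgen_get (f : ℕ → ℕ) : ∀ n i k, k < 16 * n → (rgen f n i).get k = f (i + k)
  | 0, _, _, h => by omega
  | n + 1, i, k, h => by
    change (Rows.cons (f (i + 0)) (f (i + 1)) (f (i + 2)) (f (i + 3)) (f (i + 4)) (f (i + 5))
      (f (i + 6)) (f (i + 7)) (f (i + 8)) (f (i + 9)) (f (i + 10)) (f (i + 11)) (f (i + 12))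
      (f (i + 13)) (f (i + 14)) (f (i + 15)) (rgen f n (i + 16))).get k = _
    rw [get_cons]
    split_ifs with h1
    · rw [rgen_get f n _ _ (by omega)]
      congr 1
      omega
    · have h2 : k < 16 := by omega
      interval_cases k <;> rfl

theorem mat_rtake {D : Rows} {c : ℕ → ℕ → ℤ} (h : Mat W p K n D c) {m : ℕ} (hm : 16 * m ≤ n) :
    Mat W p K (16 * m) (rtake D m) c :=
  ⟨rtake_len D m (h.1 ▸ hm), fun k hk => by rw [rtake_get D m k hk]; exact h.2 k (by omega)⟩

theorem mat_rdrop {D : Rows} {c : ℕ → ℕ → ℤ} (h : Mat W p K n D c) (m : ℕ) :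
    Mat W p K (n - 16 * m) (rdrop D m) fun k => c (16 * m + k) :=
  ⟨by rw [rdrop_len, h.1], fun k hk => by rw [rdrop_get]; exact h.2 _ (by omega)⟩

theorem mat_rgen {f : ℕ → ℕ} {c : ℕ → ℕ → ℤ} {m : ℕ} (h : ∀ k < 16 * m, Vec W p K (f k) (c k)) :
    Mat W p K (16 * m) (rgen f m 0) c :=
  ⟨rgen_len f m 0, fun k hk => by rw [rgen_get f m 0 k hk, zero_add]; exact h k hk⟩

theorem colRA_eq (W s : ℕ) (A : Rows) : ∀ acc : ℕ, (colRA W s (low W) (W * 16) A acc : ℤ) =
    acc * 2 ^ (W * A.len) + pk W A.len fun k => bits (A.get (A.len - 1 - k)) s W := by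
  induction A with
  | nil => intro acc; change (acc : ℤ) = acc * 2 ^ (W * 0) + pk W 0 _; simp [pk]
  | cons a0 a1 a2 a3 a4 a5 a6 a7 a8 a9 a10 a11 a12 a13 a14 a15 u ih =>
    intro acc
    change (colRA W s (low W) (W * 16) u (Nat.add (Nat.shiftLeft acc (W * 16)) _) : ℤ) = _
    rw [ih, len_cons, pk_split]
    have e1 : (pk W u.len fun k => (bits ((Rows.cons a0 a1 a2 a3 a4 a5 a6 a7 a8 a9 a10 a11 a12 a13
        a14 a15 u).get (u.len + 16 - 1 - k)) s W : ℤ)) =
        pk W u.len fun k => bits (u.get (u.len - 1 - k)) s W :=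
      pk_congr fun j hj => by
        rw [show u.len + 16 - 1 - j = 16 + (u.len - 1 - j) by omega, get_cons_add]
    have e2 : (pk W 16 fun j => (bits ((Rows.cons a0 a1 a2 a3 a4 a5 a6 a7 a8 a9 a10 a11 a12 a13
        a14 a15 u).get (u.len + 16 - 1 - (u.len + j))) s W : ℤ)) =
        pk W 16 fun j => bits ((Rows.cons a0 a1 a2 a3 a4 a5 a6 a7 a8 a9 a10 a11 a12 a13
        a14 a15 u).get (15 - j)) s W :=
      pk_congr fun j hj => by rw [show u.len + 16 - 1 - (u.len + j) = 15 - j by omega]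
    rw [e1, e2]
    simp only [land_shr, shl_eq, Nat.add_eq, pk, sum_range_succ, range_zero, sum_empty, get_cons]
    norm_num
    ring

theorem vec_colR {q d : ℕ} {A : Rows} {a : ℕ → ℕ → ℤ} (hA : Mat W q K n A a) (hd : d < q)
    (hK : 2 * K < 2 ^ W) : Vec W n K (colR W d A) fun k => a (n - 1 - k) d := by
  refine ⟨(colRA_eq W (W * d) A 0).trans ?_, fun k hk => (hA.2 _ (by omega)).2 d hd⟩
  rw [hA.1, Nat.cast_zero, zero_mul, zero_add]
  exact pk_congr fun k hk => (hA.2 _ (by omega)).ent hK hd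

theorem rslA_eq (W V : ℕ) : ∀ n x : ℕ,
    (rslA W V (low W) (W * 16) (V * 16) (low (W * 16)) n x : ℤ) =
      pk V (16 * n) fun j => (bits x (W * j) W : ℤ)
  | 0, _ => rfl
  | n + 1, x => by
    change ((rcell W V (low W) (Nat.land x (low (W * 16))) +
      Nat.shiftLeft (rslA W V (low W) (W * 16) (V * 16) (low (W * 16)) n
        (Nat.shiftRight x (W * 16))) (V * 16) : ℕ) : ℤ) = _
    rw [show 16 * (n + 1) = 16 + 16 * n by ring, pk_split, shl_eq, Nat.cast_add, Nat.cast_mul,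
      rslA_eq W V n]
    congr 1
    · rw [pk_congr (w := fun j => (bits (x % 2 ^ (W * 16)) (W * j) W : ℤ)) fun j hj => by
          rw [bits_mod (by nlinarith)], land_low]
      generalize x % 2 ^ (W * 16) = a
      simp only [rcell, land_low, shr_eq, shl_eq, Nat.add_eq, Nat.div_div_eq_div_mul,
        ← pow_add, bits, pk, sum_range_succ, range_zero, sum_empty, mul_zero, pow_zero, Nat.div_one]
      push_cast
      ring_nf
    · push_cast
      congr 1
      exact pk_congr fun j _ => by rw [shr_eq, bits_div, mul_add]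

theorem pk_ext (W p q : ℕ) (u : ℕ → ℤ) :
    pk W p u = pk W (p + q) fun j => if j < p then u j else 0 := by
  rw [pk_split]
  have : pk W q (fun j => if p + j < p then u (p + j) else 0) = 0 := by
    simp [pk]
  rw [this, zero_mul, add_zero]
  exact pk_congr fun j hj => by rw [if_pos hj]

/-- Another width of the slots. -/
theorem vec_rsl {V m : ℕ} (h : Vec W p K x v) (hK : 2 * K < 2 ^ W) (hm : p ≤ 16 * m) :
    Vec V p K (rsl W V m x) v := by
  refine ⟨(rslA_eq W V m x).trans ?_, h.2⟩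
  obtain ⟨q, hq⟩ := Nat.exists_eq_add_of_le hm
  have h1 := h.1
  rw [pk_ext W p q] at h1
  rw [pk_ext V p q, hq]
  refine pk_congr fun j hj => bits_pk le_rfl h1 (fun j _ => ?_) j hj
  split_ifs with h2
  · exact h.dig hK h2
  · exact ⟨le_rfl, by positivity⟩

theorem vec_cat {q : ℕ} (h : Vec W p K x v) (h' : Vec W q K y w) :
    Vec W (p + q) K (cat W p x y) fun j => if j < p then v j else w (j - p) := by
  refine ⟨?_, fun j hj => ?_⟩
  · rw [cat, Nat.add_eq, shl_eq, Nat.mul_eq, Nat.cast_add, Nat.cast_mul, h.1, h'.1, pk_split]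
    congr 1
    · exact pk_congr fun j hj => by beta_reduce; rw [if_pos hj]
    · push_cast
      congr 1
      exact pk_congr fun j _ => by rw [if_neg (by omega), Nat.add_sub_cancel_left]
  · beta_reduce
    split_ifs with h1
    · exact h.2 j h1
    · exact h'.2 _ (by omega)

/-- `x` holds the signed digits `v j`, `j < p`, and a leading one. -/
def Snt (W p x : ℕ) (v : ℕ → ℤ) : Prop := (x : ℤ) = pk W p v + 2 ^ (W * p)

theorem Snt.congr (h : Snt W p x v) (e : ∀ j < p, v j = w j) : Snt W p x w := by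
  rw [Snt, h, pk_congr e]

theorem pk_lower (hW : 0 < W) (h : ∀ j < p, |v j| < 2 ^ W) : 0 ≤ pk W p v + 2 ^ (W * p) := by
  have h1 : 0 ≤ pk W p fun j => v j + (2 ^ W - 1) :=
    pk_nonneg fun j hj => by linarith [(abs_lt.1 (h j hj)).1]
  rw [← pk_add, pk_const hW, ones_eq hW] at h1
  have h2 : ((2 : ℤ) ^ W - 1) * pk W p (fun _ => 1) = 2 ^ (W * p) - 1 := by
    simp only [pk, one_mul, pow_mul]
    rw [mul_comm, geom_sum_mul]
  linarith

theorem cast_sub_of {a b : ℕ} {z : ℤ} (h : (a : ℤ) - b = z) (hz : 0 ≤ z) :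
    ((Nat.sub a b : ℕ) : ℤ) = z := by
  rw [← h] at hz ⊢
  exact Nat.cast_sub (by exact_mod_cast sub_nonneg.1 hz)

theorem snt_sound (hW : 0 < W) (h : Vec W p K x v) (hK : K < 2 ^ W) : Snt W p (snt W p K x) v := by
  refine cast_sub_of ?_ (pk_lower hW fun j hj => (h.2 j hj).trans_lt (by exact_mod_cast hK))
  simp only [Nat.add_eq, Nat.mul_eq, shl_eq]
  push_cast
  rw [h.1, ← pk_add, pk_const hW]
  ring

/-- The even or odd continuation of `a` to the indices `m, ..., -m`. -/
def lv {α : Type} [Ring α] (m : ℕ) (e : Bool) (a : ℕ → α) (u : ℕ) : α :=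
  (if u ≤ m then a (m - u) else 0) + if m ≤ u then (if e then -a (u - m) else a (u - m)) else 0

theorem pk_lv (W m : ℕ) (e : Bool) (a : ℕ → ℤ) : pk W (2 * m + 1) (lv m e a) =
    pk W (m + 1) (fun u => a (m - u)) +
      pk W (m + 1) (fun u => if e then -a u else a u) * 2 ^ (W * m) := by
  unfold lv
  rw [← pk_add]
  congr 1
  · rw [pk_ext W (m + 1) m, show m + 1 + m = 2 * m + 1 by ring]
    exact pk_congr fun j _ => by simp only [Nat.lt_succ_iff]
  · rw [show 2 * m + 1 = m + (m + 1) by ring, pk_split]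
    have : pk W m (fun u => if m ≤ u then (if e then -a (u - m) else a (u - m)) else 0) = 0 :=
      sum_eq_zero fun j hj => by
        beta_reduce; rw [if_neg (by have := mem_range.1 hj; omega), zero_mul]
    rw [this, zero_add]
    congr 1
    exact pk_congr fun j _ => by rw [if_pos (by omega), Nat.add_sub_cancel_left]

theorem lau_sound {q d m : ℕ} {A : Rows} {a : ℕ → ℕ → ℤ} (hA : Mat W q K (m + 1) A a) (hd : d < q)
    (hW : 0 < W) (hK : 2 * K < 2 ^ W) (e : Bool) :
    Snt W (2 * m + 1) (lau W m K e d A) (lv m e fun k => a k d) := by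
  have h1 := (vec_colR hA hd hK).1
  have h2 := (hA.col hd hK).1
  have h0 : 0 ≤ pk W (2 * m + 1) (lv m e fun k => a k d) + 2 ^ (W * (2 * m + 1)) := by
    refine pk_lower hW fun j hj => ?_
    have hK' : 2 * (K : ℤ) < 2 ^ W := by exact_mod_cast hK
    have t1 : |if j ≤ m then a (m - j) d else 0| ≤ K := by
      split_ifs
      · exact (hA.2 _ (by omega)).2 d hd
      · simp
    have t2 : |if m ≤ j then (if e then -a (j - m) d else a (j - m) d) else 0| ≤ K := by
      split_ifs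
      · rw [abs_neg]; exact (hA.2 _ (by omega)).2 d hd
      · exact (hA.2 _ (by omega)).2 d hd
      · simp
    exact ((abs_add_le _ _).trans (add_le_add t1 t2)).trans_lt (by linarith)
  rw [← pk_add, pk_const hW] at h1 h2
  simp only [Nat.add_sub_cancel] at h1
  rw [Snt, lau]
  simp only [strict_eq]
  cases e
  · refine cast_sub_of ?_ h0
    simp only [Nat.add_eq, Nat.mul_eq, shl_eq, pk_lv]
    push_cast
    rw [h1, h2]
    ring
  · refine cast_sub_of ?_ h0
    simp only [Nat.add_eq, Nat.mul_eq, shl_eq, pk_lv]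
    push_cast
    rw [h1, h2]
    have : pk W (m + 1) (fun u => -a u d) = -pk W (m + 1) fun u => a u d := by
      simp only [pk, neg_mul, sum_neg_distrib]
    simp only [this]
    ring

/-- The convolution of vectors of lengths `r` and `p`. -/
def cv {α : Type} [Ring α] (r p : ℕ) (u v : ℕ → α) (n : ℕ) : α :=
  ∑ i ∈ range r, if i ≤ n ∧ n - i < p then u i * v (n - i) else 0

theorem pk_mul_pk (W r p : ℕ) (u v : ℕ → ℤ) :
    pk W r u * pk W p v = pk W (r + p) (cv r p u v) := by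
  unfold cv
  rw [← pk_sum]
  nth_rewrite 1 [pk]
  rw [sum_mul]
  refine sum_congr rfl fun i hi => ?_
  have hi := mem_range.1 hi
  rw [show r + p = i + (p + (r - i)) by omega, pk_split]
  have h0 : pk W i (fun n => if i ≤ n ∧ n - i < p then u i * v (n - i) else 0) = 0 :=
    sum_eq_zero fun j hj => by
        beta_reduce; rw [if_neg (by have := mem_range.1 hj; omega), zero_mul]
  have h1 : pk W (p + (r - i))
      (fun j => if i ≤ i + j ∧ i + j - i < p then u i * v (i + j - i) else 0) =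
      pk W p fun j => u i * v j := by
    rw [pk_ext W p (r - i)]
    exact pk_congr fun j _ => by simp
  rw [h0, h1, ← pk_mul]
  ring

theorem vec_of {E a b : ℕ} (h : (a : ℤ) - b = pk W p fun j => v j + E) (hv : ∀ j < p, |v j| ≤ E) :
    Vec W p E (Nat.sub a b) v :=
  ⟨cast_sub_of h (pk_nonneg fun j hj => by linarith [(abs_le.1 (hv j hj)).1]), hv⟩

theorem cnv_sound {r E : ℕ} (hW : 0 < W) (hx : Snt W r x v) (hy : Snt W p y w)
    (hb : ∀ j < r + p, |cv r p v w j| ≤ E) : Vec W (r + p) E (cnv W r p E x y) (cv r p v w) := by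
  refine vec_of ?_ hb
  simp only [Nat.add_eq, Nat.mul_eq, shl_eq]
  push_cast
  rw [hx, hy, ← pk_add, pk_const hW, ← pk_mul_pk, mul_add W, pow_add]
  ring

theorem mad_eq (x y a : ℕ) : mad x y a = x * y + a := by
  rw [mad]
  cases h : Nat.beq y 0
  · rfl
  · rw [Nat.eq_of_beq_eq_true h, mul_zero, zero_add]
    rfl

/-- The first `p` digits of `x` are the `v j`. -/
def Md (W p x : ℕ) (v : ℕ → ℤ) : Prop := ∃ t : ℤ, (x : ℤ) = pk W p v + t * 2 ^ (W * p)

theorem Md.rnd {s d q : ℕ} (h : Md W p x fun j => v j + (2 ^ s * K : ℕ))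
    (hv : ∀ j < p, |v j| ≤ (2 ^ s * K : ℕ)) (hs : s < W) (hK : 2 * (2 ^ s * K) < 2 ^ W)
    (hq : d + q ≤ p) : Vec W q K (rnd W s d q x) fun j => v (d + j) / 2 ^ s := by
  have hW : 0 < W := by omega
  obtain ⟨t, h⟩ := h
  have hK' : 2 * ((2 ^ s * K : ℕ) : ℤ) < 2 ^ W := by exact_mod_cast hK
  have h0 : 0 ≤ pk W p fun j => v j + (2 ^ s * K : ℕ) :=
    pk_nonneg fun j hj => by linarith [(abs_le.1 (hv j hj)).1]
  have h1 : 0 ≤ pk W p fun j => (2 ^ W - 1) * 1 - (v j + (2 ^ s * K : ℕ)) :=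
    pk_nonneg fun j hj => by linarith [(abs_le.1 (hv j hj)).2]
  have h2 : ((2 : ℤ) ^ W - 1) * pk W p (fun _ => 1) = 2 ^ (W * p) - 1 := by
    simp only [pk, one_mul, pow_mul]
    rw [mul_comm, geom_sum_mul]
  rw [← pk_sub, ← pk_mul, h2] at h1
  have h3 : Vec W p (2 ^ s * K) (x % 2 ^ (W * p)) v := ⟨by
    rw [Int.natCast_mod, h, Nat.cast_pow, Nat.cast_two, Int.add_mul_emod_self_right,
      Int.emod_eq_of_lt h0 (by linarith)], hv⟩
  have h4 : KLA.rnd W s d q (x % 2 ^ (W * p)) = KLA.rnd W s d q x := by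
    refine Nat.cast_injective (R := ℤ) ((land_shr_msk hW (Nat.sub_le _ _) _ _ _).trans
      ((pk_congr fun j hj => ?_).trans (land_shr_msk hW (Nat.sub_le _ _) _ _ _).symm))
    have : W * (d + j + 1) ≤ W * p := Nat.mul_le_mul_left _ (by omega)
    rw [bits_mod]
    simp only [Nat.add_eq, Nat.mul_eq, mul_add] at this ⊢
    omega
  exact h4 ▸ h3.rnd hs hK hq

theorem cnm_sound {r E x0 x1 x2 y0 y1 y2 : ℕ} {v0 v1 v2 w0 w1 w2 : ℕ → ℤ} (hW : 0 < W)
    (hr : r ≤ p) (hx0 : Snt W r x0 v0) (hx1 : Snt W r x1 v1) (hx2 : Snt W r x2 v2)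
    (hy0 : Md W p y0 w0) (hy1 : Md W p y1 w1) (hy2 : Md W p y2 w2) :
    Md W p (cnm x0 x1 x2 y0 y1 y2 (kon W r p E y0 y1 y2))
      fun j => cv r p v0 w0 j + cv r p v1 w1 j + cv r p v2 w2 j + E := by
  have key : ∀ {x y : ℕ} {v w : ℕ → ℤ}, Snt W r x v → Md W p y w →
      ∃ t : ℤ, (x : ℤ) * y = pk W p (cv r p v w) + t * 2 ^ (W * p) + y * 2 ^ (W * r) :=
    fun {x y v w} hx ⟨t, hy⟩ => by
      have := pk_mul_pk W r p v w
      rw [add_comm r, pk_split] at this
      refine ⟨pk W r (fun j => cv r p v w (p + j)) + pk W r v * t, ?_⟩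
      rw [hx, add_mul, mul_comm (2 ^ (W * r) : ℤ), add_left_inj, hy, mul_add, this]
      ring
  obtain ⟨t0, e0⟩ := key hx0 hy0
  obtain ⟨t1, e1⟩ := key hx1 hy1
  obtain ⟨t2, e2⟩ := key hx2 hy2
  have h1 : (y0 + y1 + y2) * 2 ^ (W * r) ≤ E * ones W p + (y0 + y1 + y2) * 2 ^ (W * p) :=
    le_add_left (by gcongr; norm_num)
  set A := E * ones W p + (y0 + y1 + y2) * 2 ^ (W * p) - (y0 + y1 + y2) * 2 ^ (W * r) with hA
  have h2 : kon W r p E y0 y1 y2 = A % 2 ^ (W * p) := by
    simp only [kon, strict_eq, Nat.add_eq, Nat.mul_eq, Nat.sub_eq, shl_eq, land_low, hA]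
  have h3 : ((A % 2 ^ (W * p) : ℕ) : ℤ) = A - 2 ^ (W * p) * (A / 2 ^ (W * p) : ℕ) := by
    rw [eq_sub_iff_add_eq]
    exact_mod_cast Nat.mod_add_div A _
  refine ⟨t0 + t1 + t2 + (y0 + y1 + y2) - (A / 2 ^ (W * p) : ℕ), ?_⟩
  rw [cnm, mad_eq, mad_eq, mad_eq, h2]
  simp only [Nat.cast_add, Nat.cast_mul]
  rw [h3, e0, e1, e2, ← pk_add, ← pk_add, ← pk_add, pk_const hW]
  generalize A / 2 ^ (W * p) = z
  rw [hA, Nat.cast_sub h1]
  push_cast
  ring

theorem vml_sound {V Kx E S : ℕ} {D : Rows} {c : ℕ → ℕ → ℤ} (hW : 0 < W) (hx : Vec V n Kx x v)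
    (hD : Mat W p K n D c) (hS : S = D.sum) (h1 : 2 * n * Kx + 1 < 2 ^ V)
    (hb : ∀ j < p, |∑ k ∈ range n, v k * c k j| ≤ E) :
    Vec W p E (vml V W p n Kx K E D S x) fun j => ∑ k ∈ range n, v k * c k j := by
  refine vec_of ?_ hb
  have hy : (dot V D x : ℤ) = ∑ k ∈ range n, (v k + Kx) * D.get k := by
    rw [dot_eq, hD.1]
    push_cast
    refine sum_congr rfl fun k hk => ?_
    have hk := mem_range.1 hk
    rw [hx.ent (by nlinarith) hk]
  have hσ : (dsum V x : ℤ) = ∑ k ∈ range n, (v k + Kx) :=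
    dsum_eq hx.1 (fun j hj => by linarith [(abs_le.1 (hx.2 j hj)).1]) (sum_off_lt hx.2 h1)
  simp only [Nat.add_eq, Nat.mul_eq]
  push_cast
  rw [hy, hσ, hS, hD.sum, ← pk_add, ← offset_dot hW Kx K v c, pk_const hW,
    sum_congr rfl fun k hk => by rw [(hD.2 k (mem_range.1 hk)).1]]
  ring

theorem vec_zero (hW : 0 < W) (p K : ℕ) : Vec W p K (Nat.mul K (ones W p)) fun _ => 0 :=
  ⟨by rw [Nat.mul_eq, Nat.cast_mul, ← pk_const hW]; simp, fun _ _ => by simp⟩

theorem pk_nest {c : ℕ} (hc : 0 < c) (W : ℕ) (g : ℕ → ℕ → ℤ) : ∀ n : ℕ,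
    pk (W * c) n (fun k => pk W c (g k)) = pk W (c * n) fun i => g (i / c) (i % c)
  | 0 => rfl
  | n + 1 => by
    rw [mul_add, mul_one, pk_split W (c * n), ← pk_nest hc W g n, pk, sum_range_succ, mul_assoc]
    congr 2
    exact pk_congr fun j hj => by
      rw [Nat.mul_add_div hc, Nat.div_eq_of_lt hj, add_zero, Nat.mul_add_mod, Nat.mod_eq_of_lt hj]

theorem bits_blk (hW : 0 < W) {u : ℕ → ℤ} (h : (x : ℤ) = pk W p u)
    (hu : ∀ j < p, 0 ≤ u j ∧ u j < 2 ^ W) {d q : ℕ} (hq : d + q ≤ p) :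
    (bits x (W * d) (W * q) : ℤ) = pk W q fun i => u (d + i) := by
  have h1 := round_pk hW h hu d q hq
  have h2 : msk W (W - 0) q = low (W * q) := by
    change low W * (low (W * q) / low W) = _
    refine Nat.mul_div_cancel' ?_
    rw [low_eq, low_eq, pow_mul]
    exact Nat.sub_one_dvd_pow_sub_one _ _
  rw [h2, land_shr, add_zero] at h1
  simpa using h1

theorem swp_eq (hW : 0 < W) {h n : ℕ} (h0 : 0 < h) {u : ℕ → ℤ} (hx : (x : ℤ) = pk W (2 * h * n) u)
    (hu : ∀ j < 2 * h * n, 0 ≤ u j ∧ u j < 2 ^ W) : (swp W h n x : ℤ) =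
      pk W (2 * h * n) fun i => u (if i % (2 * h) < h then i + h else i - h) := by
  have hV : 0 < W * (2 * h) := by positivity
  have hb : W * h ≤ W * (2 * h) := Nat.mul_le_mul_left _ (by omega)
  have hj : ∀ j < n, 2 * h * j + 2 * h ≤ 2 * h * n := fun j hj => Nat.mul_le_mul_left (2 * h) hj
  simp only [swp, strict_eq, Nat.add_eq, Nat.mul_eq, shl_eq]
  push_cast
  rw [land_shr_msk hV hb, land_msk hV hb, mul_comm (pk _ _ _), pk_mul, pk_add,
    pk_congr (w := fun k => pk W (2 * h) fun i => u (if i < h then 2 * h * k + i + h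
      else 2 * h * k + i - h)) fun k hk => ?_, pk_nest (by omega)]
  · exact pk_congr fun i _ => by rw [Nat.div_add_mod]
  · have := hj k hk
    rw [show W * h + W * (2 * h) * k = W * (2 * h * k + h) by ring, mul_assoc W,
      bits_blk hW hx hu (by omega), bits_blk hW hx hu (by omega), mul_comm (2 ^ (W * h) : ℤ)]
    generalize 2 * h * k = d
    rw [two_mul h, pk_split]
    congr 1
    · exact pk_congr fun i hi => by rw [if_pos hi, add_right_comm]
    · congr 1
      exact pk_congr fun i _ => by rw [if_neg (by omega), show d + (h + i) - h = d + i by omega]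

theorem rev8_eq (hW : 0 < W) {u : ℕ → ℤ} (hx : (x : ℤ) = pk W (8 * n) u)
    (hu : ∀ j < 8 * n, 0 ≤ u j ∧ u j < 2 ^ W) :
    (rev8 W n x : ℤ) = pk W (8 * n) fun i => u (8 * (i / 8) + (7 - i % 8)) := by
  have e1 : 8 * n = 2 * 1 * (4 * n) := by ring
  have e2 : 2 * 1 * (4 * n) = 2 * 2 * (2 * n) := by ring
  have e3 : 2 * 2 * (2 * n) = 2 * 4 * n := by ring
  rw [e1] at hx hu
  have h1 := swp_eq hW one_pos hx hu
  rw [e2] at h1 hu
  have h2 := swp_eq hW two_pos h1 fun j hj => hu _ (by split_ifs <;> omega)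
  rw [e3] at h2 hu
  have h3 := swp_eq hW four_pos h2 fun j hj => hu _ (by split_ifs <;> omega)
  refine h3.trans (pk_congr fun i _ => ?_)
  congr 1
  split_ifs <;> omega

theorem swp_rv (hW : 0 < W) {h n : ℕ} (h0 : 0 < h) {u : ℕ → ℤ} (hN : 256 = 2 * h * n)
    (hx : (x : ℤ) = pk W 256 fun i => u (h * (i / h) + (h - 1 - i % h)))
    (hu : ∀ j < 256, 0 ≤ u j ∧ u j < 2 ^ W) (h1 : ∀ i < 256, h * (i / h) + (h - 1 - i % h) < 256)
    (h2 : ∀ i j, j = (if i % (2 * h) < h then i + h else i - h) → h * (j / h) + (h - 1 - j % h) =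
      2 * h * (i / (2 * h)) + (2 * h - 1 - i % (2 * h))) : (swp W h n x : ℤ) =
      pk W 256 fun i => u (2 * h * (i / (2 * h)) + (2 * h - 1 - i % (2 * h))) := by
  have t := fun j hj => hu _ (h1 j hj)
  rw [hN] at hx t ⊢
  exact (swp_eq hW h0 hx t).trans (pk_congr fun i _ => congrArg u (h2 i _ rfl))

theorem vec_rev256 (hW : 0 < W) (hK : 2 * K < 2 ^ W) (h : Vec W 256 K x v) :
    Vec W 256 K (rev256 W x) fun i => v (255 - i) := by
  have hu : ∀ j < 256, 0 ≤ v j + K ∧ v j + K < 2 ^ W := fun j hj => h.dig hK hj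
  have h0 := rev8_eq (n := 32) hW h.1 hu
  have h1 := swp_rv (h := 8) (n := 16) hW (by norm_num) rfl h0 hu (by omega)
    (by intro i j; split_ifs <;> omega)
  have h2 := swp_rv (h := 16) (n := 8) hW (by norm_num) rfl h1 hu (by omega)
    (by intro i j; split_ifs <;> omega)
  have h3 := swp_rv (h := 32) (n := 4) hW (by norm_num) rfl h2 hu (by omega)
    (by intro i j; split_ifs <;> omega)
  have h4 := swp_rv (h := 64) (n := 2) hW (by norm_num) rfl h3 hu (by omega)
    (by intro i j; split_ifs <;> omega)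
  have h5 := swp_rv (h := 128) (n := 1) hW (by norm_num) rfl h4 hu (by omega)
    (by intro i j; split_ifs <;> omega)
  refine ⟨h5.trans (pk_congr fun i hi => ?_), fun j hj => h.2 _ (by omega)⟩
  congr 2
  omega

theorem vec_evn {m : ℕ} (hW : 0 < W) (hK : 2 * K < 2 ^ W) (h : Vec W p K x v) (hm : m ≤ 255)
    (hp : 256 ≤ p) : Vec W (m + p) K (evn W m x) fun t => v (if t < m then m - t else t - m) := by
  have h1 := (vec_rev256 hW hK (h.cut hW hK (d := 0) (q := 256) (by omega))).cut hW hK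
    (d := 255 - m) (q := m) (by omega)
  refine (vec_cat h1 h).congr fun t _ => ?_
  split_ifs with h2
  · congr 1
    omega
  · rfl

/-- The rows of `c`, in groups of eight. -/
def grp (c : ℕ → ℕ → ℤ) (k i : ℕ) : ℤ := c (8 * k + (7 - i % 8)) (i / 8)

theorem grp_blk {J j k : ℕ} {D : Rows} {c : ℕ → ℕ → ℤ} (hW : 0 < W)
    (hD : Mat W (8 * J) K n D (grp c)) (hK : 2 * K < 2 ^ W) (hj : j < J) (hk : k < n) :
    (bits (D.get k) (W * 8 * j) (W * 8) : ℤ) = pk W 8 fun v => c (8 * k + (7 - v)) j + K := by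
  rw [mul_assoc, bits_blk hW (hD.2 k hk).1 (fun _ h => (hD.2 k hk).dig hK h) (by omega)]
  exact pk_congr fun v hv => by
    rw [grp, show (8 * j + v) % 8 = v by omega, show (8 * j + v) / 8 = j by omega]

theorem grp_le {J j a : ℕ} {D : Rows} {c : ℕ → ℕ → ℤ} (hD : Mat W (8 * J) K n D (grp c))
    (hj : j < J) (ha : a < 8 * n) : |c a j| ≤ K := by
  have := (hD.2 (a / 8) (by omega)).2 (8 * j + (7 - a % 8)) (by omega)
  rwa [grp, show 8 * (a / 8) + (7 - (8 * j + (7 - a % 8)) % 8) = a by omega,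
    show (8 * j + (7 - a % 8)) / 8 = j by omega] at this

theorem vec_grp {J j : ℕ} {D : Rows} {c : ℕ → ℕ → ℤ} (hW : 0 < W)
    (hD : Mat W (8 * J) K n D (grp c)) (hK : 2 * K < 2 ^ W) (hj : j < J) :
    Vec W (8 * n) K (rev8 W n (col (W * 8) j D)) fun a => c a j := by
  have h1 : (col (W * 8) j D : ℤ) = _ := colA_eq (W * 8) (W * 8 * j) D
  rw [hD.1, pk_congr fun k hk => grp_blk hW hD hK hj hk, pk_nest (by norm_num)] at h1
  have hK' : 2 * (K : ℤ) < 2 ^ W := by exact_mod_cast hK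
  refine ⟨(rev8_eq hW h1 fun i hi => ?_).trans (pk_congr fun i _ => ?_),
    fun a ha => grp_le hD hj ha⟩
  · have := abs_le.1 (grp_le hD hj (a := 8 * (i / 8) + (7 - i % 8)) (by omega))
    constructor <;> linarith [this.1, this.2]
  · congr 2
    omega

theorem vec_grpR {J j : ℕ} {D : Rows} {c : ℕ → ℕ → ℤ} (hW : 0 < W)
    (hD : Mat W (8 * J) K n D (grp c)) (hK : 2 * K < 2 ^ W) (hj : j < J) :
    Vec W (8 * n) K (colR (W * 8) j D) fun a => c (8 * n - 1 - a) j := by
  have h1 : (colR (W * 8) j D : ℤ) = _ := colRA_eq (W * 8) (W * 8 * j) D 0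
  rw [hD.1, Nat.cast_zero, zero_mul, zero_add,
    pk_congr fun k hk => grp_blk hW hD hK hj (k := n - 1 - k) (by omega),
    pk_nest (by norm_num)] at h1
  refine ⟨h1.trans (pk_congr fun i hi => ?_), fun a ha => grp_le hD hj (by omega)⟩
  congr 2
  omega

theorem lav_sound {m r f : ℕ} {a : ℕ → ℤ} (hW : 0 < W) (hK : 2 * K < 2 ^ W)
    (hr : Vec W (m + 1) K r fun u => a (m - u)) (hf : Vec W (m + 1) K f a) :
    Snt W (2 * m + 1) (lav W m K r f) (lv m false a) := by
  have h1 := hr.1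
  have h2 := hf.1
  have h0 : 0 ≤ pk W (2 * m + 1) (lv m false a) + 2 ^ (W * (2 * m + 1)) := by
    refine pk_lower hW fun j hj => ?_
    have hK' : 2 * (K : ℤ) < 2 ^ W := by exact_mod_cast hK
    have t1 : |if j ≤ m then a (m - j) else 0| ≤ K := by
      split_ifs
      · exact hf.2 _ (by omega)
      · simp
    have t2 : |if m ≤ j then (if false then -a (j - m) else a (j - m)) else 0| ≤ K := by
      split_ifs with g1 g2
      · exact absurd g2 (by simp)
      · exact hf.2 _ (by omega)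
      · simp
    exact ((abs_add_le _ _).trans (add_le_add t1 t2)).trans_lt (by linarith)
  rw [← pk_add, pk_const hW] at h1 h2
  rw [Snt, lav]
  simp only [strict_eq]
  refine cast_sub_of ?_ h0
  simp only [Nat.add_eq, Nat.mul_eq, shl_eq, pk_lv]
  push_cast
  rw [h1, h2]
  ring

theorem vmg_sound {J Kx E S : ℕ} {D : Rows} {c : ℕ → ℕ → ℤ} (hW : 0 < W)
    (hx : Vec W (8 * n) Kx x v) (hD : Mat W (8 * J) K n D (grp c)) (hS : S = D.sum)
    (h1 : 2 * (n + 1) * Kx + 1 < 2 ^ W) (hb : 8 * n * (Kx * K) ≤ E) (hE : 2 * E < 2 ^ W) :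
    Vec W J E (vmg W J n Kx K E D S x) fun j => ∑ a ∈ range (8 * n), v a * c a j := by
  have hK : 2 * Kx < 2 ^ W := by nlinarith
  have hX : ∀ k < n, (bits x (W * 8 * k) (W * 8) : ℤ) = pk W 8 fun u => v (8 * k + u) + Kx :=
    fun k hk => by
      rw [mul_assoc, bits_blk hW hx.1 (fun _ h => hx.dig hK h) (by omega)]
  have hy : (dot (W * 8) D x : ℤ) =
      ∑ k ∈ range n, (pk W 8 fun u => v (8 * k + u) + Kx) * D.get k := by
    rw [dot_eq, hD.1]
    push_cast
    exact sum_congr rfl fun k hk => by rw [hX k (mem_range.1 hk)]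
  have hσ : (dsum (W * 8) x : ℤ) = ∑ k ∈ range n, pk W 8 fun u => v (8 * k + u) + Kx := by
    have d0 : ∀ k < n, ∀ u < 8, 0 ≤ v (8 * k + u) + Kx := fun k hk u hu =>
      (hx.dig hK (by omega)).1
    refine dsum_eq (p := n) ?_ (fun k hk => pk_nonneg (d0 k hk)) ?_
    · rw [hx.1, pk_nest (by norm_num)]
      exact pk_congr fun i _ => by rw [Nat.div_add_mod]
    · have t1 : 0 ≤ pk W 8 fun u => 2 ^ W - 2 - ∑ k ∈ range n, (v (8 * k + u) + Kx) :=
        pk_nonneg fun u hu => by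
          have := sum_off_lt (W := W) (n := n) (K := Kx) (a := fun k => v (8 * k + u))
            (fun k hk => hx.2 _ (by omega)) (by nlinarith)
          linarith
      have t2 : ((2 : ℤ) ^ W - 1) * pk W 8 (fun _ => 1) = 2 ^ (W * 8) - 1 := by
        simp only [pk, one_mul, pow_mul]
        rw [mul_comm, geom_sum_mul]
      have t3 : 1 ≤ pk W 8 fun _ => 1 := by
        rw [pk_succ]
        have : 0 ≤ pk W 7 fun _ => 1 := pk_nonneg fun _ _ => zero_le_one
        have : (0 : ℤ) ≤ 2 ^ W * pk W 7 fun _ => 1 := by positivity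
        linarith
      rw [← pk_sub, ← pk_sum, pk_const hW, ones_eq hW] at t1
      linarith
  set y : ℕ → ℤ := fun i => ∑ k ∈ range n, cv 8 (8 * J) (fun u => v (8 * k + u)) (grp c k) i
    with hyd
  have hyb : ∀ i, |y i| ≤ E := fun i => by
    have t : ∀ k < n, |cv 8 (8 * J) (fun u => v (8 * k + u)) (grp c k) i| ≤ 8 * (Kx * K) :=
      fun k hk => by
        refine (abs_sum_le_sum_abs _ _).trans ((sum_le_card_nsmul _ _ (Kx * K : ℤ)
          fun u hu => ?_).trans (by simp))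
        split_ifs with g
        · rw [abs_mul]
          exact mul_le_mul (hx.2 _ (by have := mem_range.1 hu; omega)) ((hD.2 k hk).2 _ g.2)
            (abs_nonneg _) (by positivity)
        · rw [abs_zero]
          positivity
    have t1 := sum_le_card_nsmul (range n) _ _ fun k hk => t k (mem_range.1 hk)
    have t2 : 8 * (n : ℤ) * (Kx * K) ≤ E := by exact_mod_cast hb
    simp only [card_range, nsmul_eq_mul] at t1
    linarith [abs_sum_le_sum_abs (fun k => cv 8 (8 * J) (fun u => v (8 * k + u)) (grp c k) i)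
      (range n)]
  have hv : Vec W (8 + 8 * J) E (Nat.sub (Nat.add (dot (W * 8) D x)
      (Nat.add (E * ones W (8 + 8 * J)) (n * (Kx * ones W 8 * (K * ones W (8 * J))))))
      (Nat.add (Kx * ones W 8 * S) (dsum (W * 8) x * (K * ones W (8 * J))))) y := by
    refine vec_of ?_ fun i _ => hyb i
    simp only [Nat.add_eq]
    push_cast
    rw [hy, hσ, hS, hD.sum, ← pk_add, pk_const hW, ← pk_sum,
      sum_congr rfl fun k hk => by rw [(hD.2 k (mem_range.1 hk)).1]]
    simp only [← pk_mul_pk, ← pk_add, pk_const hW, add_mul, mul_add, sum_add_distrib, ← sum_mul,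
      ← mul_sum, sum_const, card_range, nsmul_eq_mul]
    ring
  have hz : Vec (W * 8) J E (Nat.land (Nat.shiftRight _ (W * 7)) (msk (W * 8) W J))
      fun j => y (7 + 8 * j) :=
    ⟨(land_shr_msk (by omega) (by omega) _ _ _).trans (pk_congr fun j hj => by
      rw [show W * 7 + W * 8 * j = W * (7 + 8 * j) by ring, hv.ent hE (by omega)]),
      fun j _ => hyb _⟩
  refine (vec_rsl hz (hE.trans_le (Nat.pow_le_pow_right (by norm_num) (by omega)))
    (m := J / 16 + 1) (by omega)).congr fun j hj => ?_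
  have : ∀ m, ∑ a ∈ range (8 * m), v a * c a j =
      ∑ k ∈ range m, ∑ u ∈ range 8, v (8 * k + u) * c (8 * k + u) j := fun m => by
    induction m with
    | zero => rfl
    | succ m ih => rw [mul_add, mul_one, sum_range_add, ih, sum_range_succ (n := m)]
  rw [this]
  refine sum_congr rfl fun k _ => sum_congr rfl fun u hu => ?_
  have hu := mem_range.1 hu
  rw [if_pos (by omega), grp, show 7 - (7 + 8 * j - u) % 8 = u by omega,
    show (7 + 8 * j - u) / 8 = j by omega]

end Pool.Agent.Lib.KBlk
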