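import Pool.Agent.Lib.KBlk.Row

/-!
The meaning of the terms.
-/

namespace Pool.Agent.Lib.KBlk

open Finset MeasureTheory Pool.Agent.Lib.KLA

noncomputable section

/-- The real factor of a scaling. -/
def Scl.val (S : Scl) : ℝ := (if S.neg then -1 else 1) * S.c / 2 ^ S.s

/-- The scaling fits a vector with offset `K`. -/
def Scl.Ok (S : Scl) (W K : ℕ) : Prop :=
  S.s < W ∧ K = 2 ^ S.s * S.K ∧ 2 * (2 ^ S.s * (S.c * S.K)) < 2 ^ W

instance (S : Scl) (W K : ℕ) : Decidable (S.Ok W K) := by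
  unfold Scl.Ok
  infer_instance

variable {W p J K K' x y : ℕ} {g g' : ℕ → ℝ} {e e' : ℝ} {S : Scl}

theorem Vec.apx {v : ℕ → ℤ} (h : Vec W p K x v) : Apx W p K x (fun n => v n) 0 :=
  ⟨v, h, fun _ _ => by simp⟩

theorem Apx.add (h : Apx W p K x g e) (h' : Apx W p K' y g' e') :
    Apx W p (K + K') (Nat.add x y) (fun n => g n + g' n) (e + e') := by
  obtain ⟨v, v1, v2⟩ := h
  obtain ⟨w, w1, w2⟩ := h'
  refine ⟨_, v1.add w1, fun n hn => ?_⟩
  push_cast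
  rw [add_sub_add_comm]
  exact (abs_add_le _ _).trans (add_le_add (v2 n hn) (w2 n hn))

theorem Apx.neg (hW : 0 < W) (h : Apx W p K x g e) :
    Apx W p K (vneg W p K x) (fun n => -g n) e := by
  obtain ⟨v, v1, v2⟩ := h
  refine ⟨_, v1.neg hW, fun n hn => ?_⟩
  push_cast
  rw [neg_sub_neg, abs_sub_comm]
  exact v2 n hn

theorem Apx.mono (h : Apx W p K x g e) (he : e ≤ e') : Apx W p K x g e' :=
  let ⟨v, v1, v2⟩ := h
  ⟨v, v1, fun n hn => (v2 n hn).trans he⟩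

theorem scl_sound (hS : S.Ok W K') {f : ℕ → Bool} (hy : Apx W p K' y g' e') (hx : Apx W p K x g e)
    (hf : scl W p S y x f = true) : ∃ z, f z = true ∧ Apx W p (K + S.c * S.K) z
      (fun n => g n + S.val * g' n) (e + (S.c / 2 ^ S.s * e' + 1)) := by
  obtain ⟨h1, rfl, h3⟩ := hS
  obtain ⟨w, w1, w2⟩ := hy
  have hp : (0 : ℝ) < 2 ^ S.s := by positivity
  have t1 := w1.smul S.c
  rw [mul_left_comm] at t1
  have t2 : Apx W p (S.c * S.K) (rnd W S.s 0 p (Nat.mul S.c y)) (fun n => S.c / 2 ^ S.s * g' n)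
      (S.c / 2 ^ S.s * e' + 1) := by
    refine ⟨_, t1.rnd (d := 0) h1 h3 (by omega), fun n hn => ?_⟩
    have t3 := ediv_err (S.c * w (0 + n)) S.s
    have t4 : |((S.c * w (0 + n) : ℤ) : ℝ) / 2 ^ S.s - S.c / 2 ^ S.s * g' n| ≤
        S.c / 2 ^ S.s * e' := by
      push_cast
      rw [zero_add, ← div_mul_eq_mul_div, ← mul_sub, abs_mul, abs_of_nonneg (by positivity)]
      exact mul_le_mul_of_nonneg_left (w2 n hn) (by positivity)
    linarith [abs_sub_le ((S.c * w (0 + n) / 2 ^ S.s : ℤ) : ℝ)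
      (((S.c * w (0 + n) : ℤ) : ℝ) / 2 ^ S.s) (S.c / 2 ^ S.s * g' n)]
  refine ⟨_, hf, ?_⟩
  rw [Scl.val]
  cases S.neg
  · exact (hx.add t2).congr fun n _ => by simp
  · exact (hx.add (t2.neg (by omega))).congr fun n _ => by simp [neg_div]

/-- For the rows `j < J` the term adds `g j`, up to `e`, and increases the offset by `K`. -/
def TOk (W p J : ℕ) (T : Trm) (K : ℕ) (g : ℕ → ℕ → ℝ) (e : ℝ) : Prop :=
  ∀ j < J, ∀ (x : ℕ) (f : ℕ → Bool) (K0 : ℕ) (g0 : ℕ → ℝ) (e0 : ℝ), Apx W p K0 x g0 e0 →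
    T j x f = true → ∃ y, f y = true ∧ Apx W p (K0 + K) y (fun n => g0 n + g j n) (e0 + e)

variable {T U : Trm} {G G' : ℕ → ℕ → ℝ}

theorem TOk.congr (h : TOk W p J T K G e) (hG : ∀ j < J, ∀ n < p, G j n = G' j n) (he : e ≤ e') :
    TOk W p J T K G' e' := fun j hj x f K0 g0 e0 hx hf =>
  let ⟨y, y1, y2⟩ := h j hj x f K0 g0 e0 hx hf
  ⟨y, y1, (y2.congr fun n hn => by rw [hG j hj n hn]).mono (by linarith)⟩

theorem tZ_ok : TOk W p J tZ 0 (fun _ _ => 0) 0 := fun _ _ x _ _ _ _ hx hf =>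
  ⟨x, hf, by simpa using hx⟩

theorem TOk.seq (h : TOk W p J T K G e) (h' : TOk W p J U K' G' e') :
    TOk W p J (tS T U) (K + K') (fun j n => G j n + G' j n) (e + e') :=
  fun j hj x f K0 g0 e0 hx hf => by
    obtain ⟨y, y1, y2⟩ := h j hj x _ K0 g0 e0 hx hf
    obtain ⟨z, z1, z2⟩ := h' j hj y f _ _ _ y2 y1
    exact ⟨z, z1, by simpa only [add_assoc] using z2⟩

theorem tA_ok {T : ℕ → Trm} {K : ℕ → ℕ} {G : ℕ → ℕ → ℕ → ℝ} {e : ℕ → ℝ} : ∀ n : ℕ,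
    (∀ r < n, TOk W p J (T r) (K r) (G r) (e r)) → TOk W p J (tA T n) (∑ r ∈ range n, K r)
      (fun j m => ∑ r ∈ range n, G r j m) (∑ r ∈ range n, e r)
  | 0, _ => tZ_ok
  | n + 1, h => by
    simp only [sum_range_succ]
    exact (tA_ok n fun r hr => h r (by omega)).seq (h n (by omega))

theorem TOk.cnd (c : Bool) (h : c = true → TOk W p J T K G e) (h' : c = false → TOk W p J U K G e) :
    TOk W p J (cnd c T U) K G e := by
  cases c
  · exact h' rfl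
  · exact h rfl

theorem tP_ok {n Kx b q : ℕ} {A C : Rows} {a c : ℕ → ℕ → ℤ} (hS : S.Ok W (2 ^ b))
    (hA : Mat W q Kx n A a) (hJ : J ≤ q) (hC : Mat W p K n C c) (hb : b + 1 ≤ W)
    (h1 : 2 * n * Kx + 1 < 2 ^ W) (h2 : n * (Kx * K) + 2 ^ (b + 2) ≤ 2 ^ W) :
    TOk W p J (tP W p n Kx K b S A C) (S.c * S.K)
      (fun j m => S.val * ∑ k ∈ range n, (a k j : ℝ) * c k m) 1 :=
  fun j hj x f K0 g0 e0 hx hf => by
    obtain ⟨y, y1, y2, -⟩ := vmT_sound hf hA rfl (by omega) hC rfl hb h1 h2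
    simpa using scl_sound hS (Vec.apx y2) hx y1

theorem tL_ok {n q d : ℕ} {A : Rows} {a : ℕ → ℕ → ℤ} (hS : S.Ok W K) (hA : Mat W q K n A a)
    (hJ : J ≤ q) (hK : 2 * K < 2 ^ W) (hd : d + p ≤ n) :
    TOk W p J (tL W p d S A) (S.c * S.K) (fun j m => S.val * a (d + m) j) 1 :=
  fun j hj x f K0 g0 e0 hx hf => by
    simpa using scl_sound hS
      (Vec.apx ((hA.col (d := j) (by omega) hK).cut (by have := hS.1; omega) hK hd)) hx hf

theorem tR_ok {n : ℕ} {A : Rows} {a : ℕ → ℕ → ℤ} (hS : S.Ok W K) (hA : Mat W p K n A a)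
    (hJ : J ≤ n) : TOk W p J (tR W p S A) (S.c * S.K) (fun j m => S.val * a j m) 1 :=
  fun j hj x f K0 g0 e0 hx hf => by
    simpa using scl_sound hS (Vec.apx (hA.2 j (by omega))) hx hf

theorem tD_ok {n q d : ℕ} {A : Rows} {a : ℕ → ℕ → ℤ} (hS : S.Ok W K) (hA : Mat W q K n A a)
    (hJ : J ≤ n) (hd : d + q ≤ p) : TOk W p J (tD W p d q K S A) (S.c * S.K)
      (fun j m => S.val * if d ≤ m ∧ m < d + q then (a j (m - d) : ℝ) else 0) 1 :=
  fun j hj x f K0 g0 e0 hx hf => by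
    have hW : 0 < W := by have := hS.1; omega
    have t := vec_cat (vec_zero hW d K) (vec_cat (hA.2 j (by omega)) (vec_zero hW (p - d - q) K))
    rw [show d + (q + (p - d - q)) = p by omega] at t
    obtain ⟨z, z1, z2⟩ := scl_sound hS (Vec.apx t) hx hf
    refine ⟨z, z1, (z2.congr fun m _ => ?_).mono (by simp)⟩
    beta_reduce
    by_cases h1 : m < d
    · rw [if_pos h1, if_neg (by omega), Int.cast_zero]
    · by_cases h2 : m - d < q
      · rw [if_neg h1, if_pos h2, if_pos (by omega)]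
      · rw [if_neg h1, if_neg h2, if_neg (by omega), Int.cast_zero]

theorem tI_ok {d c : ℕ} (hW : 0 < W) (hd : d + J ≤ p) :
    TOk W p J (tI W p d c) c (fun j m => if m = d + j then -(c : ℝ) else 0) 0 :=
  fun j hj x f K0 g0 e0 hx hf => by
    have t : Vec W p c (Nat.sub (Nat.mul c (ones W p)) (Nat.shiftLeft c (Nat.mul W (Nat.add d j))))
        fun m => if m = d + j then -(c : ℤ) else 0 := by
      refine vec_of ?_ fun m _ => by split_ifs <;> simp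
      rw [Nat.mul_eq, Nat.cast_mul, ← pk_const hW, shl_eq, Nat.mul_eq, Nat.add_eq]
      have : ((c * 2 ^ (W * (d + j)) : ℕ) : ℤ) = pk W p fun m => if m = d + j then (c : ℤ) else 0 := by
        rw [pk, sum_eq_single (d + j) (fun m _ hm => by rw [if_neg hm, zero_mul])
          (fun h => absurd (mem_range.2 (by omega)) h), if_pos rfl]
        push_cast
        rfl
      rw [this, pk_sub]
      exact pk_congr fun m _ => by split_ifs <;> ring
    refine ⟨_, hf, (hx.add (Vec.apx t)).congr fun m _ => ?_⟩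
    beta_reduce
    split_ifs <;> simp

theorem fin_sound {b a q j : ℕ} (h : TOk W p J T K G e) (hf : fin W p K b T a q = true)
    (hb : b + 1 ≤ W) (hK : K + 2 ^ (b + 2) ≤ 2 ^ W) (h1 : a ≤ j) (h2 : j < a + q) (hj : j < J) :
    ∀ n < p, |G j n| ≤ 2 ^ b + e := fun n hn => by
  have t : Apx W p 0 0 (fun _ => 0) 0 := ⟨fun _ => 0, ⟨by simp [pk], by simp⟩, by simp⟩
  obtain ⟨y, y1, v, v1, v2⟩ := h j hj 0 _ 0 _ 0 t (allR_spec hf j h1 h2)
  rw [zero_add] at v1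
  obtain ⟨z, -, z2, -⟩ := tight_sound y1 v1 hb hK
  have t1 : |(v n : ℝ)| ≤ 2 ^ b := by exact_mod_cast z2.2 n hn
  have t2 := v2 n hn
  simp only [zero_add] at t2
  have t3 := abs_sub_abs_le_abs_sub (G j n) (v n)
  rw [abs_sub_comm] at t3
  linarith

theorem ent_rtake {g : ℕ} (W b m : ℕ) (Z : Rows) {k : ℕ} (hk : k < g * (16 * m))
    (j : ℕ) : KLA.ent W g b (rtake Z m) k j = KLA.ent W g b Z k j := by
  have : k / (16 * g) < m := Nat.div_lt_of_lt_mul (by linarith)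
  rw [KLA.ent, KLA.ent, src, src, rtake_get _ _ _ (by omega)]

theorem ent_rdrop {g : ℕ} (hg : 0 < g) (W b m : ℕ) (Z : Rows) (k j : ℕ) :
    KLA.ent W g b (rdrop Z m) k j = KLA.ent W g b Z (g * (16 * m) + k) j := by
  have h1 : (g * (16 * m) + k) / (16 * g) = m + k / (16 * g) := by
    rw [show g * (16 * m) = 16 * g * m by ring, Nat.mul_add_div (by omega)]
  have h2 : (g * (16 * m) + k) % 16 = k % 16 := by
    rw [show g * (16 * m) = 16 * (g * m) by ring, Nat.mul_add_mod]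
  have h3 : (g * (16 * m) + k) / 16 % g = k / 16 % g := by
    rw [show g * (16 * m) = 16 * (g * m) by ring, Nat.mul_add_div (by omega), Nat.mul_add_mod]
  rw [KLA.ent, KLA.ent, src, src, rdrop_get, h1, h2, h3, mul_add 16, add_assoc]

theorem mat_cut {g b m : ℕ} {Z : Rows} (hg : 0 < g) (hb : 0 < b) (hbW : b ≤ W) (d p : ℕ)
    (hm : 16 * m ≤ Z.len) : Mat W p (2 ^ (b - 1)) (g * (16 * m)) (cut W g b d p m Z)
      fun k j => KLA.ent W g b Z k (d + j) := by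
  have t := (mat_unp hg hb hbW p d (rtake Z m)).force
  rw [rtake_len _ _ hm] at t
  exact t.congr fun k hk j _ => ent_rtake _ _ _ _ hk _

theorem mat_seg {g b m0 m : ℕ} {Z : Rows} (hg : 0 < g) (hb : 0 < b) (hbW : b ≤ W) (d p : ℕ)
    (hm : 16 * (m0 + m) ≤ Z.len) : Mat W p (2 ^ (b - 1)) (g * (16 * m)) (seg W g b d p m0 m Z)
      fun k j => KLA.ent W g b Z (g * (16 * m0) + k) (d + j) :=
  (mat_cut hg hb hbW d p (by rw [rdrop_len]; omega)).congr fun _ _ _ _ => ent_rdrop hg _ _ _ _ _ _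

variable {P : Par} {Q : Err} {X : Type} [MeasurableSpace X] {μ : Measure X}

/-- The rows of a tile as a term. -/
theorem tC_ok' {χ θ : X → ℝ} {F : ℕ → ℕ → X → ℝ} {nb : ℕ} {T0 T1 : Rows} {dg : ℕ → ℕ}
    {M : ℕ → ℕ → Rows} {Jc : ℕ → ℕ → ℕ} {D : ℕ → ℕ → Rows} {an : Bool → ℕ → ℕ → ℝ}
    {rc : ℕ → ℕ → ℕ → ℕ → ℝ} (h : Src P Q μ χ θ F nb T0 T1 dg M an) {b0 q b : ℕ}
    (h0 : b0 < nb) (hb : b + q ≤ nb)
    (hD : ∀ b', b ≤ b' → b' < b + q → ∀ Y < 2,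
      Tg P.W (Jc b' Y) P.Kc (16 * P.dB) (3 * (16 * P.cB)) Q.Lc (D b' Y) (rc b' Y))
    {f : Tile → Bool} (hf : tile0 P b0 T0 T1 dg M Jc D q b f = true) (hS : S.Ok P.W P.E4)
    {R : Rows} {r : ℕ → ℕ → ℝ} (hR : Tg P.W J P.Kr (16 * P.dA) (3 * (16 * P.cA)) Q.Lr R r) :
    ∃ t, f t = true ∧ TOk P.W (tot Jc q b) J (tC P (tot Jc q b) S R t) (S.c * S.K)
      (fun j n => S.val * ent P μ χ θ F an r rc b0 j (dec Jc q b n))
      (S.c / 2 ^ S.s * Q.e4 + 1) := by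
  obtain ⟨t, ht, h1⟩ := rows_sound h h0 hb hD hf
  refine ⟨t, ht, fun j hj x f K0 g0 e0 hx hf => ?_⟩
  obtain ⟨x0, x1, x2, hf, p0, p1, p2⟩ := jets_sound h.ok hR hj hf
  exact scl_sound hS (h1 x0 x1 x2 j r p0 p1 p2) hx hf

theorem tC_ok {χ θ : X → ℝ} {F : ℕ → ℕ → X → ℝ} {nb : ℕ} {T0 T1 : Rows} {dg : ℕ → ℕ}
    {M : ℕ → ℕ → Rows} {Jc : ℕ → ℕ → ℕ} {D : ℕ → ℕ → Rows} {an : Bool → ℕ → ℕ → ℝ}
    {rc : ℕ → ℕ → ℕ → ℕ → ℝ} (h : Src P Q μ χ θ F nb T0 T1 dg M an) {b0 q b : ℕ}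
    (h0 : b0 < nb) (hb : b + q ≤ nb)
    (hD : ∀ b' < b + q, ∀ Y < 2,
      Tg P.W (Jc b' Y) P.Kc (16 * P.dB) (3 * (16 * P.cB)) Q.Lc (D b' Y) (rc b' Y))
    {f : Tile → Bool} (hf : tile0 P b0 T0 T1 dg M Jc D q b f = true) (hS : S.Ok P.W P.E4)
    {R : Rows} {r : ℕ → ℕ → ℝ} (hR : Tg P.W J P.Kr (16 * P.dA) (3 * (16 * P.cA)) Q.Lr R r) :
    ∃ t, f t = true ∧ TOk P.W (tot Jc q b) J (tC P (tot Jc q b) S R t) (S.c * S.K)
      (fun j n => S.val * ent P μ χ θ F an r rc b0 j (dec Jc q b n))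
      (S.c / 2 ^ S.s * Q.e4 + 1) :=
  tC_ok' h h0 hb (fun b' _ => hD b') hf hS hR

end

end Pool.Agent.Lib.KBlk
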