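import Pool.Agent.Lib.KBlk.Sound

/-!
Products of cosine and sine sums, and their integrals against a weight.
-/

namespace Pool.Agent.Lib.KBlk

open Finset MeasureTheory

noncomputable section

/-- The cosine or the sine. -/
def cs (e : Bool) (x : ℝ) : ℝ := if e then Real.sin x else Real.cos x

/-- A cosine sum or a sine sum. -/
def ts (e : Bool) (n : ℕ) (c : ℕ → ℝ) (x : ℝ) : ℝ := ∑ a ∈ range n, c a * cs e (a * x)

/-- The sign in the product formula. -/
def sg (e e' : Bool) : ℝ := if e && e' then -1 else 1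

/-- The weights of the upper half of an even or odd sequence. -/
def wk (k : ℕ) : ℝ := if k = 0 then 1 else 2

theorem abs_cs_le (e : Bool) (x : ℝ) : |cs e x| ≤ 1 := by
  cases e
  · exact Real.abs_cos_le_one x
  · exact Real.abs_sin_le_one x

theorem continuous_cs (e : Bool) : Continuous (cs e) := by
  cases e
  · exact Real.continuous_cos
  · exact Real.continuous_sin

theorem cs_neg (e : Bool) (x : ℝ) : cs e (-x) = (if e then -1 else 1) * cs e x := by
  cases e <;> simp [cs]

theorem cs_mul (e e' : Bool) (x y : ℝ) : 2 * cs e x * cs e' y =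
    sg e e' * (cs (xor e e') (x + y) + (if e then -1 else 1) * cs (xor e e') (-x + y)) := by
  cases e <;> cases e' <;> simp [cs, sg, Real.cos_add, Real.sin_add] <;> ring

theorem sum_lv (m : ℕ) (e : Bool) (a : ℕ → ℝ) (g : ℝ → ℝ) :
    ∑ u ∈ range (2 * m + 1), lv m e a u * g ((m : ℝ) - u) =
      ∑ k ∈ range (m + 1), a k * (g k + (if e then -1 else 1) * g (-k)) := by
  simp only [lv, add_mul, sum_add_distrib, mul_add]
  congr 1
  · rw [show 2 * m + 1 = (m + 1) + m by ring, sum_range_add, ← sum_range_reflect _ (m + 1)]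
    rw [sum_eq_zero (s := range m) fun j _ => by rw [if_neg (by omega), zero_mul], add_zero]
    refine sum_congr rfl fun k hk => ?_
    have hk := mem_range.1 hk
    rw [if_pos (by omega), show m - (m + 1 - 1 - k) = k by omega,
      show m + 1 - 1 - k = m - k by omega, Nat.cast_sub (by omega), sub_sub_cancel]
  · rw [show 2 * m + 1 = m + (m + 1) by ring, sum_range_add]
    rw [sum_eq_zero (s := range m) fun j hj => by
      rw [if_neg (by have := mem_range.1 hj; omega), zero_mul], zero_add]
    refine sum_congr rfl fun k _ => ?_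
    rw [if_pos (by omega), Nat.add_sub_cancel_left, Nat.cast_add, sub_add_cancel_left]
    cases e <;> simp

theorem lv_cs (m : ℕ) (e e' : Bool) (a : ℕ → ℝ) (x y : ℝ) :
    sg e e' * ∑ u ∈ range (2 * m + 1), lv m e a u * cs (xor e e') (((m : ℝ) - u) * x + y) =
      2 * ts e (m + 1) a x * cs e' y := by
  rw [sum_lv m e a fun z => cs (xor e e') (z * x + y), ts, mul_sum, mul_sum, sum_mul]
  refine sum_congr rfl fun k _ => ?_
  have := cs_mul e e' (k * x) y
  rw [neg_mul]
  linear_combination (-a k) * this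

theorem sum_cv {α : Type} [CommRing α] (r p : ℕ) (u v g : ℕ → α) :
    ∑ n ∈ range (r + p), cv r p u v n * g n =
      ∑ i ∈ range r, ∑ j ∈ range p, u i * v j * g (i + j) := by
  simp only [cv, sum_mul]
  rw [sum_comm]
  refine sum_congr rfl fun i hi => ?_
  have hi := mem_range.1 hi
  rw [show r + p = i + (p + (r - i)) by omega, sum_range_add, sum_range_add]
  rw [sum_eq_zero (s := range i) fun j hj => by
      rw [if_neg (by have := mem_range.1 hj; omega), zero_mul],
    sum_eq_zero (s := range (r - i)) fun j hj => by rw [if_neg (by omega), zero_mul],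
    zero_add, add_zero]
  refine sum_congr rfl fun j hj => ?_
  have hj := mem_range.1 hj
  rw [if_pos (by omega), Nat.add_sub_cancel_left]

theorem lv_flip (m : ℕ) (e : Bool) (a : ℕ → ℝ) {u : ℕ} (hu : u ≤ 2 * m) :
    lv m e a (2 * m - u) = (if e then -1 else 1) * lv m e a u := by
  unfold lv
  rcases lt_trichotomy u m with h | h | h
  · rw [if_neg (show ¬2 * m - u ≤ m by omega), if_pos (show m ≤ 2 * m - u by omega), if_pos h.le,
      if_neg (show ¬m ≤ u by omega), show 2 * m - u - m = m - u by omega]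
    cases e <;> simp
  · subst h
    rw [show 2 * u - u = u by omega]
    cases e <;> simp
  · rw [if_pos (show 2 * m - u ≤ m by omega), if_neg (show ¬m ≤ 2 * m - u by omega),
      if_neg (show ¬u ≤ m by omega), if_pos h.le, show m - (2 * m - u) = u - m by omega]
    cases e <;> simp

theorem cv_flip (m : ℕ) (e e' : Bool) (a a' : ℕ → ℝ) {k : ℕ} (hk : k ≤ 2 * m) :
    cv (2 * m + 1) (2 * m + 1) (lv m e a) (lv m e' a') (2 * m - k) =
      (if xor e e' then -1 else 1) *
        cv (2 * m + 1) (2 * m + 1) (lv m e a) (lv m e' a') (2 * m + k) := by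
  unfold cv
  rw [← sum_range_reflect, mul_sum]
  refine sum_congr rfl fun i hi => ?_
  have hi := mem_range.1 hi
  rw [show 2 * m + 1 - 1 - i = 2 * m - i by omega]
  by_cases h : k ≤ i
  · rw [if_pos (by omega), if_pos (show i ≤ 2 * m + k ∧ 2 * m + k - i < 2 * m + 1 by omega),
      lv_flip m e a (by omega),
      show 2 * m - k - (2 * m - i) = 2 * m - (2 * m + k - i) by omega,
      lv_flip m e' a' (by omega)]
    cases e <;> cases e' <;> simp
  · rw [if_neg (by omega),
      if_neg (show ¬(i ≤ 2 * m + k ∧ 2 * m + k - i < 2 * m + 1) by omega), mul_zero]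

theorem cv_lv_zero {m d d' k : ℕ} (e e' : Bool) {a a' : ℕ → ℝ} (ha : ∀ j, d < j → a j = 0)
    (ha' : ∀ j, d' < j → a' j = 0) (hk : d + d' < k) :
    cv (2 * m + 1) (2 * m + 1) (lv m e a) (lv m e' a') (2 * m + k) = 0 := by
  have h : ∀ (e : Bool) (a : ℕ → ℝ) (d u : ℕ), (∀ j, d < j → a j = 0) → m + d < u →
      lv m e a u = 0 := fun e a d u ha hu => by
    rw [lv, if_neg (by omega), if_pos (by omega), ha _ (by omega)]
    simp
  refine sum_eq_zero fun i _ => ?_
  split_ifs with h1
  · by_cases h2 : m + d < i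
    · rw [h e a d i ha h2, zero_mul]
    · rw [h e' a' d' _ ha' (by omega), mul_zero]
  · rfl

/-- The product of two angular factors. -/
theorem ts_mul_ts {m d d' n : ℕ} (e e' : Bool) {a a' : ℕ → ℝ} (ha : ∀ j, d < j → a j = 0)
    (ha' : ∀ j, d' < j → a' j = 0) (hn : d + d' < n) (hm : n ≤ 2 * m + 2) (x : ℝ) :
    sg e e' * ∑ k ∈ range n, cv (2 * m + 1) (2 * m + 1) (lv m e a) (lv m e' a') (2 * m + k) *
      (wk k * cs (xor e e') (-(k * x))) = 4 * (ts e (m + 1) a x * ts e' (m + 1) a' x) := by
  set c := cv (2 * m + 1) (2 * m + 1) (lv m e a) (lv m e' a') with hc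
  have h1 : 2 * ts e' (m + 1) a' x =
      ∑ u ∈ range (2 * m + 1), lv m e' a' u * cs e' (((m : ℝ) - u) * x) := by
    have := lv_cs m e' false a' x 0
    simpa [sg, cs] using this.symm
  have h2 : 4 * (ts e (m + 1) a x * ts e' (m + 1) a' x) = sg e e' *
      ∑ j ∈ range (2 * m + 1 + (2 * m + 1)), c j * cs (xor e e') ((2 * (m : ℝ) - j) * x) := by
    rw [hc, sum_cv, sum_comm, mul_sum,
      show 4 * (ts e (m + 1) a x * ts e' (m + 1) a' x) =
        2 * ts e (m + 1) a x * (2 * ts e' (m + 1) a' x) by ring, h1, mul_sum]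
    refine sum_congr rfl fun u _ => ?_
    rw [mul_left_comm, ← lv_cs, mul_left_comm, mul_sum (a := lv m e' a' u)]
    congr 1
    refine sum_congr rfl fun i _ => ?_
    rw [show (2 * (m : ℝ) - ((i + u : ℕ) : ℝ)) * x = ((m : ℝ) - i) * x + ((m : ℝ) - u) * x by
      push_cast; ring]
    ring
  rw [h2]
  congr 1
  have h3 : ∑ k ∈ range n, c (2 * m + k) * (wk k * cs (xor e e') (-(k * x))) =
      ∑ k ∈ range (2 * m + 2), c (2 * m + k) * (wk k * cs (xor e e') (-(k * x))) :=
    sum_subset (range_subset_range.2 hm) fun k _ hk => by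
      rw [hc, cv_lv_zero e e' ha ha' (by have := mt mem_range.2 hk; omega), zero_mul]
  have h4 : c (2 * m + (2 * m + 1)) = 0 := sum_eq_zero fun i hi => by
    rw [if_neg (by have := mem_range.1 hi; omega)]
  rw [h3, show 2 * m + 1 + (2 * m + 1) = 2 * m + (2 * m + 2) by ring,
    sum_range_add _ (2 * m) (2 * m + 2),
    sum_range_succ _ (2 * m + 1), sum_range_succ _ (2 * m + 1), h4, zero_mul, zero_mul, add_zero,
    add_zero, sum_range_succ' _ (2 * m), sum_range_succ' _ (2 * m), ← add_assoc,
    ← sum_range_reflect (fun j => c j * cs (xor e e') ((2 * (m : ℝ) - j) * x)) (2 * m),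
    ← sum_add_distrib]
  congr 1
  · refine sum_congr rfl fun k hk => ?_
    have hk := mem_range.1 hk
    rw [show 2 * m - 1 - k = 2 * m - (k + 1) by omega, hc, cv_flip m e e' a a' (by omega),
      Nat.cast_sub (by omega), wk, if_neg (by omega)]
    push_cast
    rw [show (2 * (m : ℝ) - (2 * m - (k + 1))) * x = (k + 1) * x by ring,
      show (2 * (m : ℝ) - (2 * m + (k + 1))) * x = -((k + 1) * x) by ring, cs_neg]
    ring
  · simp [wk]

/-- The product of two radial factors. -/
theorem ts_mul_rad (m n : ℕ) (e e' : Bool) (a a' : ℕ → ℝ) (x : ℝ) :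
    sg e e' * ∑ b ∈ range n, ∑ u ∈ range (2 * m + 1), a' b * lv m e a u *
      cs (xor e e') ((((2 * m + b - u : ℕ) : ℝ) - m) * x) =
      2 * (ts e (m + 1) a x * ts e' n a' x) := by
  rw [ts.eq_1 e', mul_sum, mul_sum, mul_sum]
  refine sum_congr rfl fun b _ => ?_
  have := lv_cs m e e' a x (b * x)
  rw [show 2 * (ts e (m + 1) a x * (a' b * cs e' (b * x))) =
    a' b * (2 * ts e (m + 1) a x * cs e' (b * x)) by ring, ← this, mul_left_comm,
    mul_sum (a := a' b)]
  congr 1
  refine sum_congr rfl fun u hu => ?_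
  have hu := mem_range.1 hu
  rw [Nat.cast_sub (by omega)]
  push_cast
  rw [show (2 * (m : ℝ) + b - u - m) * x = (m - u) * x + b * x by ring]
  ring

variable {X : Type} [MeasurableSpace X] {μ : Measure X}

theorem integrable_cs {F χ θ : X → ℝ} (hF : Integrable F μ) (hχ : Measurable χ)
    (hθ : Measurable θ) (e e' : Bool) :
    Integrable (fun y => F y * (cs e (χ y) * cs e' (θ y))) μ := by
  refine hF.mul_bdd (c := 1) ?_ (Filter.Eventually.of_forall fun y => ?_)
  · exact (((continuous_cs e).measurable.comp hχ).mul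
      ((continuous_cs e').measurable.comp hθ)).aestronglyMeasurable
  · rw [Real.norm_eq_abs, abs_mul]
    exact mul_le_one₀ (abs_cs_le _ _) (abs_nonneg _) (abs_cs_le _ _)

/-- The moments of the field `F`: `k` is the angular frequency, `t - m` the radial one. -/
def mo (μ : Measure X) (F χ θ : X → ℝ) (m : ℕ) (e e' f f' : Bool) (k t : ℕ) : ℝ :=
  sg e e' * sg f f' * wk k *
    ∫ y, F y * (cs (xor e e') (((t : ℝ) - m) * χ y) * cs (xor f f') (-(k * θ y))) ∂μ

/-- The integral of a field against a product of four sums, from the moments. -/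
theorem int_four {F χ θ : X → ℝ} (hF : Integrable F μ) (hχ : Measurable χ) (hθ : Measurable θ)
    {m m' d d' n : ℕ} (n' : ℕ) (e e' f f' : Bool) (r r' : ℕ → ℝ) {a a' : ℕ → ℝ}
    (ha : ∀ j, d < j → a j = 0) (ha' : ∀ j, d' < j → a' j = 0) (hn : d + d' < n)
    (hm : n ≤ 2 * m' + 2) :
    ∑ b ∈ range n', (∑ u ∈ range (2 * m + 1), lv m e r u * ∑ k ∈ range n,
      cv (2 * m' + 1) (2 * m' + 1) (lv m' f a) (lv m' f' a') (2 * m' + k) *
        mo μ F χ θ m e e' f f' k (2 * m + b - u)) * r' b =
      8 * ∫ y, F y * (ts e (m + 1) r (χ y) * ts e' n' r' (χ y) *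
        (ts f (m' + 1) a (θ y) * ts f' (m' + 1) a' (θ y))) ∂μ := by
  set c := cv (2 * m' + 1) (2 * m' + 1) (lv m' f a) (lv m' f' a') with hc
  have hi : ∀ (t k : ℕ) (z : ℝ), Integrable (fun y => z * (F y *
      (cs (xor e e') (((t : ℝ) - m) * χ y) * cs (xor f f') (-(k * θ y))))) μ := fun t k z =>
    (integrable_cs hF (hχ.const_mul _) (hθ.const_mul _).neg _ _).const_mul z
  have h1 : ∀ b, (∑ u ∈ range (2 * m + 1), lv m e r u * ∑ k ∈ range n, c (2 * m' + k) *
        mo μ F χ θ m e e' f f' k (2 * m + b - u)) * r' b =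
      ∫ y, ∑ u ∈ range (2 * m + 1), ∑ k ∈ range n,
        (r' b * lv m e r u * c (2 * m' + k) * (sg e e' * sg f f' * wk k)) * (F y *
          (cs (xor e e') ((((2 * m + b - u : ℕ) : ℝ) - m) * χ y) *
            cs (xor f f') (-(k * θ y)))) ∂μ := fun b => by
    rw [integral_finsetSum _ fun u _ => integrable_finsetSum _ fun k _ => hi _ _ _, sum_mul]
    refine sum_congr rfl fun u _ => ?_
    rw [integral_finsetSum _ fun k _ => hi _ _ _, mul_sum, sum_mul]
    refine sum_congr rfl fun k _ => ?_
    rw [integral_const_mul, mo]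
    ring
  rw [sum_congr rfl fun b _ => h1 b, ← integral_finsetSum _ fun b _ =>
    integrable_finsetSum _ fun u _ => integrable_finsetSum _ fun k _ => hi _ _ _,
    ← integral_const_mul]
  refine integral_congr_ae (Filter.Eventually.of_forall fun y => ?_)
  have h2 := ts_mul_rad m n' e e' r r' (χ y)
  have h3 := ts_mul_ts f f' ha ha' hn hm (θ y)
  rw [← hc] at h3
  beta_reduce
  rw [show 8 * (F y * (ts e (m + 1) r (χ y) * ts e' n' r' (χ y) *
      (ts f (m' + 1) a (θ y) * ts f' (m' + 1) a' (θ y)))) =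
    F y * ((2 * (ts e (m + 1) r (χ y) * ts e' n' r' (χ y))) *
      (4 * (ts f (m' + 1) a (θ y) * ts f' (m' + 1) a' (θ y)))) by ring, ← h2, ← h3]
  simp only [mul_sum, sum_mul]
  rw [sum_comm (s := range n)]
  refine sum_congr rfl fun b _ => ?_
  rw [sum_comm (s := range n)]
  refine sum_congr rfl fun u _ => sum_congr rfl fun k _ => by ring

end

end Pool.Agent.Lib.KBlk
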