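import Pool.Agent.Lib.KBlk.Sq

/-!
Symmetric matrices of which the rows are stored from the start of their group of `16 * g` rows.
-/

namespace Pool.Agent.Lib.KBlk

open Pool.Agent.Lib.KLA

noncomputable section

/-- The first `r` stored entries of row `a`. -/
def urow (W g b r : Nat) (Z : Rows) (a : Nat) : Nat :=
  (unp g b 0 (msk W b r) (rdrop Z (Nat.div a (Nat.mul 16 g)))).get (Nat.mod a (Nat.mul 16 g))

/-- Row `a`: zero before the group of `a`, doubled after it. -/
def ufull (W g b N : Nat) (Z : Rows) (a : Nat) : Nat :=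
  strict (Nat.mul 16 g) fun G => strict (Nat.shiftLeft 1 (Nat.sub b 1)) fun K =>
  cnd (Nat.ble N a) (Nat.mul (Nat.add K K) (ones W N))
    (strict (Nat.mul G (Nat.div a G)) fun s => strict (Nat.sub N s) fun r =>
      strict (cnd (Nat.ble G r) G r) fun m => strict (urow W g b r Z a) fun v =>
        cat W s (Nat.mul (Nat.add K K) (ones W s))
          (Nat.add v (cat W m (Nat.mul K (ones W m)) (rnd W 0 m (Nat.sub r m) v))))

/-- All rows. -/
def utri (W g b N n : Nat) (Z : Rows) : Rows := (rgen (ufull W g b N Z) n 0).force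

/-- The rows of the block `(b0, c)` of a tile that starts at the angular index `b1` agree with the
stored rows. -/
def pasP (P : Par) (T0 T1 : Rows) (dg : Nat → Nat) (M : Nat → Nat → Nat → Rows)
    (J : Nat → Nat → Nat) (R D : Nat → Nat → Rows) (nb g b e : Nat) (S : Scl) (Z : Rows)
    (b1 b0 c : Nat) : Bool :=
  strict (tot J b1 0) fun o1 => strict (enc J 0 b0 c 0) fun o => strict (Nat.sub nb b1) fun q =>
  strict (tot J q b1) fun p => strict (Nat.mul 16 g) fun G =>
  strict (Nat.shiftLeft 1 (Nat.sub b 1)) fun K =>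
  bnd (bnd (Nat.ble b1 nb) (Nat.ble o1 (Nat.mul G (Nat.div o G))))
    (tile0 P b0 T0 T1 dg (M c) J D q b1 fun t => allR (fun j =>
      strict (Nat.add o j) fun a => strict (Nat.sub (Nat.mul G (Nat.div a G)) o1) fun d =>
      strict (Nat.sub p d) fun r => tC P p S (R b0 c) t j 0 fun y =>
        tight P.W r (Nat.add (Nat.mul S.c S.K) K) e
          (Nat.add (rnd P.W 0 d r y) (vneg P.W r K (urow P.W g b r Z a))) fun _ => true) 0 (J b0 c))

/-- The sums of squares of the `l1` norms of the rows `a, ..., a + q - 1`, added to the last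
argument, is at most `B`. -/
def l1A (W p b : Nat) (A : Rows) (a B q : Nat) : Nat → Bool :=
  Nat.rec (motive := fun _ => Nat → Bool) (fun acc => Nat.ble acc B)
    (fun m ih acc => tight W p (Nat.shiftLeft 1 b) b (A.get (Nat.add a m)) fun y =>
      strict (Nat.add (dsum W (vabs W b p y)) p) fun z => strict (Nat.add acc (Nat.mul z z)) ih) q

end

end Pool.Agent.Lib.KBlk
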