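import Pool.Agent.Lib.KBlk.SqS
import Pool.Agent.Lib.KBlk.Ut

/-!
The meaning of the triangular storage.
-/

namespace Pool.Agent.Lib.KBlk

open Finset Pool.Agent.Lib.KLA

variable {W g b N n : ℕ} {Z : Rows}

/-- The weight of an entry. -/
def uw (G a k : ℕ) : ℤ := if k / G < a / G then 0 else if k / G = a / G then 1 else 2

/-- The entries of `utri`. -/
noncomputable def uent (W g b : ℕ) (Z : Rows) (a k : ℕ) : ℤ :=
  uw (16 * g) a k * KLA.ent W g b Z a (k - 16 * g * (a / (16 * g)))

theorem uw_add (G a k : ℕ) : uw G a k + uw G k a = 2 := by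
  unfold uw
  split_ifs <;> omega

theorem uw_nonneg (G a k : ℕ) : 0 ≤ uw G a k := by
  unfold uw
  split_ifs <;> omega

theorem uw_zero {G a k : ℕ} (hG : 0 < G) (h : k < G * (a / G)) : uw G a k = 0 :=
  if_pos ((Nat.div_lt_iff_lt_mul hG).2 (by rwa [mul_comm]))

theorem vec_urow (hg : 0 < g) (hb : 0 < b) (hbW : b ≤ W) (r a : ℕ) :
    Vec W r (2 ^ (b - 1)) (urow W g b r Z a) (KLA.ent W g b Z a) := by
  rw [urow, unp_get hg]
  refine (vec_store hb hbW r _ _).congr fun j _ => ?_
  have := ent_rdrop hg W b (a / (16 * g)) Z (a % (16 * g)) j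
  rw [show g * (16 * (a / (16 * g))) = 16 * g * (a / (16 * g)) by ring, Nat.div_add_mod] at this
  rw [← this, KLA.ent, zero_add]
  rfl

theorem mat_utri (hg : 0 < g) (hb : 0 < b) (hbW : b < W) (n : ℕ) :
    Mat W N (2 ^ b) (16 * n) (utri W g b N n Z) fun a k => if a < N then uent W g b Z a k else 0 := by
  have hW : 0 < W := by omega
  have hG : 0 < 16 * g := by omega
  have b2 : 2 ^ b = 2 ^ (b - 1) + 2 ^ (b - 1) := by
    rw [← two_mul, ← pow_succ', Nat.sub_add_cancel hb]
  have hK : 2 * 2 ^ (b - 1) < 2 ^ W := by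
    rw [two_mul, ← b2]
    exact Nat.pow_lt_pow_right (by norm_num) hbW
  refine (mat_rgen fun a _ => ?_).force
  simp only [ufull, strict_eq, cnd_eq, Nat.ble_eq, shl_eq, one_mul, Nat.sub_eq, Nat.add_eq]
  rw [b2]
  by_cases ha : a < N
  · rw [if_neg (by omega)]
    simp only [if_pos ha]
    set s := Nat.mul (Nat.mul 16 g) (Nat.div a (Nat.mul 16 g)) with hs
    have hs' : s = 16 * g * (a / (16 * g)) := rfl
    have s1 : s ≤ a := hs' ▸ Nat.mul_div_le a _
    set m := if Nat.mul 16 g ≤ N - s then Nat.mul 16 g else N - s with hm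
    have m1 : m ≤ N - s := by
      rw [hm]
      split_ifs <;> omega
    have v := vec_urow (Z := Z) hg hb hbW.le (N - s) a
    have t1 := vec_cat (vec_zero hW m (2 ^ (b - 1))) (v.cut hW hK (d := m) (q := N - s - m) (by omega))
    rw [show m + (N - s - m) = N - s by omega] at t1
    have t2 := vec_cat (vec_zero hW s (2 ^ (b - 1) + 2 ^ (b - 1))) (v.add t1)
    rw [show s + (N - s) = N by omega] at t2
    refine t2.congr fun k hk => ?_
    rw [uent, ← hs']
    split_ifs with h1 h2
    · rw [uw_zero hG (hs' ▸ h1), zero_mul]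
    · have : k / (16 * g) = a / (16 * g) := by
        refine Nat.div_eq_of_lt_le (by rw [mul_comm]; omega) ?_
        rw [add_mul, one_mul, mul_comm, ← hs']
        rw [hm] at h2
        split_ifs at h2 with h3
        · exact (Nat.sub_lt_iff_lt_add' (by omega)).1 h2
        · have : N - s < 16 * g := not_le.1 h3
          omega
      rw [uw, if_neg (by omega), if_pos this, add_zero, one_mul]
    · have : a / (16 * g) + 1 ≤ k / (16 * g) := by
        refine (Nat.le_div_iff_mul_le hG).2 ?_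
        rw [add_mul, one_mul, mul_comm, ← hs']
        rw [hm] at h2
        split_ifs at h2 with h3
        · have : 16 * g ≤ k - s := not_lt.1 h2
          omega
        · omega
      rw [uw, if_neg (by omega), if_neg (by omega), show m + (k - s - m) = k - s by omega, two_mul]
  · rw [if_pos (by omega)]
    simp only [if_neg ha]
    exact vec_zero hW N _

/-- The form of a symmetric matrix whose stored entries are close to the data. -/
theorem form_uent {H : ℕ → ℕ → ℝ} {lam E : ℝ} (hg : 0 < g) (hl : 0 < lam)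
    (hs : ∀ a < N, ∀ k < N, H a k = H k a)
    (h : ∀ a < N, ∀ k < N, 16 * g * (a / (16 * g)) ≤ k →
      |lam * H a k - KLA.ent W g b Z a (k - 16 * g * (a / (16 * g)))| ≤ E) (x : Fin N → ℝ) :
    |∑ a : Fin N, ∑ k : Fin N, H a k * (x a * x k)
      - ∑ a : Fin N, ∑ k : Fin N, uent W g b Z a k / lam * (x a * x k)| ≤
        E / lam * (∑ a, |x a|) ^ 2 := by
  have sym : ∀ f : Fin N → Fin N → ℝ, (∀ a k, f a k = f k a) →
      ∑ a, ∑ k, f a k = ∑ a : Fin N, ∑ k : Fin N, (uw (16 * g) a k : ℝ) * f a k := fun f hf => by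
    have e1 : ∑ a : Fin N, ∑ k : Fin N, (uw (16 * g) a k : ℝ) * f a k =
        ∑ a : Fin N, ∑ k : Fin N, (uw (16 * g) k a : ℝ) * f a k := by
      rw [sum_comm]
      simp only [hf]
    have e2 : ∑ a : Fin N, ∑ k : Fin N, (uw (16 * g) a k : ℝ) * f a k +
        ∑ a : Fin N, ∑ k : Fin N, (uw (16 * g) k a : ℝ) * f a k = 2 * ∑ a, ∑ k, f a k := by
      simp only [← sum_add_distrib, ← add_mul, ← Int.cast_add, uw_add, mul_sum, Int.cast_ofNat]
    linarith
  rw [sym _ fun a k => by rw [hs a a.2 k k.2, mul_comm (x a)], _root_.sq, sum_mul_sum,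
    sym (fun a k => |x a| * |x k|) fun a k => mul_comm _ _]
  simp only [← sum_sub_distrib, mul_sum]
  refine (abs_sum_le_sum_abs _ _).trans (sum_le_sum fun a _ =>
    (abs_sum_le_sum_abs _ _).trans (sum_le_sum fun k _ => ?_))
  by_cases hk : 16 * g * (a / (16 * g)) ≤ k
  · have w0 : (0 : ℝ) ≤ uw (16 * g) a k := by exact_mod_cast uw_nonneg _ _ _
    have e : (uw (16 * g) a k : ℝ) * (H a k * (x a * x k)) - uent W g b Z a k / lam * (x a * x k)
        = uw (16 * g) a k / lam * (lam * H a k - KLA.ent W g b Z a (k - 16 * g * (a / (16 * g))))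
          * (x a * x k) := by
      rw [uent]
      push_cast
      field_simp
    rw [e, abs_mul, abs_mul, abs_mul, abs_of_nonneg (div_nonneg w0 hl.le)]
    refine (mul_le_mul_of_nonneg_right (mul_le_mul_of_nonneg_left (h a a.2 k k.2 hk)
      (div_nonneg w0 hl.le)) (by positivity)).trans (le_of_eq (by ring))
  · rw [uent, uw_zero (by omega) (not_le.1 hk)]
    simp

theorem l1A_sound {p : ℕ} {A : Rows} {c : ℕ → ℕ → ℤ} (hA : Mat W p (2 ^ b) n A c)
    (hb : b + 3 ≤ W) (h1 : p * 2 ^ b + 1 < 2 ^ W) {a B : ℕ} : ∀ q acc, a + q ≤ n →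
      l1A W p b A a B q acc = true →
      acc + ∑ j ∈ range q, (∑ k ∈ range p, |(c (a + j) k : ℝ)|) ^ 2 ≤ B
  | 0, acc, _, hf => by
    have : (acc : ℝ) ≤ B := by exact_mod_cast Nat.le_of_ble_eq_true hf
    simpa using this
  | q + 1, acc, hq, hf => by
    have v := hA.2 (a + q) (by omega)
    rw [← one_mul (2 ^ b), ← shl_eq] at v
    obtain ⟨y, y1, y2, y3⟩ := tight_sound hf v (by omega) (by
      rw [shl_eq, one_mul]
      calc 2 ^ b + 2 ^ (b + 2) ≤ 2 ^ (b + 3) := by
            rw [pow_add, pow_add]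
            omega
        _ ≤ _ := Nat.pow_le_pow_right (by norm_num) hb)
    have t := l1A_sound hA hb h1 q _ (by omega) y1
    have t1 := abs_sum_le y2 y3 (by omega) h1
    have t2 : ∑ k ∈ range p, |(c (a + q) k : ℝ)| ≤ dsum W (vabs W b p y) + p := by
      exact_mod_cast t1
    have t3 := pow_le_pow_left₀ (sum_nonneg fun _ _ => abs_nonneg _) t2 2
    simp only [Nat.add_eq, Nat.mul_eq, Nat.cast_add, Nat.cast_mul] at t
    rw [sum_range_succ]
    nlinarith

end Pool.Agent.Lib.KBlk
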