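import Pool.Agent.Lib.KBlk.Chk

/-!
Long numbers written in pieces of 1024 bits, and matrices whose rows have their own word lengths.
-/

namespace Pool.Agent.Lib.KBlk

open Pool.Agent.Lib.KLA

/-- The number with 2 pieces. -/
noncomputable def i2 (x0 x1 : Nat) : Nat :=
  Nat.add x0 (Nat.shiftLeft x1 (nat_lit 1024))

/-- The number with 4 pieces. -/
noncomputable def i4 (x0 x1 x2 x3 : Nat) : Nat :=
  Nat.add (Nat.add x0 (Nat.shiftLeft x1 (nat_lit 1024))) (Nat.shiftLeft (Nat.add x2 (Nat.shiftLeft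
  x3 (nat_lit 1024))) (nat_lit 2048))

/-- The number with 8 pieces. -/
noncomputable def i8 (x0 x1 x2 x3 x4 x5 x6 x7 : Nat) : Nat :=
  Nat.add (Nat.add (Nat.add x0 (Nat.shiftLeft x1 (nat_lit 1024))) (Nat.shiftLeft (Nat.add x2
  (Nat.shiftLeft x3 (nat_lit 1024))) (nat_lit 2048))) (Nat.shiftLeft (Nat.add (Nat.add x4
  (Nat.shiftLeft x5 (nat_lit 1024))) (Nat.shiftLeft (Nat.add x6 (Nat.shiftLeft x7 (nat_lit 1024)))
  (nat_lit 2048))) (nat_lit 4096))

/-- The number with 16 pieces. -/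
noncomputable def i16 (x0 x1 x2 x3 x4 x5 x6 x7 x8 x9 x10 x11 x12 x13 x14 x15 : Nat) : Nat :=
  Nat.add (Nat.add (Nat.add (Nat.add x0 (Nat.shiftLeft x1 (nat_lit 1024))) (Nat.shiftLeft (Nat.add
  x2 (Nat.shiftLeft x3 (nat_lit 1024))) (nat_lit 2048))) (Nat.shiftLeft (Nat.add (Nat.add x4
  (Nat.shiftLeft x5 (nat_lit 1024))) (Nat.shiftLeft (Nat.add x6 (Nat.shiftLeft x7 (nat_lit 1024)))
  (nat_lit 2048))) (nat_lit 4096))) (Nat.shiftLeft (Nat.add (Nat.add (Nat.add x8 (Nat.shiftLeft x9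
  (nat_lit 1024))) (Nat.shiftLeft (Nat.add x10 (Nat.shiftLeft x11 (nat_lit 1024))) (nat_lit
  2048))) (Nat.shiftLeft (Nat.add (Nat.add x12 (Nat.shiftLeft x13 (nat_lit 1024))) (Nat.shiftLeft
  (Nat.add x14 (Nat.shiftLeft x15 (nat_lit 1024))) (nat_lit 2048))) (nat_lit 4096))) (nat_lit
  8192))

/-- Cells of 16 rows. For `d = b + B * (h + B * s)`, a row consists of the bits `s, ..., s + b` of
the slots of `z`, shifted by `h`. -/
inductive Vr : Type
  | nil : Vr
  | cons (d0 d1 d2 d3 d4 d5 d6 d7 d8 d9 d10 d11 d12 d13 d14 d15 : Nat)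
      (z0 z1 z2 z3 z4 z5 z6 z7 z8 z9 z10 z11 z12 z13 z14 z15 : Nat) (t : Vr) : Vr

noncomputable section

/-- The shift. -/
def vsh (B d : Nat) : Nat := Nat.mod (Nat.mod (Nat.div d B) B) (Nat.sub B (Nat.mod d B))

/-- There is no shift. -/
def vno (B d : Nat) : Bool := Nat.beq (vsh B d) 0

/-- The first bit. -/
def vfs (B d : Nat) : Nat := Nat.div (Nat.div d B) B

/-- The mask. -/
def vmk (W B p d : Nat) : Nat := strict (Nat.add (Nat.mod d B) 1) fun b => msk W b p

/-- The change of the offset. -/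
def vof (W B p d : Nat) : Nat := Nat.mul (Nat.sub (Nat.shiftLeft 1 (Nat.sub B 1))
  (Nat.shiftLeft 1 (Nat.add (vsh B d) (Nat.mod d B)))) (ones W p)

/-- The row with the description `d`. -/
def vrow (W B p z d : Nat) : Nat :=
  (fun x : Nat => Nat.add (Bool.rec (motive := fun _ => Nat) (Nat.shiftLeft x (vsh B d)) x (vno B d))
    (vof W B p d)) (Nat.land (Nat.shiftRight z (vfs B d)) (vmk W B p d))

/-- `vld` with `p` evaluated. -/
def vlc (W B p : Nat) (T : Vr) : Nat → Rows :=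
  Vr.rec (motive := fun _ => Nat → Rows) (fun c => rgen (fun _ => vrow W B p 0 0) c 0)
    (fun d0 d1 d2 d3 d4 d5 d6 d7 d8 d9 d10 d11 d12 d13 d14 d15
      z0 z1 z2 z3 z4 z5 z6 z7 z8 z9 z10 z11 z12 z13 z14 z15 _ ih c =>
      Nat.rec (motive := fun _ => Rows) Rows.nil (fun m _ => Rows.cons
          (vrow W B p z0 d0) (vrow W B p z1 d1) (vrow W B p z2 d2) (vrow W B p z3 d3) (vrow W B p
          z4 d4) (vrow W B p z5 d5) (vrow W B p z6 d6) (vrow W B p z7 d7) (vrow W B p z8 d8) (vrow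
          W B p z9 d9) (vrow W B p z10 d10) (vrow W B p z11 d11) (vrow W B p z12 d12) (vrow W B p
          z13 d13) (vrow W B p z14 d14) (vrow W B p z15 d15)
          (ih m)) c) T

/-- The first `16 * c` rows, `p` columns, offset `2 ^ (B - 1)`. -/
def vld (W B p c : Nat) (T : Vr) : Rows := strict p fun p => vlc W B p T c

/-- A tree of stored objects. -/
inductive Tr (α : Type) : Type
  | leaf (x : α) : Tr α
  | node (l r : Tr α) : Tr α

/-- The leaf that is reached with the binary digits of `i`, lowest digit first. -/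
def Tr.get {α : Type} (t : Tr α) : Nat → α :=
  Tr.rec (motive := fun _ => Nat → α) (fun x _ => x)
    (fun _ _ l r i => cnd (Nat.beq (Nat.mod i 2) 0) (l (Nat.div i 2)) (r (Nat.div i 2))) t

end

end Pool.Agent.Lib.KBlk
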