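import Pool.Agent.Lib.KBlk.Vr
import Pool.Agent.Lib.KBlk.ChkS

/-! The matrix that is stored in a `Vr`. -/

namespace Pool.Agent.Lib.KBlk

open Pool.Agent.Lib.KLA

/-- Entry `j` of a row. -/
noncomputable def vent (W B z d j : ℕ) : ℤ :=
  2 ^ vsh B d * ((bits z (vfs B d + W * j) (d % B + 1) : ℤ) - 2 ^ (d % B))

/-- Entry `(k, j)`. -/
noncomputable def Vr.ent (W B : ℕ) : Vr → ℕ → ℕ → ℤ
  | .nil, _, j => vent W B 0 0 j
  | .cons d0 d1 d2 d3 d4 d5 d6 d7 d8 d9 d10 d11 d12 d13 d14 d15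
      z0 z1 z2 z3 z4 z5 z6 z7 z8 z9 z10 z11 z12 z13 z14 z15 t, k, j => if k < 16 then
      vent W B (lget [z0, z1, z2, z3, z4, z5, z6, z7, z8, z9, z10, z11, z12, z13, z14, z15] k)
        (lget [d0, d1, d2, d3, d4, d5, d6, d7, d8, d9, d10, d11, d12, d13, d14, d15] k) j
      else t.ent W B (k - 16) j

theorem vec_vrow {W B : ℕ} (hB : 0 < B) (hW : B ≤ W) (p z d : ℕ) :
    Vec W p (2 ^ (B - 1)) (vrow W B p z d) (vent W B z d) := by
  have hb : d % B < B := Nat.mod_lt _ hB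
  have hh : vsh B d < B - d % B := Nat.mod_lt _ (Nat.sub_pos_of_lt hb)
  have h := vec_off (K := 2 ^ (B - 1)) (by omega)
    ((vec_store (W := W) (b := d % B + 1) (by omega) (by omega) p z (vfs B d)).shl (vsh B d))
    (by
      rw [← pow_add]
      exact Nat.pow_le_pow_right (by norm_num) (by omega))
  simp only [Nat.add_sub_cancel] at h
  rw [← pow_add] at h
  have e : ∀ n : ℕ, Nat.shiftLeft 1 n = 2 ^ n := fun n => by rw [shl_eq, one_mul]
  have e1 : ∀ x : ℕ, Bool.rec (motive := fun _ => ℕ) (Nat.shiftLeft x (vsh B d)) x (vno B d) =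
      Nat.shiftLeft x (vsh B d) := fun x => by
    cases hv : vno B d
    · rfl
    · rw [Nat.eq_of_beq_eq_true hv]
      rfl
  change Vec W p _ (Nat.add (Bool.rec (motive := fun _ => ℕ) (Nat.shiftLeft _ (vsh B d)) _ (vno B d))
    (Nat.mul (Nat.sub (Nat.shiftLeft 1 (B - 1)) (Nat.shiftLeft 1 (vsh B d + d % B))) (ones W p))) _
  rw [e, e, e1]
  exact h

theorem mat_vlc {W B : ℕ} (hB : 0 < B) (hW : B ≤ W) (p : ℕ) : ∀ (T : Vr) (c : ℕ),
    Mat W p (2 ^ (B - 1)) (16 * c) (vlc W B p T c) (T.ent W B)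
  | .nil, _ => mat_rgen fun _ _ => vec_vrow hB hW p 0 0
  | .cons .., 0 => ⟨rfl, fun _ h => absurd h (Nat.not_lt_zero _)⟩
  | .cons d0 d1 d2 d3 d4 d5 d6 d7 d8 d9 d10 d11 d12 d13 d14 d15
      z0 z1 z2 z3 z4 z5 z6 z7 z8 z9 z10 z11 z12 z13 z14 z15 t, c + 1 => by
    have ih := mat_vlc hB hW p t c
    refine ⟨congrArg (· + 16) ih.1, fun k hk => ?_⟩
    by_cases hg : k < 16
    · refine Vec.congr ?_ fun j _ => (if_pos hg).symm
      interval_cases k
      exacts [vec_vrow hB hW p z0 d0, vec_vrow hB hW p z1 d1, vec_vrow hB hW p z2 d2, vec_vrow hB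
        hW p z3 d3, vec_vrow hB hW p z4 d4, vec_vrow hB hW p z5 d5, vec_vrow hB hW p z6 d6, vec_vrow
        hB hW p z7 d7, vec_vrow hB hW p z8 d8, vec_vrow hB hW p z9 d9, vec_vrow hB hW p z10 d10,
        vec_vrow hB hW p z11 d11, vec_vrow hB hW p z12 d12, vec_vrow hB hW p z13 d13, vec_vrow hB hW
        p z14 d14, vec_vrow hB hW p z15 d15]
    · obtain ⟨n, rfl⟩ := Nat.exists_eq_add_of_le (not_lt.1 hg)
      refine Vec.congr ?_ fun j _ => (if_neg hg).symm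
      rw [Nat.add_sub_cancel_left]
      exact (get_cons_add _ _ _ _ _ _ _ _ _ _ _ _ _ _ _ _ _ n).symm ▸ ih.2 n (by omega)

theorem mat_vld {W B : ℕ} (hB : 0 < B) (hW : B ≤ W) (p c : ℕ) (T : Vr) :
    Mat W p (2 ^ (B - 1)) (16 * c) (vld W B p c T) (T.ent W B) := mat_vlc hB hW p T c

end Pool.Agent.Lib.KBlk
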